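import Pool.Agent.H941.Defs2
import Pool.Agent.H941.A3

open MeasureTheory ProbabilityTheory

namespace H941.A6

theorem gridSet_quot {L a b : ℤ} (hL : 1 ≤ L) (h1 : a - b ≤ 1) (h2 : b - a ≤ 1) (ha : ¬ L ∣ a)
    (hb : ¬ L ∣ b) : a / L = b / L := by
  have ea := Int.emod_add_mul_ediv a L
  have eb := Int.emod_add_mul_ediv b L
  have a1 := Int.emod_lt_of_pos a (by omega : 0 < L)
  have b1 := Int.emod_lt_of_pos b (by omega : 0 < L)
  have a0 : 0 < a % L := lt_of_le_of_ne (Int.emod_nonneg a (by omega))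
    (fun h => ha (Int.dvd_of_emod_eq_zero h.symm))
  have b0 : 0 < b % L := lt_of_le_of_ne (Int.emod_nonneg b (by omega))
    (fun h => hb (Int.dvd_of_emod_eq_zero h.symm))
  rcases lt_trichotomy (a / L) (b / L) with h | h | h
  · exfalso
    have h3 : L * (a / L + 1) ≤ L * (b / L) := mul_le_mul_of_nonneg_left h (by omega)
    rw [mul_add, mul_one] at h3
    omega
  · exact h
  · exfalso
    have h3 : L * (b / L + 1) ≤ L * (a / L) := mul_le_mul_of_nonneg_left h (by omega)
    rw [mul_add, mul_one] at h3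
    omega

theorem gridSet_close {L a b : ℤ} (hL : 1 ≤ L) (h : a / L = b / L) : |a - b| < L := by
  have ea := Int.emod_add_mul_ediv a L
  have eb := Int.emod_add_mul_ediv b L
  have a1 := Int.emod_lt_of_pos a (by omega : 0 < L)
  have b1 := Int.emod_lt_of_pos b (by omega : 0 < L)
  have a0 := Int.emod_nonneg a (by omega : L ≠ 0)
  have b0 := Int.emod_nonneg b (by omega : L ≠ 0)
  rw [h] at ea
  rw [abs_lt]
  constructor <;> omega

theorem gridSet_walk (D : Finset (ℤ × ℤ)) (L : ℕ) (hL : 1 ≤ L) (s : ℤ × ℤ) (n : ℕ) :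
    ∀ x y : ℤ × ℤ, walkProb (gridSet D L s) n x y ≠ 0 → x ∈ gridSet D L s ∧
      (x.1 - s.1) / (L : ℤ) = (y.1 - s.1) / (L : ℤ) ∧
      (x.2 - s.2) / (L : ℤ) = (y.2 - s.2) / (L : ℤ) := by
  have hL' : (1 : ℤ) ≤ (L : ℤ) := by exact_mod_cast hL
  induction n with
  | zero =>
    intro x y h
    unfold walkProb at h
    by_cases hc : x ∈ gridSet D L s ∧ x = y
    · rw [← hc.2]
      exact ⟨hc.1, rfl, rfl⟩
    · rw [if_neg hc] at h
      exact absurd rfl h
  | succ n ih =>
    intro x y h
    unfold walkProb at h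
    by_cases hc : x ∈ gridSet D L s
    · rw [if_pos hc] at h
      obtain ⟨z, hz, hz0⟩ := Finset.exists_ne_zero_of_sum_ne_zero (right_ne_zero_of_mul h)
      obtain ⟨hzD, h1, h2⟩ := ih z y hz0
      refine ⟨hc, ?_, ?_⟩
      · rw [← h1]
        unfold gridSet at hc hzD
        rw [Finset.mem_filter] at hc hzD
        simp only [nbrs, Finset.mem_insert, Finset.mem_singleton] at hz
        apply gridSet_quot hL' _ _ hc.2.1 hzD.2.1
        · rcases hz with h | h | h | h <;> rw [h] <;> simp only <;> omega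
        · rcases hz with h | h | h | h <;> rw [h] <;> simp only <;> omega
      · rw [← h2]
        unfold gridSet at hc hzD
        rw [Finset.mem_filter] at hc hzD
        simp only [nbrs, Finset.mem_insert, Finset.mem_singleton] at hz
        apply gridSet_quot hL' _ _ hc.2.2 hzD.2.2
        · rcases hz with h | h | h | h <;> rw [h] <;> simp only <;> omega
        · rcases hz with h | h | h | h <;> rw [h] <;> simp only <;> omega
    · rw [if_neg hc] at h
      exact absurd rfl h

theorem _root_.H941.gridSet_range (D : Finset (ℤ × ℤ)) (L : ℕ) (hL : 1 ≤ L) (s x y : ℤ × ℤ)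
    (h : green (gridSet D L s) x y ≠ 0) :
    |x.1 - y.1| < (L : ℤ) ∧ |x.2 - y.2| < (L : ℤ) := by
  have hL' : (1 : ℤ) ≤ (L : ℤ) := by exact_mod_cast hL
  obtain ⟨n, hn⟩ : ∃ n, walkProb (gridSet D L s) n x y ≠ 0 := by
    by_contra hcon
    push Not at hcon
    apply h
    unfold green
    simp [hcon]
  obtain ⟨-, h1, h2⟩ := gridSet_walk D L hL s n x y hn
  have h3 := gridSet_close hL' h1
  have h4 := gridSet_close hL' h2
  rw [sub_sub_sub_cancel_right] at h3 h4
  exact ⟨h3, h4⟩

end H941.A6
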