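import Pool.Agent.H941.Defs2
import Pool.Agent.H941.A2

open MeasureTheory ProbabilityTheory

namespace H941.A7

theorem sum_nbrs (g : ℤ × ℤ → ℝ) (x : ℤ × ℤ) :
    ∑ z ∈ nbrs x, g z =
      g (x.1 + 1, x.2) + g (x.1 - 1, x.2) + g (x.1, x.2 + 1) + g (x.1, x.2 - 1) := by
  unfold nbrs
  rw [Finset.sum_insert, Finset.sum_insert, Finset.sum_insert, Finset.sum_singleton]
  · ring
  · simp only [Finset.mem_singleton, Prod.mk.injEq, not_and]
    intro _
    omega
  · simp only [Finset.mem_insert, Finset.mem_singleton, Prod.mk.injEq, not_or, not_and]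
    constructor <;> intro h <;> omega
  · simp only [Finset.mem_insert, Finset.mem_singleton, Prod.mk.injEq, not_or, not_and]
    refine ⟨?_, ?_, ?_⟩ <;> intro h <;> omega

theorem _root_.H941.gridSet_mass_le (D : Finset (ℤ × ℤ)) (L : ℕ) (hL : 1 ≤ L) (s x : ℤ × ℤ) :
    ∑ y ∈ gridSet D L s, green (gridSet D L s) x y ≤
      2 * (((x.1 - s.1) % (L : ℤ) : ℤ) : ℝ) * ((L : ℝ) - (((x.1 - s.1) % (L : ℤ) : ℤ) : ℝ)) := by
  have hLpos : (0 : ℤ) < (L : ℤ) := by exact_mod_cast hL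
  have key := (green_le (gridSet D L s)).2 (fun _ => (1 : ℝ))
    (fun z => 2 * (((z.1 - s.1) % (L : ℤ) : ℤ) : ℝ) *
      ((L : ℝ) - (((z.1 - s.1) % (L : ℤ) : ℤ) : ℝ)))
    (fun _ _ => zero_le_one)
    (by
      intro z
      have h0 : (0 : ℤ) ≤ (z.1 - s.1) % (L : ℤ) := Int.emod_nonneg _ hLpos.ne'
      have h1 : (z.1 - s.1) % (L : ℤ) < (L : ℤ) := Int.emod_lt_of_pos _ hLpos
      have h0' : (0 : ℝ) ≤ (((z.1 - s.1) % (L : ℤ) : ℤ) : ℝ) := by exact_mod_cast h0
      have h1' : (((z.1 - s.1) % (L : ℤ) : ℤ) : ℝ) ≤ (L : ℝ) := by exact_mod_cast h1.le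
      have := mul_nonneg (mul_nonneg (by norm_num : (0 : ℝ) ≤ 2) h0') (sub_nonneg.2 h1')
      simpa using this)
    (by
      intro z hz
      have hz' : z ∈ D ∧ ¬ ((L : ℤ) ∣ z.1 - s.1) ∧ ¬ ((L : ℤ) ∣ z.2 - s.2) := by
        unfold gridSet at hz
        exact Finset.mem_filter.1 hz
      have h0 : (0 : ℤ) ≤ (z.1 - s.1) % (L : ℤ) := Int.emod_nonneg _ hLpos.ne'
      have h1 : (z.1 - s.1) % (L : ℤ) < (L : ℤ) := Int.emod_lt_of_pos _ hLpos
      have hne : (z.1 - s.1) % (L : ℤ) ≠ 0 := fun h => hz'.2.1 (Int.dvd_of_emod_eq_zero h)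
      have hpos : 0 < (z.1 - s.1) % (L : ℤ) := lt_of_le_of_ne h0 (Ne.symm hne)
      rw [sum_nbrs]
      -- values at the neighbours
      have hm : ((z.1 - 1 - s.1) % (L : ℤ)) = (z.1 - s.1) % (L : ℤ) - 1 := by
        have e : z.1 - 1 - s.1 = ((z.1 - s.1) % (L : ℤ) - 1) + (L : ℤ) * ((z.1 - s.1) / (L : ℤ)) := by
          have := Int.emod_add_mul_ediv (z.1 - s.1) (L : ℤ)
          linarith
        rw [e, Int.add_mul_emod_self_left]
        exact Int.emod_eq_of_lt (by omega) (by omega)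
      have hp : 2 * (((z.1 + 1 - s.1) % (L : ℤ) : ℤ) : ℝ) *
          ((L : ℝ) - (((z.1 + 1 - s.1) % (L : ℤ) : ℤ) : ℝ)) =
          2 * ((((z.1 - s.1) % (L : ℤ) : ℤ) : ℝ) + 1) *
          ((L : ℝ) - ((((z.1 - s.1) % (L : ℤ) : ℤ) : ℝ) + 1)) := by
        have e : z.1 + 1 - s.1 = ((z.1 - s.1) % (L : ℤ) + 1) + (L : ℤ) * ((z.1 - s.1) / (L : ℤ)) := by
          have := Int.emod_add_mul_ediv (z.1 - s.1) (L : ℤ)
          linarith
        rcases lt_or_eq_of_le (Int.add_one_le_iff.2 h1) with h | h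
        · have : (z.1 + 1 - s.1) % (L : ℤ) = (z.1 - s.1) % (L : ℤ) + 1 := by
            rw [e, Int.add_mul_emod_self_left]
            exact Int.emod_eq_of_lt (by omega) h
          rw [this]
          push_cast
          ring
        · have h2 : (z.1 + 1 - s.1) % (L : ℤ) = 0 := by
            rw [e, Int.add_mul_emod_self_left, h]
            exact Int.emod_self
          have h3 : ((((z.1 - s.1) % (L : ℤ) : ℤ) : ℝ) + 1) = (L : ℝ) := by exact_mod_cast h
          rw [h2, h3]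
          simp
      simp only []
      rw [hp, hm]
      push_cast
      apply le_of_eq
      ring)
    x
  simpa using key

end H941.A7
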