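import Pool.Agent.H941.Defs2
import Pool.Agent.H941.A3

open MeasureTheory ProbabilityTheory

namespace H941.A8

namespace GridMass


lemma sum_nbrs (f : ℤ × ℤ → ℝ) (u : ℤ × ℤ) : ∑ z ∈ nbrs u, f z =
    f (u.1 + 1, u.2) + f (u.1 - 1, u.2) + f (u.1, u.2 + 1) + f (u.1, u.2 - 1) := by
  unfold nbrs
  rw [Finset.sum_insert, Finset.sum_insert, Finset.sum_insert, Finset.sum_singleton]
  · ring
  · rw [Finset.mem_singleton, Prod.mk.injEq]
    rintro ⟨-, h⟩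
    omega
  · rw [Finset.mem_insert, Finset.mem_singleton, Prod.mk.injEq, Prod.mk.injEq]
    rintro (⟨h, -⟩ | ⟨h, -⟩) <;> omega
  · rw [Finset.mem_insert, Finset.mem_insert, Finset.mem_singleton, Prod.mk.injEq, Prod.mk.injEq,
      Prod.mk.injEq]
    rintro (⟨h, -⟩ | ⟨h, -⟩ | ⟨h, -⟩) <;> omega

/-- the product of the two parabolas -/
noncomputable def fo (L : ℕ) (c1 c2 : ℤ) (z : ℤ × ℤ) : ℝ :=
  4 * (((z.1 : ℝ) - c1) * (c1 + L - z.1)) * (((z.2 : ℝ) - c2) * (c2 + L - z.2)) / (L : ℝ) ^ 2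

/-- the open cell -/
noncomputable def cell (L : ℕ) (c1 c2 : ℤ) : Finset (ℤ × ℤ) :=
  (Finset.Ioo c1 (c1 + L)) ×ˢ (Finset.Ioo c2 (c2 + L))

lemma mem_cell {L : ℕ} {c1 c2 : ℤ} {z : ℤ × ℤ} : z ∈ cell L c1 c2 ↔
    (c1 < z.1 ∧ z.1 < c1 + L) ∧ (c2 < z.2 ∧ z.2 < c2 + L) := by
  unfold cell
  rw [Finset.mem_product, Finset.mem_Ioo, Finset.mem_Ioo]

open Classical in
/-- the truncated function -/
noncomputable def g (L : ℕ) (c1 c2 : ℤ) (z : ℤ × ℤ) : ℝ :=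
  if z ∈ cell L c1 c2 then fo L c1 c2 z else 0

lemma fo_zero {L : ℕ} {c1 c2 : ℤ} {z : ℤ × ℤ}
    (h : z.1 = c1 ∨ z.1 = c1 + L ∨ z.2 = c2 ∨ z.2 = c2 + L) : fo L c1 c2 z = 0 := by
  unfold fo
  rcases h with h | h | h | h
  · rw [h]; simp
  · rw [h]; push_cast; simp
  · rw [h]; simp
  · rw [h]; push_cast; simp

lemma g_eq {L : ℕ} {c1 c2 : ℤ} {z : ℤ × ℤ} (h1 : c1 ≤ z.1) (h2 : z.1 ≤ c1 + L) (h3 : c2 ≤ z.2)
    (h4 : z.2 ≤ c2 + L) : g L c1 c2 z = fo L c1 c2 z := by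
  unfold g
  split_ifs with h
  · rfl
  · rw [mem_cell] at h
    symm
    apply fo_zero
    omega

lemma par_le {L : ℕ} {c t : ℝ} : (t - c) * (c + L - t) ≤ (L : ℝ) ^ 2 / 4 := by
  nlinarith [sq_nonneg (2 * (t - c) - L)]

lemma super {L : ℕ} (hL : 1 ≤ L) {c1 c2 : ℤ} (z : ℤ × ℤ) (hz : z ∈ cell L c1 c2) :
    g L c1 c2 z ≤ 1 + (1 / 4) * ∑ w ∈ nbrs z, g L c1 c2 w := by
  rw [mem_cell] at hz
  obtain ⟨⟨h1, h2⟩, h3, h4⟩ := hz
  rw [sum_nbrs, g_eq (by omega) (by omega) (by omega) (by omega),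
    g_eq (z := (z.1 + 1, z.2)) (by simp only; omega) (by simp only; omega) (by simp only; omega)
      (by simp only; omega),
    g_eq (z := (z.1 - 1, z.2)) (by simp only; omega) (by simp only; omega) (by simp only; omega)
      (by simp only; omega),
    g_eq (z := (z.1, z.2 + 1)) (by simp only; omega) (by simp only; omega) (by simp only; omega)
      (by simp only; omega),
    g_eq (z := (z.1, z.2 - 1)) (by simp only; omega) (by simp only; omega) (by simp only; omega)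
      (by simp only; omega)]
  unfold fo
  have hL' : (0:ℝ) < (L : ℝ) := by exact_mod_cast hL
  have a1 := par_le (L := L) (c := (c1 : ℝ)) (t := (z.1 : ℝ))
  have a2 := par_le (L := L) (c := (c2 : ℝ)) (t := (z.2 : ℝ))
  have hL2 : (0:ℝ) < (L : ℝ) ^ 2 := by positivity
  push_cast
  rw [← sub_nonneg]
  have key : 1 + 1 / 4 * (4 * (((z.1 : ℝ) + 1 - c1) * (c1 + L - (z.1 + 1))) *
      (((z.2 : ℝ) - c2) * (c2 + L - z.2)) / (L : ℝ) ^ 2 +
      4 * (((z.1 : ℝ) - 1 - c1) * (c1 + L - (z.1 - 1))) *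
      (((z.2 : ℝ) - c2) * (c2 + L - z.2)) / (L : ℝ) ^ 2 +
      4 * (((z.1 : ℝ) - c1) * (c1 + L - z.1)) *
      (((z.2 : ℝ) + 1 - c2) * (c2 + L - (z.2 + 1))) / (L : ℝ) ^ 2 +
      4 * (((z.1 : ℝ) - c1) * (c1 + L - z.1)) *
      (((z.2 : ℝ) - 1 - c2) * (c2 + L - (z.2 - 1))) / (L : ℝ) ^ 2) -
      4 * (((z.1 : ℝ) - c1) * (c1 + L - z.1)) * (((z.2 : ℝ) - c2) * (c2 + L - z.2)) / (L : ℝ) ^ 2
      = 2 * (((L : ℝ) ^ 2 / 4 - ((z.1 : ℝ) - c1) * (c1 + L - z.1)) +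
        ((L : ℝ) ^ 2 / 4 - ((z.2 : ℝ) - c2) * (c2 + L - z.2))) / (L : ℝ) ^ 2 := by
    field_simp
    ring
  rw [key]
  apply div_nonneg _ hL2.le
  linarith

end GridMass

theorem _root_.H941.gridSet_mass_ge (D : Finset (ℤ × ℤ)) (L : ℕ) (hL : 1 ≤ L) (s x : ℤ × ℤ)
    (hx : ∀ z : ℤ × ℤ, |z.1 - x.1| < (L : ℤ) → |z.2 - x.2| < (L : ℤ) → z ∈ D)
    (p q : ℝ) (hp : p = (((x.1 - s.1) % (L : ℤ) : ℤ) : ℝ)) (hq : q = (((x.2 - s.2) % (L : ℤ) : ℤ) : ℝ)) :
    4 * (p * ((L : ℝ) - p)) * (q * ((L : ℝ) - q)) / (L : ℝ) ^ 2 ≤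
      ∑ y ∈ gridSet D L s, green (gridSet D L s) x y := by
  classical
  obtain ⟨hpos, -, -, -, -, -⟩ := green_basic (gridSet D L s)
  have hRHS : 0 ≤ ∑ y ∈ gridSet D L s, green (gridSet D L s) x y :=
    Finset.sum_nonneg fun y _ => hpos x y
  have hLz : (0 : ℤ) < L := by exact_mod_cast hL
  have p0 := Int.emod_nonneg (x.1 - s.1) hLz.ne'
  have p1 := Int.emod_lt_of_pos (x.1 - s.1) hLz
  have q0 := Int.emod_nonneg (x.2 - s.2) hLz.ne'
  have q1 := Int.emod_lt_of_pos (x.2 - s.2) hLz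
  have pd := Int.emod_add_mul_ediv (x.1 - s.1) L
  have qd := Int.emod_add_mul_ediv (x.2 - s.2) L
  generalize hP : (x.1 - s.1) % (L : ℤ) = P at *
  generalize hQ : (x.2 - s.2) % (L : ℤ) = Q at *
  generalize (x.1 - s.1) / (L : ℤ) = k1 at *
  generalize (x.2 - s.2) / (L : ℤ) = k2 at *
  by_cases hP0 : P = 0
  · rw [hp, hP0]
    simpa using hRHS
  by_cases hQ0 : Q = 0
  · rw [hq, hQ0]
    simpa using hRHS
  have hxc : x ∈ GridMass.cell L (x.1 - P) (x.2 - Q) := by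
    rw [GridMass.mem_cell]
    omega
  have hsub : GridMass.cell L (x.1 - P) (x.2 - Q) ⊆ gridSet D L s := by
    intro z hz
    rw [GridMass.mem_cell] at hz
    obtain ⟨⟨h1, h2⟩, h3, h4⟩ := hz
    unfold gridSet
    rw [Finset.mem_filter]
    refine ⟨hx z ?_ ?_, ?_, ?_⟩
    · rw [abs_lt]
      constructor <;> omega
    · rw [abs_lt]
      constructor <;> omega
    · rintro ⟨k, hk⟩
      have h5 : 0 < (L : ℤ) * (k - k1) := by
        have : (L : ℤ) * (k - k1) = z.1 - s.1 - (x.1 - s.1 - P) := by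
          rw [mul_sub, ← hk]; linarith
        rw [this]; omega
      have h6 : (L : ℤ) * (k - k1) < L * 1 := by
        have : (L : ℤ) * (k - k1) = z.1 - s.1 - (x.1 - s.1 - P) := by
          rw [mul_sub, ← hk]; linarith
        rw [this]; omega
      have h7 := (mul_pos_iff_of_pos_left hLz).1 h5
      have h8 := lt_of_mul_lt_mul_left h6 hLz.le
      omega
    · rintro ⟨k, hk⟩
      have h5 : 0 < (L : ℤ) * (k - k2) := by
        have : (L : ℤ) * (k - k2) = z.2 - s.2 - (x.2 - s.2 - Q) := by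
          rw [mul_sub, ← hk]; linarith
        rw [this]; omega
      have h6 : (L : ℤ) * (k - k2) < L * 1 := by
        have : (L : ℤ) * (k - k2) = z.2 - s.2 - (x.2 - s.2 - Q) := by
          rw [mul_sub, ← hk]; linarith
        rw [this]; omega
      have h7 := (mul_pos_iff_of_pos_left hLz).1 h5
      have h8 := lt_of_mul_lt_mul_left h6 hLz.le
      omega
  obtain ⟨-, -, -, -, -, hmax⟩ := green_basic (GridMass.cell L (x.1 - P) (x.2 - Q))
  obtain ⟨-, -, -, hmono, -, -⟩ := green_basic (GridMass.cell L (x.1 - P) (x.2 - Q))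
  have h1 := hmax (fun _ => 1) (GridMass.g L (x.1 - P) (x.2 - Q))
    (fun z hz => by unfold GridMass.g; rw [if_neg hz])
    (fun z hz => GridMass.super hL z hz) x hxc
  have h2 : GridMass.g L (x.1 - P) (x.2 - Q) x =
      4 * (p * ((L : ℝ) - p)) * (q * ((L : ℝ) - q)) / (L : ℝ) ^ 2 := by
    unfold GridMass.g
    rw [if_pos hxc]
    unfold GridMass.fo
    rw [hp, hq]
    push_cast
    ring
  rw [h2] at h1
  refine h1.trans ?_
  simp only [mul_one]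
  refine (Finset.sum_le_sum fun v _ => hmono _ hsub x v).trans ?_
  exact Finset.sum_le_sum_of_subset_of_nonneg hsub fun v _ _ => hpos x v

end H941.A8
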