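import Pool.Agent.H941.Defs2
import Pool.Agent.H941.A7
import Pool.Agent.H941.A8

open MeasureTheory ProbabilityTheory

namespace H941.A9

/-- one complete residue system -/
lemma sum_res_one (M : ℕ) (hM : 1 ≤ M) (c : ℤ) (h : ℤ → ℝ) :
    ∑ a ∈ Finset.range M, h ((c - (a : ℤ)) % (M : ℤ)) = ∑ p ∈ Finset.range M, h (p : ℤ) := by
  have hM0 : (0 : ℤ) < (M : ℤ) := by exact_mod_cast hM
  have key : ∀ i : ℕ, i < M → (((c - (((c - (i : ℤ)) % (M : ℤ)).toNat : ℤ)) % (M : ℤ)).toNat) = i := by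
    intro i hi
    have h0 : 0 ≤ (c - (i : ℤ)) % (M : ℤ) := Int.emod_nonneg _ hM0.ne'
    rw [Int.toNat_of_nonneg h0]
    have h1 : (c - (c - (i : ℤ)) % (M : ℤ)) % (M : ℤ) = (i : ℤ) := by
      have h2 : (c - (c - (i : ℤ)) % (M : ℤ)) ≡ c - (c - (i : ℤ)) [ZMOD (M : ℤ)] :=
        Int.ModEq.sub_left c (Int.mod_modEq _ _)
      have h3 : (c - (c - (i : ℤ)) % (M : ℤ)) ≡ (i : ℤ) [ZMOD (M : ℤ)] := by
        have e : c - (c - (i : ℤ)) = (i : ℤ) := by ring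
        rw [e] at h2
        exact h2
      have h4 : (i : ℤ) % (M : ℤ) = i := Int.emod_eq_of_lt (by positivity) (by exact_mod_cast hi)
      rw [Int.ModEq, h4] at h3
      exact h3
    rw [h1]
    simp
  have rng : ∀ i : ℕ, ((c - (i : ℤ)) % (M : ℤ)).toNat ∈ Finset.range M := by
    intro i
    rw [Finset.mem_range]
    have h0 : 0 ≤ (c - (i : ℤ)) % (M : ℤ) := Int.emod_nonneg _ hM0.ne'
    have h1 : (c - (i : ℤ)) % (M : ℤ) < M := Int.emod_lt_of_pos _ hM0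
    zify
    rw [Int.toNat_of_nonneg h0]
    exact h1
  refine Finset.sum_nbij' (fun i => ((c - (i : ℤ)) % (M : ℤ)).toNat)
    (fun i => ((c - (i : ℤ)) % (M : ℤ)).toNat) ?_ ?_ ?_ ?_ ?_
  · intro i _; exact rng i
  · intro i _; exact rng i
  · intro i hi; exact key i (Finset.mem_range.1 hi)
  · intro i hi; exact key i (Finset.mem_range.1 hi)
  · intro i _
    have h0 : 0 ≤ (c - (i : ℤ)) % (M : ℤ) := Int.emod_nonneg _ hM0.ne'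
    rw [Int.toNat_of_nonneg h0]

/-- several complete residue systems -/
lemma sum_res (M k : ℕ) (hM : 1 ≤ M) (c : ℤ) (h : ℤ → ℝ) :
    ∑ a ∈ Finset.range (M * k), h ((c - (a : ℤ)) % (M : ℤ)) =
      k * ∑ p ∈ Finset.range M, h (p : ℤ) := by
  induction k with
  | zero => simp
  | succ k ih =>
    rw [Nat.mul_succ, Finset.sum_range_add, ih]
    have h1 : ∑ i ∈ Finset.range M, h ((c - ((M * k + i : ℕ) : ℤ)) % (M : ℤ)) =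
        ∑ p ∈ Finset.range M, h (p : ℤ) := by
      rw [← sum_res_one M hM c h]
      apply Finset.sum_congr rfl
      intro i _
      congr 1
      have : c - ((M * k + i : ℕ) : ℤ) = (c - (i : ℤ)) + (M : ℤ) * (-(k : ℤ)) := by
        push_cast; ring
      rw [this, Int.add_mul_emod_self_left]
    rw [h1]
    push_cast
    ring

lemma sum_par (N : ℝ) (m : ℕ) : ∑ i ∈ Finset.range m, ((i : ℝ) * (N - i)) =
    N * (m * (m - 1)) / 2 - (m - 1) * m * (2 * m - 1) / 6 := by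
  induction m with
  | zero => simp
  | succ m ih =>
    rw [Finset.sum_range_succ, ih]
    push_cast
    ring

lemma sum_par' (M k : ℕ) (hM : 1 ≤ M) (c : ℤ) :
    ∑ a ∈ Finset.range (M * k), ((((c - (a : ℤ)) % (M : ℤ) : ℤ) : ℝ) *
      ((M : ℝ) - (((c - (a : ℤ)) % (M : ℤ) : ℤ) : ℝ))) = k * (M * ((M : ℝ) ^ 2 - 1) / 6) := by
  have h1 := sum_res M k hM c (fun z => (z : ℝ) * ((M : ℝ) - (z : ℝ)))
  rw [h1]
  congr 1
  have h2 := sum_par (M : ℝ) M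
  have h3 : ∑ p ∈ Finset.range M, (((p : ℤ) : ℝ) * ((M : ℝ) - ((p : ℤ) : ℝ))) =
      ∑ i ∈ Finset.range M, ((i : ℝ) * ((M : ℝ) - i)) := by
    apply Finset.sum_congr rfl
    intro i _
    push_cast
    rfl
  rw [h3, h2]
  ring

theorem _root_.H941.gridSet_avg (D : Finset (ℤ × ℤ)) (L Λ : ℕ) (hL : 1 ≤ L) (hΛ : 1 ≤ Λ) (hdvd : 2 * L ∣ Λ) (x : ℤ × ℤ)
    (hx : ∀ z : ℤ × ℤ, |z.1 - x.1| < 2 * (L : ℤ) → |z.2 - x.2| < 2 * (L : ℤ) → z ∈ D) :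
    (L : ℝ) ^ 2 / 9 * (Λ : ℝ) ^ 2 ≤
      ∑ a ∈ Finset.range Λ, ∑ b ∈ Finset.range Λ,
        (∑ y ∈ gridSet D (2 * L) ((a : ℤ), (b : ℤ)), green (gridSet D (2 * L) ((a : ℤ), (b : ℤ))) x y
          - ∑ y ∈ gridSet D L ((a : ℤ), (b : ℤ)), green (gridSet D L ((a : ℤ), (b : ℤ))) x y) := by
  obtain ⟨k, hk⟩ := hdvd
  have hLR : (1 : ℝ) ≤ L := by exact_mod_cast hL
  have hL0 : (0 : ℝ) < L := by linarith
  set P : ℕ → ℝ := fun a => (((x.1 - (a : ℤ)) % ((2 * L : ℕ) : ℤ) : ℤ) : ℝ) *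
      (((2 * L : ℕ) : ℝ) - (((x.1 - (a : ℤ)) % ((2 * L : ℕ) : ℤ) : ℤ) : ℝ)) with hP
  set Q : ℕ → ℝ := fun a => (((x.2 - (a : ℤ)) % ((2 * L : ℕ) : ℤ) : ℤ) : ℝ) *
      (((2 * L : ℕ) : ℝ) - (((x.2 - (a : ℤ)) % ((2 * L : ℕ) : ℤ) : ℤ) : ℝ)) with hQ
  set R : ℕ → ℝ := fun a => (((x.1 - (a : ℤ)) % (L : ℤ) : ℤ) : ℝ) *
      ((L : ℝ) - (((x.1 - (a : ℤ)) % (L : ℤ) : ℤ) : ℝ)) with hR
  have hpt : ∀ a ∈ Finset.range Λ, ∀ b ∈ Finset.range Λ,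
      4 / ((2 * L : ℕ) : ℝ) ^ 2 * (P a * Q b) - 2 * R a ≤
        (∑ y ∈ gridSet D (2 * L) ((a : ℤ), (b : ℤ)), green (gridSet D (2 * L) ((a : ℤ), (b : ℤ))) x y
          - ∑ y ∈ gridSet D L ((a : ℤ), (b : ℤ)), green (gridSet D L ((a : ℤ), (b : ℤ))) x y) := by
    intro a _ b _
    have h1 := gridSet_mass_ge D (2 * L) (by omega) ((a : ℤ), (b : ℤ)) x
      (by
        intro z h1 h2
        exact hx z (by push_cast at h1; exact h1) (by push_cast at h2; exact h2)) _ _ rfl rfl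
    have h2 := gridSet_mass_le D L hL ((a : ℤ), (b : ℤ)) x
    have e1 : 4 * ((((x.1 - ((a : ℤ), (b : ℤ)).1) % ((2 * L : ℕ) : ℤ) : ℤ) : ℝ) *
        (((2 * L : ℕ) : ℝ) - (((x.1 - ((a : ℤ), (b : ℤ)).1) % ((2 * L : ℕ) : ℤ) : ℤ) : ℝ))) *
        ((((x.2 - ((a : ℤ), (b : ℤ)).2) % ((2 * L : ℕ) : ℤ) : ℤ) : ℝ) *
        (((2 * L : ℕ) : ℝ) - (((x.2 - ((a : ℤ), (b : ℤ)).2) % ((2 * L : ℕ) : ℤ) : ℤ) : ℝ))) /
        ((2 * L : ℕ) : ℝ) ^ 2 = 4 / ((2 * L : ℕ) : ℝ) ^ 2 * (P a * Q b) := by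
      simp only [hP, hQ]
      ring
    have e2 : 2 * (((x.1 - ((a : ℤ), (b : ℤ)).1) % (L : ℤ) : ℤ) : ℝ) *
        ((L : ℝ) - (((x.1 - ((a : ℤ), (b : ℤ)).1) % (L : ℤ) : ℤ) : ℝ)) = 2 * R a := by
      simp only [hR]
      ring
    rw [e1] at h1
    rw [e2] at h2
    linarith
  refine le_trans ?_ (Finset.sum_le_sum fun a ha => Finset.sum_le_sum fun b hb => hpt a ha b hb)
  have hsP : ∑ a ∈ Finset.range Λ, P a = k * (((2 * L : ℕ) : ℝ) * (((2 * L : ℕ) : ℝ) ^ 2 - 1) / 6) := by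
    rw [hk]
    exact sum_par' (2 * L) k (by omega) x.1
  have hsQ : ∑ a ∈ Finset.range Λ, Q a = k * (((2 * L : ℕ) : ℝ) * (((2 * L : ℕ) : ℝ) ^ 2 - 1) / 6) := by
    rw [hk]
    exact sum_par' (2 * L) k (by omega) x.2
  have hsR : ∑ a ∈ Finset.range Λ, R a = ((2 * k : ℕ) : ℝ) * ((L : ℝ) * ((L : ℝ) ^ 2 - 1) / 6) := by
    have : Λ = L * (2 * k) := by rw [hk]; ring
    rw [this]
    exact sum_par' L (2 * k) hL x.1
  have hsum : ∑ a ∈ Finset.range Λ, ∑ b ∈ Finset.range Λ,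
      (4 / ((2 * L : ℕ) : ℝ) ^ 2 * (P a * Q b) - 2 * R a) =
      4 / ((2 * L : ℕ) : ℝ) ^ 2 * ((∑ a ∈ Finset.range Λ, P a) * (∑ b ∈ Finset.range Λ, Q b)) -
        2 * Λ * ∑ a ∈ Finset.range Λ, R a := by
    have h1 : ∀ a ∈ Finset.range Λ, ∑ b ∈ Finset.range Λ,
        (4 / ((2 * L : ℕ) : ℝ) ^ 2 * (P a * Q b) - 2 * R a) =
        4 / ((2 * L : ℕ) : ℝ) ^ 2 * (P a * ∑ b ∈ Finset.range Λ, Q b) - 2 * Λ * R a := by
      intro a _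
      rw [Finset.sum_sub_distrib, Finset.sum_const, Finset.card_range, nsmul_eq_mul,
        ← Finset.mul_sum, ← Finset.mul_sum]
      ring
    rw [Finset.sum_congr rfl h1, Finset.sum_sub_distrib, ← Finset.mul_sum, ← Finset.sum_mul,
      ← Finset.mul_sum]
  rw [hsum, hsP, hsQ, hsR]
  have hΛR : (Λ : ℝ) = 2 * L * k := by rw [hk]; push_cast; ring
  rw [hΛR]
  push_cast
  have hk0 : (0 : ℝ) ≤ (k : ℝ) ^ 2 := sq_nonneg _
  have e : 4 / (2 * (L : ℝ)) ^ 2 * ((k : ℝ) * (2 * (L : ℝ) * ((2 * (L : ℝ)) ^ 2 - 1) / 6) *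
      ((k : ℝ) * (2 * (L : ℝ) * ((2 * (L : ℝ)) ^ 2 - 1) / 6))) -
      2 * (2 * (L : ℝ) * k) * (2 * (k : ℝ) * ((L : ℝ) * ((L : ℝ) ^ 2 - 1) / 6)) =
      (k : ℝ) ^ 2 * ((2 * (L : ℝ) ^ 2 + 1) ^ 2 / 9) := by
    field_simp
    ring
  rw [e]
  have h3 : (L : ℝ) ^ 2 / 9 * (2 * (L : ℝ) * k) ^ 2 = (k : ℝ) ^ 2 * ((2 * (L : ℝ) ^ 2) ^ 2 / 9) := by
    ring
  rw [h3]
  apply mul_le_mul_of_nonneg_left _ hk0
  have h4 : (0 : ℝ) ≤ (L : ℝ) ^ 2 := sq_nonneg _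
  nlinarith

end H941.A9
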