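import Pool.Agent.H941.Defs2
import Pool.Agent.H941.A3
import Pool.Agent.H941.A4

open MeasureTheory ProbabilityTheory

namespace H941.S2

/-- positive semidefinite kernels -/
def GamPK (K : ℤ × ℤ → ℤ × ℤ → ℝ) : Prop :=
  (∀ x y, K x y = K y x) ∧ ∀ (S : Finset (ℤ × ℤ)) (f : ℤ × ℤ → ℝ),
    0 ≤ ∑ x ∈ S, ∑ y ∈ S, f x * K x y * f y

theorem GamPK.add {K K' : ℤ × ℤ → ℤ × ℤ → ℝ} (h : GamPK K) (h' : GamPK K') :
    GamPK (fun x y => K x y + K' x y) := by
  refine ⟨fun x y => by show K x y + K' x y = K y x + K' y x; rw [h.1 x y, h'.1 x y], fun S f => ?_⟩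
  have e : ∑ x ∈ S, ∑ y ∈ S, f x * (K x y + K' x y) * f y =
      (∑ x ∈ S, ∑ y ∈ S, f x * K x y * f y) + ∑ x ∈ S, ∑ y ∈ S, f x * K' x y * f y := by
    rw [← Finset.sum_add_distrib]
    refine Finset.sum_congr rfl fun x _ => ?_
    rw [← Finset.sum_add_distrib]
    refine Finset.sum_congr rfl fun y _ => ?_
    ring
  rw [e]
  exact add_nonneg (h.2 S f) (h'.2 S f)

theorem GamPK.smul {K : ℤ × ℤ → ℤ × ℤ → ℝ} (h : GamPK K) {c : ℝ} (hc : 0 ≤ c) :
    GamPK (fun x y => c * K x y) := by
  refine ⟨fun x y => by show c * K x y = c * K y x; rw [h.1 x y], fun S f => ?_⟩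
  have e : ∑ x ∈ S, ∑ y ∈ S, f x * (c * K x y) * f y =
      c * ∑ x ∈ S, ∑ y ∈ S, f x * K x y * f y := by
    rw [Finset.mul_sum]
    refine Finset.sum_congr rfl fun x _ => ?_
    rw [Finset.mul_sum]
    refine Finset.sum_congr rfl fun y _ => ?_
    ring
  rw [e]
  exact mul_nonneg hc (h.2 S f)

theorem GamPK.zero : GamPK (fun _ _ => 0) :=
  ⟨fun _ _ => rfl, fun S f => by simp⟩

theorem GamPK.sum {ι : Type} (s : Finset ι) {K : ι → ℤ × ℤ → ℤ × ℤ → ℝ}
    (h : ∀ i ∈ s, GamPK (K i)) : GamPK (fun x y => ∑ i ∈ s, K i x y) := by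
  classical
  induction s using Finset.induction_on with
  | empty => simpa using GamPK.zero
  | insert a s ha ih =>
    have h1 := (h a (Finset.mem_insert_self _ _)).add
      (ih fun i hi => h i (Finset.mem_insert_of_mem hi))
    have e : (fun x y => ∑ i ∈ insert a s, K i x y) =
        fun x y => K a x y + ∑ i ∈ s, K i x y := by
      funext x y
      rw [Finset.sum_insert ha]
    rw [e]
    exact h1

theorem GamPK.green_sub {D D' : Finset (ℤ × ℤ)} (h : D ⊆ D') :
    GamPK (fun x y => green D' x y - green D x y) := by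
  classical
  obtain ⟨-, g2, g3, -, -, -⟩ := green_basic D
  obtain ⟨-, g2', g3', -, -, -⟩ := green_basic D'
  refine ⟨fun x y => by
    show H941.green D' x y - H941.green D x y = H941.green D' y x - H941.green D y x
    rw [g3 x y, g3' x y], fun S f => ?_⟩
  have hz : ∀ x y, x ∉ D' ∨ y ∉ D' → green D' x y - green D x y = 0 := by
    intro x y hxy
    rw [g2' x y hxy, g2 x y (hxy.imp (fun h1 h2 => h1 (h h2)) (fun h1 h2 => h1 (h h2))), sub_self]
  have key : ∀ F : ℤ × ℤ → ℤ × ℤ → ℝ, (∀ x y, x ∉ D' ∨ y ∉ D' → F x y = 0) →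
      (∀ x y, x ∉ S ∨ y ∉ S → F x y = 0) →
      ∑ x ∈ S, ∑ y ∈ S, F x y = ∑ x ∈ D', ∑ y ∈ D', F x y := by
    intro F h1 h2
    have e1 : ∑ x ∈ S, ∑ y ∈ S, F x y = ∑ x ∈ S ∪ D', ∑ y ∈ S ∪ D', F x y := by
      rw [← Finset.sum_subset (Finset.subset_union_left : S ⊆ S ∪ D')]
      · refine Finset.sum_congr rfl fun x _ => ?_
        exact Finset.sum_subset Finset.subset_union_left fun y _ hy => h2 x y (Or.inr hy)
      · intro x _ hx
        exact Finset.sum_eq_zero fun y _ => h2 x y (Or.inl hx)
    have e2 : ∑ x ∈ D', ∑ y ∈ D', F x y = ∑ x ∈ S ∪ D', ∑ y ∈ S ∪ D', F x y := by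
      rw [← Finset.sum_subset (Finset.subset_union_right : D' ⊆ S ∪ D')]
      · refine Finset.sum_congr rfl fun x _ => ?_
        exact Finset.sum_subset Finset.subset_union_right fun y _ hy => h1 x y (Or.inr hy)
      · intro x _ hx
        exact Finset.sum_eq_zero fun y _ => h1 x y (Or.inl hx)
    rw [e1, e2]
  have h1 := green_psd D D' h (fun x => if x ∈ S then f x else 0)
  rw [← key (fun x y => (if x ∈ S then f x else 0) * (green D' x y - green D x y) *
    (if y ∈ S then f y else 0))] at h1
  · refine le_of_le_of_eq h1 ?_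
    refine Finset.sum_congr rfl fun x hx => Finset.sum_congr rfl fun y hy => ?_
    rw [if_pos hx, if_pos hy]
  · intro x y hxy
    rw [hz x y hxy, mul_zero, zero_mul]
  · intro x y hxy
    rcases hxy with h2 | h2
    · rw [if_neg h2, zero_mul, zero_mul]
    · rw [if_neg h2, mul_zero]

theorem GamPK.green (D : Finset (ℤ × ℤ)) : GamPK (fun x y => green D x y) := by
  have h := GamPK.green_sub (Finset.empty_subset D)
  obtain ⟨-, g2, -, -, -, -⟩ := green_basic ∅
  have e : (fun x y => H941.green D x y - H941.green ∅ x y) = fun x y => H941.green D x y := by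
    funext x y
    rw [g2 x y (Or.inl (Finset.notMem_empty _)), sub_zero]
  rw [e] at h
  exact h

theorem GamPK.matrix {K : ℤ × ℤ → ℤ × ℤ → ℝ} (h : GamPK K) (S : Finset (ℤ × ℤ)) :
    (Matrix.of fun x y : (S : Finset (ℤ × ℤ)) => K x y).PosSemidef := by
  classical
  apply Matrix.PosSemidef.of_dotProduct_mulVec_nonneg
  · apply Matrix.IsHermitian.ext
    intro i j
    simp [h.1 i j]
  · intro x
    have h1 := h.2 S (fun a => if ha : a ∈ S then x ⟨a, ha⟩ else 0)
    refine le_of_le_of_eq h1 ?_
    rw [← Finset.sum_coe_sort S]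
    rw [dotProduct]
    refine Finset.sum_congr rfl fun i _ => ?_
    rw [← Finset.sum_coe_sort S, Matrix.mulVec, dotProduct, Finset.mul_sum]
    refine Finset.sum_congr rfl fun j _ => ?_
    simp [i.2, j.2, mul_assoc]

/-- the average over the shifts -/
noncomputable def Gamav (Λ : ℕ) (G : ℤ × ℤ → ℤ × ℤ → ℤ × ℤ → ℝ) (x y : ℤ × ℤ) : ℝ :=
  (1 / 4) * (1 / (Λ : ℝ) ^ 2) * ∑ a ∈ Finset.range Λ, ∑ b ∈ Finset.range Λ,
    G ((a : ℤ), (b : ℤ)) x y

theorem GamPK.av {Λ : ℕ} {G : ℤ × ℤ → ℤ × ℤ → ℤ × ℤ → ℝ} (h : ∀ s, GamPK (G s)) :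
    GamPK (Gamav Λ G) := by
  have h1 : GamPK (fun x y => ∑ a ∈ Finset.range Λ, ∑ b ∈ Finset.range Λ,
      G ((a : ℤ), (b : ℤ)) x y) := by
    refine GamPK.sum _ fun a _ => ?_
    exact GamPK.sum (ι := ℕ) (Finset.range Λ) (K := fun (b : ℕ) x y => G ((a : ℤ), (b : ℤ)) x y)
      fun b _ => h _
  exact h1.smul (by positivity)

theorem Gamav_sub (Λ : ℕ) (G G' : ℤ × ℤ → ℤ × ℤ → ℤ × ℤ → ℝ) (x y : ℤ × ℤ) :
    Gamav Λ (fun s x y => G s x y - G' s x y) x y = Gamav Λ G x y - Gamav Λ G' x y := by
  unfold Gamav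
  rw [← mul_sub]
  congr 1
  rw [← Finset.sum_sub_distrib]
  refine Finset.sum_congr rfl fun a _ => ?_
  rw [← Finset.sum_sub_distrib]

theorem Gamav_const {Λ : ℕ} (hΛ : 1 ≤ Λ) (K : ℤ × ℤ → ℤ × ℤ → ℝ) (x y : ℤ × ℤ) :
    Gamav Λ (fun _ => K) x y = (1 / 4) * K x y := by
  unfold Gamav
  have : (Λ : ℝ) ≠ 0 := by
    have : (0 : ℝ) < Λ := by exact_mod_cast hΛ
    exact this.ne'
  simp only [Finset.sum_const, Finset.card_range, nsmul_eq_mul]
  field_simp

theorem Gam_grid_subset (D : Finset (ℤ × ℤ)) {L L' : ℕ} (h : L ∣ L') (s : ℤ × ℤ) :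
    gridSet D L s ⊆ gridSet D L' s := by
  classical
  intro z hz
  unfold gridSet at hz ⊢
  rw [Finset.mem_filter] at hz ⊢
  have h' : (L : ℤ) ∣ (L' : ℤ) := Int.natCast_dvd_natCast.2 h
  exact ⟨hz.1, fun h1 => hz.2.1 (h'.trans h1), fun h1 => hz.2.2 (h'.trans h1)⟩

theorem Gam_eq (D : Finset (ℤ × ℤ)) (Λ L : ℕ) (x y : ℤ × ℤ) : Gam D Λ L x y =
    Gamav Λ (fun s => green (gridSet D (2 * L) s)) x y -
      Gamav Λ (fun s => green (gridSet D L s)) x y := by
  rw [← Gamav_sub]
  rfl

theorem _root_.H941.Gam_psd (D S : Finset (ℤ × ℤ)) (Λ n : ℕ) (hΛ : 1 ≤ Λ) (L : ℕ → ℕ)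
    (hdvd : ∀ i, i + 1 < n → 2 * L (i + 1) ∣ L i) :
    (∀ i, (Matrix.of fun x y : (S : Finset (ℤ × ℤ)) => Gam D Λ (L i) x y).PosSemidef) ∧
    (Matrix.of fun x y : (S : Finset (ℤ × ℤ)) =>
      (1 / 4) * green D x y - ∑ i ∈ Finset.range n, Gam D Λ (L i) x y).PosSemidef := by
  classical
  constructor
  · intro i
    have h1 : GamPK (Gam D Λ (L i)) := by
      have h2 : GamPK (Gamav Λ (fun s x y => green (gridSet D (2 * L i) s) x y -
          green (gridSet D (L i) s) x y)) :=
        GamPK.av fun s => GamPK.green_sub (Gam_grid_subset D (Dvd.intro_left 2 rfl) s)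
      exact h2
    exact h1.matrix S
  · -- the remainder
    have key : ∀ n, (∀ i, i + 1 < n → 2 * L (i + 1) ∣ L i) →
        GamPK (fun x y => (1 / 4) * green D x y - ∑ i ∈ Finset.range n, Gam D Λ (L i) x y) ∧
        ∀ m, n = m + 1 → GamPK (fun x y => (1 / 4) * green D x y -
          ∑ i ∈ Finset.range n, Gam D Λ (L i) x y -
            Gamav Λ (fun s => green (gridSet D (L m) s)) x y) := by
      intro n
      induction n with
      | zero =>
        intro _
        refine ⟨?_, fun m hm => by omega⟩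
        simp only [Finset.range_zero, Finset.sum_empty, sub_zero]
        exact (GamPK.green D).smul (by norm_num)
      | succ n ih =>
        intro hd
        have hb : GamPK (Gamav Λ (fun s => green (gridSet D (L n) s))) :=
          GamPK.av fun s => GamPK.green _
        have hmain : GamPK (fun x y => (1 / 4) * green D x y -
            ∑ i ∈ Finset.range (n + 1), Gam D Λ (L i) x y -
              Gamav Λ (fun s => green (gridSet D (L n) s)) x y) := by
          cases n with
          | zero =>
            have h1 : GamPK (Gamav Λ (fun s x y => green D x y -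
                green (gridSet D (2 * L 0) s) x y)) :=
              GamPK.av fun s => GamPK.green_sub (Finset.filter_subset _ _)
            have e : (fun x y => (1 / 4) * green D x y -
                ∑ i ∈ Finset.range (0 + 1), Gam D Λ (L i) x y -
                  Gamav Λ (fun s => green (gridSet D (L 0) s)) x y) =
                Gamav Λ (fun s x y => green D x y - green (gridSet D (2 * L 0) s) x y) := by
              funext x y
              rw [Gamav_sub Λ (fun _ => green D) (fun s => green (gridSet D (2 * L 0) s)),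
                Gamav_const hΛ]
              simp only [zero_add, Finset.range_one, Finset.sum_singleton, Gam_eq]
              ring
            rw [e]
            exact h1
          | succ m =>
            have h1 := (ih fun i hi => hd i (by omega)).2 m rfl
            have h2 : GamPK (Gamav Λ (fun s x y => green (gridSet D (L m) s) x y -
                green (gridSet D (2 * L (m + 1)) s) x y)) :=
              GamPK.av fun s => GamPK.green_sub (Gam_grid_subset D (hd m (by omega)) s)
            have h3 := h1.add h2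
            have e : (fun x y => (1 / 4) * green D x y -
                ∑ i ∈ Finset.range (m + 1 + 1), Gam D Λ (L i) x y -
                  Gamav Λ (fun s => green (gridSet D (L (m + 1)) s)) x y) =
                fun x y => (1 / 4) * green D x y -
                  ∑ i ∈ Finset.range (m + 1), Gam D Λ (L i) x y -
                    Gamav Λ (fun s => green (gridSet D (L m) s)) x y +
                  Gamav Λ (fun s x y => green (gridSet D (L m) s) x y -
                    green (gridSet D (2 * L (m + 1)) s) x y) x y := by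
              funext x y
              rw [Gamav_sub Λ (fun s => green (gridSet D (L m) s))
                (fun s => green (gridSet D (2 * L (m + 1)) s)),
                Finset.sum_range_succ _ (m + 1), Gam_eq D Λ (L (m + 1))]
              ring
            rw [e]
            exact h3
        refine ⟨?_, fun m hm => ?_⟩
        · have h1 := hmain.add hb
          have e : (fun x y => (1 / 4) * green D x y -
              ∑ i ∈ Finset.range (n + 1), Gam D Λ (L i) x y -
                Gamav Λ (fun s => green (gridSet D (L n) s)) x y +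
              Gamav Λ (fun s => green (gridSet D (L n) s)) x y) =
              fun x y => (1 / 4) * green D x y -
                ∑ i ∈ Finset.range (n + 1), Gam D Λ (L i) x y := by
            funext x y
            ring
          rw [e] at h1
          exact h1
        · have : m = n := by omega
          subst this
          exact hmain
    exact (key n hdvd).1.matrix S

theorem _root_.H941.Gam_posSemidef (D S : Finset (ℤ × ℤ)) (Λ L : ℕ) (hΛ : 1 ≤ Λ) :
    (Matrix.of fun x y : (S : Finset (ℤ × ℤ)) => Gam D Λ L x y).PosSemidef :=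
  (Gam_psd D S Λ 0 hΛ (fun _ => L) (by intro i hi; omega)).1 0

end H941.S2
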