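import Pool.Agent.H941.Defs2

open MeasureTheory ProbabilityTheory

namespace H941.K2

/-- the points of subdivision -/
noncomputable def fvP (q : ℕ) (s : ℂ × ℂ) (k : ℕ) : ℂ := s.1 + ((k : ℂ) / q) * s.2

theorem fv_eq (q : ℕ) (s : ℂ × ℂ) : finalVerts q s = (List.range q).flatMap (fun k =>
    [(⌊(fvP q s (k + 1)).re⌋, ⌊(fvP q s k).im⌋), rd (fvP q s (k + 1))]) := by
  have hcast : (do
      let a ← List.range q
      pure (a : ℂ)) = (List.range q).map (fun a : ℕ => (a : ℂ)) := by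
    show (List.range q).flatMap (fun a : ℕ => [(a : ℂ)]) = _
    rw [List.map_eq_flatMap]
  unfold finalVerts
  rw [hcast, List.flatMap_map]
  unfold fvP
  push_cast
  rfl

theorem fvP_step (q : ℕ) (hq : 1 ≤ q) (s : ℂ × ℂ) (hs : ‖s.2‖ ≤ q) (k : ℕ) :
    ‖fvP q s (k + 1) - fvP q s k‖ ≤ 1 := by
  have hq0 : (0 : ℝ) < q := by exact_mod_cast hq
  have hqc : (q : ℂ) ≠ 0 := by exact_mod_cast hq0.ne'
  have h : fvP q s (k + 1) - fvP q s k = (1 / (q : ℂ)) * s.2 := by
    unfold fvP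
    push_cast
    field_simp
    ring
  rw [h, norm_mul, norm_div, norm_one, Complex.norm_natCast]
  rw [one_div, inv_mul_le_iff₀ hq0]
  linarith

theorem floor_near {a b : ℝ} (h : |a - b| ≤ 1) : |⌊a⌋ - ⌊b⌋| ≤ 1 := by
  have h1 := abs_le.1 h
  rw [abs_le]
  constructor
  · have h2 : (⌊b⌋ : ℤ) ≤ ⌊a⌋ + 1 := by
      have : b ≤ a + 1 := by linarith [h1.1]
      calc ⌊b⌋ ≤ ⌊a + 1⌋ := Int.floor_le_floor this
        _ = ⌊a⌋ + 1 := Int.floor_add_one a
    linarith
  · have h2 : (⌊a⌋ : ℤ) ≤ ⌊b⌋ + 1 := by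
      have : a ≤ b + 1 := by linarith [h1.2]
      calc ⌊a⌋ ≤ ⌊b + 1⌋ := Int.floor_le_floor this
        _ = ⌊b⌋ + 1 := Int.floor_add_one b
    linarith

theorem walk_one (u v : ℤ × ℤ) (h : |u.1 - v.1| + |u.2 - v.2| ≤ 1) :
    ∃ p : grid.Walk u v, p.support.tail.Sublist [v] := by
  by_cases huv : u = v
  · subst huv
    exact ⟨SimpleGraph.Walk.nil, by simp⟩
  · have hadj : grid.Adj u v := by
      show |u.1 - v.1| + |u.2 - v.2| = 1
      have h0 : 0 ≤ |u.1 - v.1| := abs_nonneg _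
      have h1 : 0 ≤ |u.2 - v.2| := abs_nonneg _
      rcases (by omega : |u.1 - v.1| + |u.2 - v.2| = 1 ∨ |u.1 - v.1| + |u.2 - v.2| = 0) with h2 | h2
      · exact h2
      · exfalso
        apply huv
        have h3 : |u.1 - v.1| = 0 := by omega
        have h4 : |u.2 - v.2| = 0 := by omega
        rw [abs_eq_zero] at h3 h4
        exact Prod.ext (by omega) (by omega)
    exact ⟨SimpleGraph.Walk.cons hadj SimpleGraph.Walk.nil, by simp⟩

theorem walk_step (q : ℕ) (hq : 1 ≤ q) (s : ℂ × ℂ) (hs : ‖s.2‖ ≤ q) (k : ℕ) :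
    ∃ p : grid.Walk (rd (fvP q s k)) (rd (fvP q s (k + 1))), p.support.tail.Sublist
      [(⌊(fvP q s (k + 1)).re⌋, ⌊(fvP q s k).im⌋), rd (fvP q s (k + 1))] := by
  have hst := fvP_step q hq s hs k
  have hre : |(fvP q s (k + 1)).re - (fvP q s k).re| ≤ 1 := by
    rw [← Complex.sub_re]
    exact (Complex.abs_re_le_norm _).trans hst
  have him : |(fvP q s (k + 1)).im - (fvP q s k).im| ≤ 1 := by
    rw [← Complex.sub_im]
    exact (Complex.abs_im_le_norm _).trans hst
  obtain ⟨p1, hp1⟩ := walk_one (rd (fvP q s k)) (⌊(fvP q s (k + 1)).re⌋, ⌊(fvP q s k).im⌋) (by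
    have := floor_near hre
    rw [abs_sub_comm] at this
    simpa [rd] using this)
  obtain ⟨p2, hp2⟩ := walk_one (⌊(fvP q s (k + 1)).re⌋, ⌊(fvP q s k).im⌋) (rd (fvP q s (k + 1))) (by
    have := floor_near him
    rw [abs_sub_comm] at this
    simpa [rd] using this)
  refine ⟨p1.append p2, ?_⟩
  rw [SimpleGraph.Walk.tail_support_append]
  exact hp1.append hp2

theorem walk_all (q : ℕ) (hq : 1 ≤ q) (s : ℂ × ℂ) (hs : ‖s.2‖ ≤ q) (n : ℕ) :
    ∃ p : grid.Walk (rd (fvP q s 0)) (rd (fvP q s n)), p.support.tail.Sublist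
      ((List.range n).flatMap (fun k =>
        [(⌊(fvP q s (k + 1)).re⌋, ⌊(fvP q s k).im⌋), rd (fvP q s (k + 1))])) := by
  induction n with
  | zero => exact ⟨SimpleGraph.Walk.nil, by simp⟩
  | succ n ih =>
    obtain ⟨p, hp⟩ := ih
    obtain ⟨p', hp'⟩ := walk_step q hq s hs n
    refine ⟨p.append p', ?_⟩
    rw [SimpleGraph.Walk.tail_support_append, List.range_succ, List.flatMap_append]
    refine hp.append ?_
    simpa using hp'

theorem _root_.H941.finalVerts_facts (q : ℕ) (hq : 1 ≤ q) (s : ℂ × ℂ) (hs : ‖s.2‖ ≤ q) :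
    (∃ p : grid.Walk (rd s.1) (rd (s.1 + s.2)), p.support.tail.Sublist (finalVerts q s)) ∧
    (∀ v ∈ finalVerts q s, ∃ τ : ℝ, 0 ≤ τ ∧ τ ≤ 1 ∧ ‖toC v - (s.1 + (τ : ℂ) * s.2)‖ ≤ 3) ∧
    (finalVerts q s).length = 2 * q := by
  have hq0 : (0 : ℝ) < q := by exact_mod_cast hq
  have hqc : (q : ℂ) ≠ 0 := by exact_mod_cast hq0.ne'
  have h0 : fvP q s 0 = s.1 := by simp [fvP]
  have h1 : fvP q s q = s.1 + s.2 := by simp [fvP, hqc]
  refine ⟨?_, ?_, ?_⟩
  · obtain ⟨p, hp⟩ := walk_all q hq s hs q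
    rw [← fv_eq] at hp
    refine ⟨p.copy (by rw [h0]) (by rw [h1]), ?_⟩
    simpa using hp
  · intro v hv
    rw [fv_eq, List.mem_flatMap] at hv
    obtain ⟨k, hk, hv⟩ := hv
    have hkq : k < q := List.mem_range.1 hk
    have hkR : ((k : ℝ) + 1) ≤ q := by exact_mod_cast hkq
    refine ⟨((k : ℝ) + 1) / q, by positivity, (div_le_one hq0).2 hkR, ?_⟩
    have hP : s.1 + ((((k : ℝ) + 1) / q : ℝ) : ℂ) * s.2 = fvP q s (k + 1) := by
      unfold fvP
      push_cast
      rfl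
    rw [hP]
    set A := fvP q s (k + 1) with hA
    have hst := fvP_step q hq s hs k
    have him : |A.im - (fvP q s k).im| ≤ 1 := by
      rw [← Complex.sub_im]
      exact (Complex.abs_im_le_norm _).trans hst
    have hfr : |(⌊A.re⌋ : ℝ) - A.re| ≤ 1 := by
      rw [abs_le]
      constructor
      · linarith [Int.lt_floor_add_one A.re]
      · linarith [Int.floor_le A.re]
    have hfi : |(⌊A.im⌋ : ℝ) - A.im| ≤ 1 := by
      rw [abs_le]
      constructor
      · linarith [Int.lt_floor_add_one A.im]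
      · linarith [Int.floor_le A.im]
    have hfk : |(⌊(fvP q s k).im⌋ : ℝ) - A.im| ≤ 2 := by
      have h5 := abs_le.1 him
      rw [abs_le]
      constructor
      · linarith [Int.lt_floor_add_one (fvP q s k).im]
      · linarith [Int.floor_le (fvP q s k).im]
    rcases List.mem_cons.1 hv with rfl | hv
    · refine (Complex.norm_le_abs_re_add_abs_im _).trans ?_
      simp only [toC, Complex.sub_re, Complex.sub_im]
      linarith
    · rw [List.mem_singleton] at hv
      rw [hv]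
      refine (Complex.norm_le_abs_re_add_abs_im _).trans ?_
      simp only [toC, rd, Complex.sub_re, Complex.sub_im]
      linarith
  · rw [fv_eq, List.length_flatMap]
    simp [mul_comm]

theorem _root_.H941.finalVerts_length (q : ℕ) (s : ℂ × ℂ) : (finalVerts q s).length = 2 * q := by
  rw [fv_eq]
  simp [List.length_flatMap, mul_comm]

end H941.K2
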