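import Pool.Agent.H941.Defs2
import Pool.Agent.H941.K1
import Pool.Agent.H941.K2

open MeasureTheory ProbabilityTheory

namespace H941.K4

theorem _root_.H941.leaves_near (δ : ℕ → ℝ) (hδ : ∀ j, 0 ≤ δ j) (hδ' : ∀ j, δ j ≤ 1 / 8) (hanti : Antitone δ)
    (q : ℕ) (hq : 1 ≤ q) (σ : ℕ → ℂ × ℂ → Bool) (m j : ℕ) (s : ℂ × ℂ)
    (hs : ‖s.2‖ * ∏ i ∈ Finset.range m, (Real.sqrt (1 + 4 * δ (j + i) ^ 2) / 64) ≤ q) :
    (∀ v ∈ leaves δ q σ m j s, ∃ τ : ℝ, 0 ≤ τ ∧ τ ≤ 1 ∧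
      ‖toC v - (s.1 + (τ : ℂ) * s.2)‖ ≤ 3 + (60 / 59) * (δ j * ‖s.2‖)) := by
  induction m generalizing j s with
  | zero =>
    intro v hv
    have hs' : ‖s.2‖ ≤ q := by simpa using hs
    obtain ⟨τ, h0, h1, h2⟩ := (finalVerts_facts q hq s hs').2.1 v (by simpa [leaves] using hv)
    refine ⟨τ, h0, h1, h2.trans ?_⟩
    have := mul_nonneg (hδ j) (norm_nonneg s.2)
    linarith
  | succ m ih =>
    intro v hv
    simp only [leaves, List.mem_flatMap, List.mem_range] at hv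
    obtain ⟨k, hk, hv⟩ := hv
    obtain ⟨f1, f2, -, -, -, f6⟩ := child_facts (δ j) (hδ j) (hδ' j) (σ j s) s
    have hs' : ‖(child (δ j) (σ j s) k s).2‖ *
        ∏ i ∈ Finset.range m, (Real.sqrt (1 + 4 * δ (j + 1 + i) ^ 2) / 64) ≤ q := by
      rw [f1 k hk]
      refine le_of_eq_of_le ?_ hs
      rw [Finset.prod_range_succ']
      have : ∀ i, j + 1 + i = j + (i + 1) := fun i => by ring
      simp only [this, add_zero]
      ring
    obtain ⟨τ', h0, h1, h2⟩ := ih (j + 1) _ hs' v hv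
    obtain ⟨τ, t, g0, g1, g2, g3, -, g5⟩ := f6 k hk τ' h0 h1
    refine ⟨τ, g0, g1, ?_⟩
    have e : toC v - (s.1 + (τ : ℂ) * s.2) =
        (toC v - ((child (δ j) (σ j s) k s).1 + (τ' : ℂ) * (child (δ j) (σ j s) k s).2)) +
          bsign (σ j s) * δ j * Complex.I * (t : ℂ) * s.2 := by
      rw [g5]; ring
    rw [e]
    refine (norm_add_le _ _).trans ?_
    have hb : ‖bsign (σ j s)‖ = 1 := by
      unfold bsign; split_ifs <;> simp
    have hn : ‖bsign (σ j s) * δ j * Complex.I * (t : ℂ) * s.2‖ ≤ δ j * ‖s.2‖ := by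
      rw [norm_mul, norm_mul, norm_mul, norm_mul, hb, Complex.norm_I, Complex.norm_real,
        Complex.norm_real, Real.norm_of_nonneg (hδ j), Real.norm_of_nonneg g2]
      have := mul_nonneg (hδ j) (norm_nonneg s.2)
      nlinarith
    have hc : δ (j + 1) * ‖(child (δ j) (σ j s) k s).2‖ ≤ δ j * ‖s.2‖ / 60 := by
      have a1 : δ (j + 1) ≤ δ j := hanti (Nat.le_succ j)
      have a2 := f2 k hk
      calc δ (j + 1) * ‖(child (δ j) (σ j s) k s).2‖
          ≤ δ j * (‖s.2‖ / 60) := mul_le_mul a1 a2 (norm_nonneg _) (hδ j)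
        _ = δ j * ‖s.2‖ / 60 := by ring
    linarith

end H941.K4
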