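import Pool.Agent.H941.Defs2
import Pool.Agent.H941.K1
import Pool.Agent.H941.K2

open MeasureTheory ProbabilityTheory

namespace H941.K6

theorem pst_facts_bsign (b : Bool) : ‖bsign b‖ = 1 := by
  cases b <;> simp [bsign]

theorem pst_facts_norm (b : Bool) (d t : ℝ) (w : ℂ) (hd : 0 ≤ d) (ht : 0 ≤ t) (ht' : t ≤ 1) :
    ‖bsign b * d * Complex.I * (t : ℂ) * w‖ ≤ d * ‖w‖ := by
  rw [norm_mul, norm_mul, norm_mul, norm_mul, pst_facts_bsign, Complex.norm_I, Complex.norm_real, Complex.norm_real,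
    Real.norm_of_nonneg hd, Real.norm_of_nonneg ht]
  have : d * t ≤ d * 1 := mul_le_mul_of_nonneg_left ht' hd
  nlinarith [norm_nonneg w]

theorem pst_facts_a (δ : ℕ → ℝ) (hδ : ∀ j, 0 ≤ δ j) (hδ' : ∀ j, δ j ≤ 1 / 8)
    (c : ℕ → Fin 64 × Bool) (j : ℕ) (s : ℂ × ℂ) (i : ℕ) :
    ‖(pst δ j s c i).2‖ = ‖s.2‖ * ∏ i' ∈ Finset.range i, (Real.sqrt (1 + 4 * δ (j + i') ^ 2) / 64) := by
  induction i with
  | zero => simp [pst]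
  | succ i ih =>
    have h := (child_facts (δ (j + i)) (hδ _) (hδ' _) (c i).2 (pst δ j s c i)).1 ((c i).1 : ℕ) (c i).1.2
    show ‖(child (δ (j + i)) (c i).2 ((c i).1 : ℕ) (pst δ j s c i)).2‖ = _
    rw [h, ih, Finset.prod_range_succ]
    ring

theorem pst_facts_le (δ : ℕ → ℝ) (hδ : ∀ j, 0 ≤ δ j) (hδ' : ∀ j, δ j ≤ 1 / 8)
    (c : ℕ → Fin 64 × Bool) (j : ℕ) (s : ℂ × ℂ) (i : ℕ) :
    ‖(pst δ j s c (i + 1)).2‖ ≤ ‖(pst δ j s c i).2‖ / 60 :=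
  (child_facts (δ (j + i)) (hδ _) (hδ' _) (c i).2 (pst δ j s c i)).2.1 ((c i).1 : ℕ) (c i).1.2

theorem pst_facts_pow (δ : ℕ → ℝ) (hδ : ∀ j, 0 ≤ δ j) (hδ' : ∀ j, δ j ≤ 1 / 8)
    (c : ℕ → Fin 64 × Bool) (j : ℕ) (s : ℂ × ℂ) (i : ℕ) :
    ‖(pst δ j s c i).2‖ ≤ ‖s.2‖ * (1 / 60) ^ i := by
  induction i with
  | zero => simp [pst]
  | succ i ih =>
    have h := pst_facts_le δ hδ hδ' c j s i
    rw [pow_succ]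
    linarith

theorem pst_facts_c (δ : ℕ → ℝ) (hδ : ∀ j, 0 ≤ δ j) (hδ' : ∀ j, δ j ≤ 1 / 8) (hanti : Antitone δ)
    (c : ℕ → Fin 64 × Bool) (j : ℕ) (s : ℂ × ℂ) (i : ℕ) (z : ℂ)
    (h : ∃ τ : ℝ, 0 ≤ τ ∧ τ ≤ 1 ∧ ‖z - ((pst δ j s c (i + 1)).1 + (τ : ℂ) * (pst δ j s c (i + 1)).2)‖ ≤
      3 + (60 / 59) * (δ (j + (i + 1)) * ‖(pst δ j s c (i + 1)).2‖)) :
    ∃ τ t : ℝ, 0 ≤ τ ∧ τ ≤ 1 ∧ 0 ≤ t ∧ t ≤ 1 ∧
      (24 ≤ ((c i).1 : ℕ) → ((c i).1 : ℕ) < 40 → 3 / 4 ≤ t) ∧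
      ‖z - ((pst δ j s c i).1 + (τ : ℂ) * (pst δ j s c i).2
          + bsign (c i).2 * (δ (j + i) : ℂ) * Complex.I * (t : ℂ) * (pst δ j s c i).2)‖ ≤
        3 + (1 / 59) * (δ (j + i) * ‖(pst δ j s c i).2‖) := by
  obtain ⟨τ', h0, h1, h2⟩ := h
  obtain ⟨τ, t, a1, a2, a3, a4, a5, a6⟩ :=
    (child_facts (δ (j + i)) (hδ _) (hδ' _) (c i).2 (pst δ j s c i)).2.2.2.2.2 ((c i).1 : ℕ) (c i).1.2 τ' h0 h1
  refine ⟨τ, t, a1, a2, a3, a4, a5, ?_⟩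
  rw [← a6]
  refine h2.trans ?_
  have h3 := pst_facts_le δ hδ hδ' c j s i
  have h4 : δ (j + (i + 1)) ≤ δ (j + i) := hanti (by omega)
  have h5 : δ (j + (i + 1)) * ‖(pst δ j s c (i + 1)).2‖ ≤ δ (j + i) * (‖(pst δ j s c i).2‖ / 60) :=
    mul_le_mul h4 h3 (norm_nonneg _) (hδ _)
  linarith

theorem pst_facts_bc (δ : ℕ → ℝ) (hδ : ∀ j, 0 ≤ δ j) (hδ' : ∀ j, δ j ≤ 1 / 8) (hanti : Antitone δ)
    (q : ℕ) (hq : 1 ≤ q) (c : ℕ → Fin 64 × Bool) (n j : ℕ) (s : ℂ × ℂ)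
    (hs : ‖(pst δ j s c n).2‖ ≤ q) (v : ℤ × ℤ) (hv : v ∈ finalVerts q (pst δ j s c n)) (m : ℕ) :
    ∀ i, i + m = n → ∃ τ : ℝ, 0 ≤ τ ∧ τ ≤ 1 ∧
      ‖toC v - ((pst δ j s c i).1 + (τ : ℂ) * (pst δ j s c i).2)‖ ≤
        3 + (60 / 59) * (δ (j + i) * ‖(pst δ j s c i).2‖) := by
  induction m with
  | zero =>
    intro i hi
    have hi' : i = n := by omega
    subst hi'
    obtain ⟨τ, h0, h1, h2⟩ := (finalVerts_facts q hq (pst δ j s c i) hs).2.1 v hv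
    refine ⟨τ, h0, h1, h2.trans ?_⟩
    have : 0 ≤ δ (j + i) * ‖(pst δ j s c i).2‖ := mul_nonneg (hδ _) (norm_nonneg _)
    linarith
  | succ m ih =>
    intro i hi
    obtain ⟨τ, t, a1, a2, a3, a4, -, a6⟩ :=
      pst_facts_c δ hδ hδ' hanti c j s i (toC v) (ih (i + 1) (by omega))
    refine ⟨τ, a1, a2, ?_⟩
    have e : toC v - ((pst δ j s c i).1 + (τ : ℂ) * (pst δ j s c i).2)
        = (toC v - ((pst δ j s c i).1 + (τ : ℂ) * (pst δ j s c i).2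
          + bsign (c i).2 * (δ (j + i) : ℂ) * Complex.I * (t : ℂ) * (pst δ j s c i).2))
          + bsign (c i).2 * (δ (j + i) : ℂ) * Complex.I * (t : ℂ) * (pst δ j s c i).2 := by ring
    rw [e]
    refine (norm_add_le _ _).trans ?_
    have h7 := pst_facts_norm (c i).2 (δ (j + i)) t (pst δ j s c i).2 (hδ _) a3 a4
    linarith

theorem pst_facts_d (δ : ℕ → ℝ) (hδ : ∀ j, 0 ≤ δ j) (hδ' : ∀ j, δ j ≤ 1 / 8) (hanti : Antitone δ)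
    (c : ℕ → Fin 64 × Bool) (j : ℕ) (s : ℂ × ℂ) (i : ℕ) :
    ∀ τ : ℝ, 0 ≤ τ → τ ≤ 1 → ∃ τ' : ℝ, 0 ≤ τ' ∧ τ' ≤ 1 ∧
      ‖((pst δ j s c i).1 + (τ : ℂ) * (pst δ j s c i).2) - (s.1 + (τ' : ℂ) * s.2)‖ ≤
        (60 / 59) * (1 - (1 / 60) ^ i) * (δ j * ‖s.2‖) := by
  induction i with
  | zero =>
    intro τ h0 h1
    refine ⟨τ, h0, h1, ?_⟩
    simp [pst]
  | succ i ih =>
    intro τ h0 h1
    obtain ⟨τ₁, t, a1, a2, a3, a4, -, a6⟩ :=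
      (child_facts (δ (j + i)) (hδ _) (hδ' _) (c i).2 (pst δ j s c i)).2.2.2.2.2 ((c i).1 : ℕ) (c i).1.2 τ h0 h1
    obtain ⟨τ', b0, b1, b2⟩ := ih τ₁ a1 a2
    refine ⟨τ', b0, b1, ?_⟩
    show ‖((child (δ (j + i)) (c i).2 ((c i).1 : ℕ) (pst δ j s c i)).1
      + (τ : ℂ) * (child (δ (j + i)) (c i).2 ((c i).1 : ℕ) (pst δ j s c i)).2) - (s.1 + (τ' : ℂ) * s.2)‖ ≤ _
    rw [a6]
    have e : (pst δ j s c i).1 + (τ₁ : ℂ) * (pst δ j s c i).2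
          + bsign (c i).2 * (δ (j + i) : ℂ) * Complex.I * (t : ℂ) * (pst δ j s c i).2 - (s.1 + (τ' : ℂ) * s.2)
        = ((pst δ j s c i).1 + (τ₁ : ℂ) * (pst δ j s c i).2 - (s.1 + (τ' : ℂ) * s.2))
          + bsign (c i).2 * (δ (j + i) : ℂ) * Complex.I * (t : ℂ) * (pst δ j s c i).2 := by ring
    rw [e]
    refine (norm_add_le _ _).trans ?_
    have h7 := pst_facts_norm (c i).2 (δ (j + i)) t (pst δ j s c i).2 (hδ _) a3 a4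
    have h8 := pst_facts_pow δ hδ hδ' c j s i
    have h9 : δ (j + i) ≤ δ j := hanti (by omega)
    have h10 : δ (j + i) * ‖(pst δ j s c i).2‖ ≤ δ j * (‖s.2‖ * (1 / 60) ^ i) :=
      mul_le_mul h9 h8 (norm_nonneg _) (hδ _)
    have e2 : (60 / 59) * (1 - (1 / 60) ^ (i + 1)) * (δ j * ‖s.2‖)
        = (60 / 59) * (1 - (1 / 60) ^ i) * (δ j * ‖s.2‖) + δ j * (‖s.2‖ * (1 / 60 : ℝ) ^ i) := by
      rw [pow_succ]; ring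
    rw [e2]
    linarith

theorem _root_.H941.pst_facts (δ : ℕ → ℝ) (hδ : ∀ j, 0 ≤ δ j) (hδ' : ∀ j, δ j ≤ 1 / 8) (hanti : Antitone δ)
    (q : ℕ) (hq : 1 ≤ q) (c : ℕ → Fin 64 × Bool) (n j : ℕ) (s : ℂ × ℂ)
    (hs : ‖s.2‖ * ∏ i ∈ Finset.range n, (Real.sqrt (1 + 4 * δ (j + i) ^ 2) / 64) ≤ q) :
    (∀ i, ‖(pst δ j s c i).2‖ = ‖s.2‖ * ∏ i' ∈ Finset.range i, (Real.sqrt (1 + 4 * δ (j + i') ^ 2) / 64)) ∧
    (∀ i ≤ n, ∀ v ∈ finalVerts q (pst δ j s c n), ∃ τ : ℝ, 0 ≤ τ ∧ τ ≤ 1 ∧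
      ‖toC v - ((pst δ j s c i).1 + (τ : ℂ) * (pst δ j s c i).2)‖ ≤
        3 + (60 / 59) * (δ (j + i) * ‖(pst δ j s c i).2‖)) ∧
    (∀ i < n, ∀ v ∈ finalVerts q (pst δ j s c n), ∃ τ t : ℝ, 0 ≤ τ ∧ τ ≤ 1 ∧ 0 ≤ t ∧ t ≤ 1 ∧
      (24 ≤ ((c i).1 : ℕ) → ((c i).1 : ℕ) < 40 → 3 / 4 ≤ t) ∧
      ‖toC v - ((pst δ j s c i).1 + (τ : ℂ) * (pst δ j s c i).2
          + bsign (c i).2 * (δ (j + i) : ℂ) * Complex.I * (t : ℂ) * (pst δ j s c i).2)‖ ≤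
        3 + (1 / 59) * (δ (j + i) * ‖(pst δ j s c i).2‖)) ∧
    (∀ i ≤ n, ∀ τ : ℝ, 0 ≤ τ → τ ≤ 1 → ∃ τ' : ℝ, 0 ≤ τ' ∧ τ' ≤ 1 ∧
      ‖((pst δ j s c i).1 + (τ : ℂ) * (pst δ j s c i).2) - (s.1 + (τ' : ℂ) * s.2)‖ ≤
        (60 / 59) * (δ j * ‖s.2‖)) := by
  have hn : ‖(pst δ j s c n).2‖ ≤ q := by
    rw [pst_facts_a δ hδ hδ' c j s n]
    exact hs
  have hb : ∀ i ≤ n, ∀ v ∈ finalVerts q (pst δ j s c n), ∃ τ : ℝ, 0 ≤ τ ∧ τ ≤ 1 ∧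
      ‖toC v - ((pst δ j s c i).1 + (τ : ℂ) * (pst δ j s c i).2)‖ ≤
        3 + (60 / 59) * (δ (j + i) * ‖(pst δ j s c i).2‖) := fun i hi v hv =>
    pst_facts_bc δ hδ hδ' hanti q hq c n j s hn v hv (n - i) i (by omega)
  refine ⟨fun i => pst_facts_a δ hδ hδ' c j s i, hb, ?_, ?_⟩
  · intro i hi v hv
    exact pst_facts_c δ hδ hδ' hanti c j s i (toC v) (hb (i + 1) hi v hv)
  · intro i _ τ h0 h1
    obtain ⟨τ', b0, b1, b2⟩ := pst_facts_d δ hδ hδ' hanti c j s i τ h0 h1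
    refine ⟨τ', b0, b1, b2.trans ?_⟩
    have h1' : (0 : ℝ) ≤ (1 / 60) ^ i := by positivity
    have h2' : 0 ≤ δ j * ‖s.2‖ := mul_nonneg (hδ _) (norm_nonneg _)
    apply mul_le_mul_of_nonneg_right _ h2'
    linarith

end H941.K6
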