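import Pool.Agent.H941.Defs2
import Pool.Agent.H941.G3

open MeasureTheory ProbabilityTheory

namespace H941.G4

theorem _root_.H941.gaussian_factor : ∃ c0 : ℝ, 0 < c0 ∧ c0 ≤ 1 ∧
    ∀ (ι : Type) [Fintype ι] [DecidableEq ι] (Γ : Matrix ι ι ℝ), Γ.PosSemidef →
    ∀ (u : ι) (w : ι → ℝ) (θ κ σ : ℝ), 0 ≤ θ → 0 ≤ κ → 0 < σ →
      (∑ y, Γ u y * w y = κ) → (∑ x, ∑ y, w x * Γ x y * w y = σ ^ 2) →
      ∫ x : EuclideanSpace ℝ ι, Set.indicator {x : EuclideanSpace ℝ ι | ∑ y, w y * x y ≤ 0}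
          (fun x => Real.exp (θ * x u)) x ∂(multivariateGaussian (0 : EuclideanSpace ℝ ι) Γ) ≤
        (1 / 2) * Real.exp (θ ^ 2 * Γ u u / 2) * Real.exp (-(c0 * min 1 (θ * κ / σ))) := by
  obtain ⟨c0, hc0, hc1, hhalf⟩ := half_exp
  refine ⟨c0, hc0, hc1, ?_⟩
  intro ι _ _ Γ hΓ u w θ κ σ hθ hκ hσ hκ' hσ'
  obtain ⟨P, hP⟩ : ∃ P : Measure (EuclideanSpace ℝ ι), P = multivariateGaussian 0 Γ := ⟨_, rfl⟩
  have hPG : IsGaussian P := by rw [hP]; infer_instance
  obtain ⟨β, hβ⟩ : ∃ β : ℝ, β = κ / σ ^ 2 := ⟨_, rfl⟩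
  have hβ0 : 0 ≤ β := by rw [hβ]; positivity
  have hβσ : β * σ ^ 2 = κ := by rw [hβ]; field_simp
  -- the vectors
  obtain ⟨ww, hww⟩ : ∃ ww : EuclideanSpace ℝ ι, ww = WithLp.toLp 2 w := ⟨_, rfl⟩
  obtain ⟨eu, heu⟩ : ∃ eu : EuclideanSpace ℝ ι, eu = EuclideanSpace.basisFun ι ℝ u := ⟨_, rfl⟩
  have hW : ∀ x : EuclideanSpace ℝ ι, inner ℝ ww x = ∑ y, w y * x y := by
    intro x
    rw [hww, PiLp.inner_apply]
    apply Finset.sum_congr rfl
    intro i _
    simp [mul_comm]
  have hU : ∀ x : EuclideanSpace ℝ ι, inner ℝ eu x = x u := by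
    intro x
    rw [heu]
    simp [PiLp.inner_apply]
  have hmem : MemLp id 2 P := IsGaussian.memLp_two_id
  obtain ⟨B, hB⟩ : ∃ B : EuclideanSpace ℝ ι → EuclideanSpace ℝ ι → ℝ,
      ∀ a b, B a b = covarianceBilin P a b := ⟨_, fun _ _ => rfl⟩
  have hcovB : ∀ a b : EuclideanSpace ℝ ι,
      cov[fun x => inner ℝ a x, fun x => inner ℝ b x; P] = B a b := by
    intro a b
    rw [hB, ← covarianceBilin_apply_eq_cov hmem]
  have hcovf : ∀ a b : EuclideanSpace ℝ ι, B a b = ∑ i, ∑ j, a i * Γ i j * b j := by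
    intro a b
    rw [hB, hP, covarianceBilin_multivariateGaussian hΓ]
    simp only [dotProduct, Matrix.mulVec, Finset.mul_sum]
    apply Finset.sum_congr rfl
    intro i _
    apply Finset.sum_congr rfl
    intro j _
    ring
  have hBcomm : ∀ a b, B a b = B b a := by
    intro a b; rw [hB, hB, covarianceBilin_comm]
  have hBsub : ∀ a b c, B (a - β • b) c = B a c - β * B b c := by
    intro a b c; rw [hB, hB, hB]; simp
  have hWW : B ww ww = σ ^ 2 := by
    rw [hcovf, ← hσ', hww]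
  have hUW : B eu ww = κ := by
    rw [hcovf, ← hκ', hww, heu]
    rw [Finset.sum_eq_single u]
    · simp
    · intro b _ hb
      simp [hb]
    · simp
  have hUU : B eu eu = Γ u u := by
    rw [hcovf, heu]
    rw [Finset.sum_eq_single u]
    · rw [Finset.sum_eq_single u]
      · simp
      · intro b _ hb
        simp [hb]
      · simp
    · intro b _ hb
      simp [hb]
    · simp
  obtain ⟨a, ha⟩ : ∃ a : EuclideanSpace ℝ ι, a = eu - β • ww := ⟨_, rfl⟩
  have haW : B a ww = 0 := by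
    rw [ha, hBsub, hUW, hWW, hβσ]; ring
  have haa : B a a = Γ u u - β * κ := by
    have h1 : B a a = B eu a - β * B ww a := by
      nth_rewrite 1 [ha]
      rw [hBsub]
    rw [h1, hBcomm ww a, haW, hBcomm eu a, ha, hBsub, hUU, hBcomm ww eu, hUW]
    ring
  -- Gaussian laws
  have hid : HasGaussianLaw (fun x : EuclideanSpace ℝ ι => x) P := ⟨by simpa using hPG⟩
  have hlaw1 : ∀ b : EuclideanSpace ℝ ι, HasGaussianLaw (fun x => inner ℝ b x) P := by
    intro b
    exact hid.map_fun (innerSL ℝ b)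
  have hlaw2 : HasGaussianLaw (fun x => (inner ℝ a x, inner ℝ ww x)) P :=
    hid.map_fun ((innerSL ℝ a).prod (innerSL ℝ ww))
  have hind : IndepFun (fun x => inner ℝ a x) (fun x => inner ℝ ww x) P :=
    hlaw2.indepFun_of_covariance_eq_zero (by rw [hcovB, haW])
  have hmean : ∀ b : EuclideanSpace ℝ ι, ∫ x, inner ℝ b x ∂P = 0 := by
    intro b
    have h0 : Integrable (fun x : EuclideanSpace ℝ ι => x) P := IsGaussian.integrable_id
    rw [integral_inner h0, hP, integral_id_multivariateGaussian]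
    simp
  have hmapf : ∀ b : EuclideanSpace ℝ ι,
      P.map (fun x => inner ℝ b x) = gaussianReal 0 (B b b).toNNReal := by
    intro b
    rw [(hlaw1 b).map_eq_gaussianReal, hmean, ← covariance_self (hlaw1 b).aemeasurable, hcovB]
  have hmeasinner : ∀ b : EuclideanSpace ℝ ι, Measurable (fun x => inner ℝ b x) := by
    intro b; fun_prop
  -- factorization of the integrand
  have hfac : ∀ x : EuclideanSpace ℝ ι,
      Set.indicator {x : EuclideanSpace ℝ ι | ∑ y, w y * x y ≤ 0}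
        (fun x => Real.exp (θ * x u)) x =
      Real.exp (θ * inner ℝ a x) *
        Set.indicator {t : ℝ | t ≤ 0} (fun t => Real.exp ((θ * β) * t)) (inner ℝ ww x) := by
    intro x
    have e1 : inner ℝ a x = x u - β * inner ℝ ww x := by
      rw [ha, inner_sub_left, real_inner_smul_left, hU]
    by_cases h : ∑ y, w y * x y ≤ 0
    · rw [Set.indicator_of_mem (show x ∈ {x : EuclideanSpace ℝ ι | ∑ y, w y * x y ≤ 0} from h),
        Set.indicator_of_mem (show inner ℝ ww x ∈ {t : ℝ | t ≤ 0} from by rw [hW]; exact h),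
        ← Real.exp_add, e1]
      congr 1; ring
    · rw [Set.indicator_of_notMem (show x ∉ {x : EuclideanSpace ℝ ι | ∑ y, w y * x y ≤ 0} from h),
        Set.indicator_of_notMem (show inner ℝ ww x ∉ {t : ℝ | t ≤ 0} from by rw [hW]; exact h),
        mul_zero]
  have hmeas1 : Measurable (fun t : ℝ => Real.exp (θ * t)) := by fun_prop
  have hmeas2 : Measurable (Set.indicator {t : ℝ | t ≤ 0} (fun t => Real.exp ((θ * β) * t))) :=
    Measurable.indicator (by fun_prop) measurableSet_Iic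
  have hint : ∫ x : EuclideanSpace ℝ ι,
      Set.indicator {x : EuclideanSpace ℝ ι | ∑ y, w y * x y ≤ 0}
          (fun x => Real.exp (θ * x u)) x ∂P =
      (∫ x, Real.exp (θ * inner ℝ a x) ∂P) *
      (∫ x, Set.indicator {t : ℝ | t ≤ 0} (fun t => Real.exp ((θ * β) * t)) (inner ℝ ww x) ∂P) := by
    have e : (fun x : EuclideanSpace ℝ ι =>
        Set.indicator {x : EuclideanSpace ℝ ι | ∑ y, w y * x y ≤ 0}
          (fun x => Real.exp (θ * x u)) x) = (fun x =>
          Real.exp (θ * inner ℝ a x) *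
        Set.indicator {t : ℝ | t ≤ 0} (fun t => Real.exp ((θ * β) * t)) (inner ℝ ww x)) :=
      funext hfac
    rw [e]
    exact (hind.comp hmeas1 hmeas2).integral_fun_mul_eq_mul_integral
      (hmeas1.comp (hmeasinner a)).aestronglyMeasurable
      (hmeas2.comp (hmeasinner ww)).aestronglyMeasurable
  have hfirst : ∫ x, Real.exp (θ * inner ℝ a x) ∂P ≤ Real.exp (θ ^ 2 * Γ u u / 2) := by
    have h1 := mgf_gaussianReal (hmapf a) θ
    rw [mgf] at h1
    rw [h1]
    apply Real.exp_le_exp.2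
    have h2 : ((B a a).toNNReal : ℝ) ≤ Γ u u := by
      rw [Real.coe_toNNReal']
      apply max_le
      · rw [haa]
        have : 0 ≤ β * κ := by positivity
        linarith
      · exact hΓ.diag_nonneg
    have h3 : 0 ≤ θ ^ 2 := by positivity
    nlinarith
  have hsecond : ∫ x, Set.indicator {t : ℝ | t ≤ 0} (fun t => Real.exp ((θ * β) * t))
      (inner ℝ ww x) ∂P ≤ (1 / 2) * Real.exp (-(c0 * min 1 (θ * κ / σ))) := by
    have h1 := hhalf (θ * β) σ (by positivity) hσ
    rw [← hWW, ← hmapf ww, integral_map (hmeasinner ww).aemeasurable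
      hmeas2.aestronglyMeasurable] at h1
    have h2 : θ * β * σ = θ * κ / σ := by
      rw [hβ]; field_simp
    rw [h2] at h1
    exact h1
  rw [← hP, hint]
  have hpos : 0 ≤ ∫ x, Set.indicator {t : ℝ | t ≤ 0} (fun t => Real.exp ((θ * β) * t))
      (inner ℝ ww x) ∂P := by
    apply integral_nonneg
    intro x
    apply Set.indicator_nonneg
    intro t _
    exact (Real.exp_pos _).le
  calc _ ≤ Real.exp (θ ^ 2 * Γ u u / 2) * ((1 / 2) * Real.exp (-(c0 * min 1 (θ * κ / σ)))) :=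
        mul_le_mul hfirst hsecond hpos (Real.exp_pos _).le
    _ = (1 / 2) * Real.exp (θ ^ 2 * Γ u u / 2) * Real.exp (-(c0 * min 1 (θ * κ / σ))) := by ring

end H941.G4
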