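import Pool.Agent.H941.Defs2

open MeasureTheory ProbabilityTheory

namespace H941.K5

theorem bsign_re (b : Bool) : bsign b = ((if b then (1 : ℝ) else -1 : ℝ) : ℂ) := by
  cases b <;> simp [bsign]

theorem floor_diff (x : ℝ) : |x - (⌊x⌋ : ℝ)| ≤ 1 := by
  rw [abs_le]
  constructor
  · linarith [Int.floor_le x]
  · linarith [Int.lt_floor_add_one x]

/-- the centres -/
noncomputable def cen (T : ℕ) (δ : ℝ) (b : Bool) (s : ℂ × ℂ) (m : ℕ) : ℂ :=
  s.1 + ((m : ℂ) / T) * s.2 + bsign b * δ * Complex.I * (7 / 8) * s.2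

theorem mem_region (T ρ : ℕ) (δ : ℝ) (b : Bool) (s : ℂ × ℂ) (y : ℤ × ℤ) :
    y ∈ region T ρ δ b s ↔ ∃ m < T + 1, |y.1 - (rd (cen T δ b s m)).1| ≤ ρ ∧
      |y.2 - (rd (cen T δ b s m)).2| ≤ ρ := by
  unfold region
  rw [Finset.mem_biUnion]
  constructor
  · rintro ⟨m, hm, hy⟩
    rw [Finset.mem_product, Finset.mem_Icc, Finset.mem_Icc] at hy
    refine ⟨m, Finset.mem_range.1 hm, ?_, ?_⟩
    · rw [abs_le]
      unfold cen
      constructor <;> linarith [hy.1.1, hy.1.2]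
    · rw [abs_le]
      unfold cen
      constructor <;> linarith [hy.2.1, hy.2.2]
  · rintro ⟨m, hm, h1, h2⟩
    refine ⟨m, Finset.mem_range.2 hm, ?_⟩
    rw [abs_le] at h1 h2
    unfold cen at h1 h2
    rw [Finset.mem_product, Finset.mem_Icc, Finset.mem_Icc]
    refine ⟨⟨?_, ?_⟩, ⟨?_, ?_⟩⟩ <;> linarith [h1.1, h1.2, h2.1, h2.2]

theorem norm_le_coord (z : ℂ) (a : ℝ) (h1 : |z.re| ≤ a) (h2 : |z.im| ≤ a) :
    ‖z‖ ^ 2 ≤ 2 * a ^ 2 := by
  have h := Complex.sq_norm z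
  rw [Complex.normSq_apply] at h
  rw [abs_le] at h1 h2
  nlinarith [h1.1, h1.2, h2.1, h2.2]

theorem card_region (T ρ : ℕ) (δ : ℝ) (s : ℂ × ℂ) (b : Bool) :
    (region T ρ δ b s).card ≤ (T + 1) * (2 * ρ + 1) ^ 2 := by
  unfold region
  refine Finset.card_biUnion_le.trans ?_
  have h : ∀ a : ℤ, (Finset.Icc (a - (ρ : ℤ)) (a + (ρ : ℤ))).card = 2 * ρ + 1 := by
    intro a
    rw [Int.card_Icc]
    have : a + (ρ : ℤ) + 1 - (a - (ρ : ℤ)) = ((2 * ρ + 1 : ℕ) : ℤ) := by push_cast; ring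
    rw [this, Int.toNat_natCast]
  calc _ ≤ ∑ m ∈ Finset.range (T + 1), (2 * ρ + 1) ^ 2 := by
        refine Finset.sum_le_sum fun m _ => ?_
        rw [Finset.card_product, h, h, sq]
    _ = (T + 1) * (2 * ρ + 1) ^ 2 := by
        rw [Finset.sum_const, Finset.card_range, smul_eq_mul]

theorem _root_.H941.region_facts (T ρ L : ℕ) (δ : ℝ) (hδ : 0 < δ) (hδ' : δ ≤ 1 / 8) (s : ℂ × ℂ)
    (hd : 96 ≤ δ * ‖s.2‖) (hT : 16 / δ ≤ T) (hρ : 3 / 8 * (δ * ‖s.2‖) ≤ ρ)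
    (hρ' : (ρ : ℝ) ≤ 3 / 8 * (δ * ‖s.2‖) + 1) (hL : 2 * (L : ℝ) ≤ δ * ‖s.2‖ / 16) (b : Bool) :
    (region T ρ δ b s).card ≤ (T + 1) * (2 * ρ + 1) ^ 2 ∧
    (∀ (v : ℤ × ℤ) (τ t : ℝ), 0 ≤ τ → τ ≤ 1 → 0 ≤ t → t ≤ 1 →
      ‖toC v - (s.1 + (τ : ℂ) * s.2 + bsign b * δ * Complex.I * (t : ℂ) * s.2)‖ ≤ δ * ‖s.2‖ / 16 →
      (∀ y ∈ region T ρ δ (!b) s, ¬ (|v.1 - y.1| < 2 * (L : ℤ) ∧ |v.2 - y.2| < 2 * (L : ℤ))) ∧
      (3 / 4 ≤ t → ∀ y : ℤ × ℤ, |v.1 - y.1| < 2 * (L : ℤ) → |v.2 - y.2| < 2 * (L : ℤ) →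
        y ∈ region T ρ δ b s)) := by
  have hD : 0 ≤ ‖s.2‖ := norm_nonneg _
  set D : ℝ := ‖s.2‖ with hDdef
  have hT0 : 0 < (T : ℝ) := lt_of_lt_of_le (by positivity) hT
  have hT' : 1 / (T : ℝ) ≤ δ / 16 := by
    rw [div_le_div_iff₀ hT0 (by norm_num)]
    rw [div_le_iff₀ hδ] at hT
    linarith
  refine ⟨card_region T ρ δ s b, ?_⟩
  intro v τ t hτ0 hτ1 ht0 ht1 hv
  set A : ℂ := s.1 + (τ : ℂ) * s.2 + bsign b * δ * Complex.I * (t : ℂ) * s.2 with hA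
  set g : ℝ := (if b then (1 : ℝ) else -1 : ℝ) with hg
  have hg1 : |g| = 1 := by
    rw [hg]; cases b <;> simp
  have hbg : bsign b = (g : ℂ) := bsign_re b
  refine ⟨?_, ?_⟩
  · rintro y hy ⟨hy1, hy2⟩
    rw [mem_region] at hy
    obtain ⟨m, hm, h1, h2⟩ := hy
    set c : ℂ := cen T δ (!b) s m with hc
    have hbn : bsign (!b) = -(g : ℂ) := by
      rw [← hbg]; cases b <;> simp [bsign]
    -- distance from `A` to `c`
    have hAc : A - c = (((τ - m / T : ℝ) : ℂ) + ((g * (δ * (t + 7 / 8)) : ℝ) : ℂ) * Complex.I) * s.2 := by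
      rw [hA, hc]
      unfold cen
      rw [hbn, hbg]
      push_cast
      ring
    have hn1 : 7 / 8 * (δ * D) ≤ ‖A - c‖ := by
      rw [hAc, norm_mul, ← hDdef]
      have h3 : δ * (7 / 8) ≤ ‖((τ - m / T : ℝ) : ℂ) + ((g * (δ * (t + 7 / 8)) : ℝ) : ℂ) * Complex.I‖ := by
        refine le_trans ?_ (Complex.abs_im_le_norm _)
        have : (((τ - m / T : ℝ) : ℂ) + ((g * (δ * (t + 7 / 8)) : ℝ) : ℂ) * Complex.I).im =
            g * (δ * (t + 7 / 8)) := by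
          simp only [Complex.add_im, Complex.ofReal_im, Complex.mul_im, Complex.ofReal_re,
            Complex.I_im, Complex.I_re, mul_one, mul_zero, zero_add, add_zero]
        rw [this, abs_mul, hg1, one_mul]
        refine le_trans ?_ (le_abs_self _)
        nlinarith
      calc 7 / 8 * (δ * D) = δ * (7 / 8) * D := by ring
        _ ≤ _ := mul_le_mul_of_nonneg_right h3 hD
    have hn2 : 13 / 16 * (δ * D) ≤ ‖toC v - c‖ := by
      have h4 : ‖A - c‖ ≤ ‖A - toC v‖ + ‖toC v - c‖ := norm_sub_le_norm_sub_add_norm_sub _ _ _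
      rw [norm_sub_rev A (toC v)] at h4
      linarith
    -- coordinates
    have hx1 : |((toC v - c).re)| ≤ 7 / 16 * (δ * D) + 2 := by
      have e1 : (toC v - c).re = ((v.1 : ℝ) - y.1) + ((y.1 : ℝ) - ⌊c.re⌋) - (c.re - ⌊c.re⌋) := by
        simp only [toC, Complex.sub_re]; ring
      have e2 : |((v.1 : ℝ) - y.1)| ≤ 2 * L := by
        have : |v.1 - y.1| ≤ 2 * (L : ℤ) := hy1.le
        exact_mod_cast this
      have e3 : |((y.1 : ℝ) - ⌊c.re⌋)| ≤ ρ := by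
        have : |y.1 - ⌊c.re⌋| ≤ (ρ : ℤ) := h1
        exact_mod_cast this
      have e4 := floor_diff c.re
      rw [e1]
      calc _ ≤ |((v.1 : ℝ) - y.1) + ((y.1 : ℝ) - ⌊c.re⌋)| + |c.re - ⌊c.re⌋| := abs_sub _ _
        _ ≤ |((v.1 : ℝ) - y.1)| + |((y.1 : ℝ) - ⌊c.re⌋)| + |c.re - ⌊c.re⌋| := by
            gcongr; exact abs_add_le _ _
        _ ≤ _ := by linarith
    have hx2 : |((toC v - c).im)| ≤ 7 / 16 * (δ * D) + 2 := by
      have e1 : (toC v - c).im = ((v.2 : ℝ) - y.2) + ((y.2 : ℝ) - ⌊c.im⌋) - (c.im - ⌊c.im⌋) := by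
        simp only [toC, Complex.sub_im]; ring
      have e2 : |((v.2 : ℝ) - y.2)| ≤ 2 * L := by
        have : |v.2 - y.2| ≤ 2 * (L : ℤ) := hy2.le
        exact_mod_cast this
      have e3 : |((y.2 : ℝ) - ⌊c.im⌋)| ≤ ρ := by
        have : |y.2 - ⌊c.im⌋| ≤ (ρ : ℤ) := h2
        exact_mod_cast this
      have e4 := floor_diff c.im
      rw [e1]
      calc _ ≤ |((v.2 : ℝ) - y.2) + ((y.2 : ℝ) - ⌊c.im⌋)| + |c.im - ⌊c.im⌋| := abs_sub _ _
        _ ≤ |((v.2 : ℝ) - y.2)| + |((y.2 : ℝ) - ⌊c.im⌋)| + |c.im - ⌊c.im⌋| := by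
            gcongr; exact abs_add_le _ _
        _ ≤ _ := by linarith
    have hx3 := norm_le_coord _ _ hx1 hx2
    have hx4 : (13 / 16 * (δ * D)) ^ 2 ≤ ‖toC v - c‖ ^ 2 :=
      pow_le_pow_left₀ (by positivity) hn2 2
    nlinarith
  · intro ht y hy1 hy2
    rw [mem_region]
    refine ⟨⌊τ * T⌋₊, ?_, ?_⟩
    · have : ⌊τ * T⌋₊ ≤ T := by
        refine Nat.floor_le_of_le ?_
        nlinarith
      omega
    set m : ℕ := ⌊τ * T⌋₊ with hm
    have hm1 : (m : ℝ) ≤ τ * T := Nat.floor_le (by positivity)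
    have hm2 : τ * T < m + 1 := Nat.lt_floor_add_one _
    have hmT : |τ - m / T| ≤ δ / 16 := by
      refine le_trans ?_ hT'
      rw [abs_le]
      have e : τ - m / T = (τ * T - m) / T := by field_simp
      rw [e]
      constructor
      · have : 0 ≤ (τ * T - m) / T := div_nonneg (by linarith) hT0.le
        have h1T : 0 ≤ 1 / (T : ℝ) := by positivity
        linarith
      · exact (div_le_div_iff_of_pos_right hT0).2 (by linarith)
    set c : ℂ := cen T δ b s m with hc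
    have hAc : A - c = (((τ - m / T : ℝ) : ℂ) + ((g * (δ * (t - 7 / 8)) : ℝ) : ℂ) * Complex.I) * s.2 := by
      rw [hA, hc]
      unfold cen
      rw [hbg]
      push_cast
      ring
    have hn1 : ‖A - c‖ ≤ 3 / 16 * (δ * D) := by
      rw [hAc, norm_mul, ← hDdef]
      have h3 : ‖((τ - m / T : ℝ) : ℂ) + ((g * (δ * (t - 7 / 8)) : ℝ) : ℂ) * Complex.I‖ ≤
          3 / 16 * δ := by
        refine (norm_add_le _ _).trans ?_
        rw [norm_mul, Complex.norm_I, mul_one, Complex.norm_real, Complex.norm_real,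
          Real.norm_eq_abs, Real.norm_eq_abs, abs_mul g, hg1, one_mul, abs_mul δ, abs_of_pos hδ]
        have h5 : |t - 7 / 8| ≤ 1 / 8 := by
          rw [abs_le]; constructor <;> linarith
        nlinarith
      calc _ ≤ 3 / 16 * δ * D := mul_le_mul_of_nonneg_right h3 hD
        _ = _ := by ring
    have hn2 : ‖toC v - c‖ ≤ 1 / 4 * (δ * D) := by
      have h4 : ‖toC v - c‖ ≤ ‖toC v - A‖ + ‖A - c‖ := norm_sub_le_norm_sub_add_norm_sub _ _ _
      linarith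
    constructor
    · have e1 : ((y.1 : ℝ) - ⌊c.re⌋) = (c.re - ⌊c.re⌋) + (toC v - c).re - ((v.1 : ℝ) - y.1) := by
        simp only [toC, Complex.sub_re]; ring
      have e2 : |((v.1 : ℝ) - y.1)| ≤ 2 * L := by
        have : |v.1 - y.1| ≤ 2 * (L : ℤ) := hy1.le
        exact_mod_cast this
      have e4 := floor_diff c.re
      have e5 := (Complex.abs_re_le_norm (toC v - c)).trans hn2
      have e6 : |((y.1 : ℝ) - ⌊c.re⌋)| ≤ ρ := by
        rw [e1]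
        calc _ ≤ |(c.re - ⌊c.re⌋) + (toC v - c).re| + |((v.1 : ℝ) - y.1)| := abs_sub _ _
          _ ≤ |c.re - ⌊c.re⌋| + |(toC v - c).re| + |((v.1 : ℝ) - y.1)| := by
              gcongr; exact abs_add_le _ _
          _ ≤ _ := by linarith
      have e7 : |y.1 - ⌊c.re⌋| ≤ (ρ : ℤ) := by exact_mod_cast e6
      exact e7
    · have e1 : ((y.2 : ℝ) - ⌊c.im⌋) = (c.im - ⌊c.im⌋) + (toC v - c).im - ((v.2 : ℝ) - y.2) := by
        simp only [toC, Complex.sub_im]; ring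
      have e2 : |((v.2 : ℝ) - y.2)| ≤ 2 * L := by
        have : |v.2 - y.2| ≤ 2 * (L : ℤ) := hy2.le
        exact_mod_cast this
      have e4 := floor_diff c.im
      have e5 := (Complex.abs_im_le_norm (toC v - c)).trans hn2
      have e6 : |((y.2 : ℝ) - ⌊c.im⌋)| ≤ ρ := by
        rw [e1]
        calc _ ≤ |(c.im - ⌊c.im⌋) + (toC v - c).im| + |((v.2 : ℝ) - y.2)| := abs_sub _ _
          _ ≤ |c.im - ⌊c.im⌋| + |(toC v - c).im| + |((v.2 : ℝ) - y.2)| := by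
              gcongr; exact abs_add_le _ _
          _ ≤ _ := by linarith
      have e7 : |y.2 - ⌊c.im⌋| ≤ (ρ : ℤ) := by exact_mod_cast e6
      exact e7

end H941.K5
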