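import Pool.Agent.H941.Defs2
import Pool.Agent.H941.A3
import Pool.Agent.H941.A6
import Pool.Agent.H941.A7
import Pool.Agent.H941.A9

open MeasureTheory ProbabilityTheory

namespace H941.S1

theorem Gam_facts_sub (D : Finset (ℤ × ℤ)) (L : ℕ) (s : ℤ × ℤ) : gridSet D L s ⊆ gridSet D (2 * L) s := by
  intro z hz
  unfold gridSet at hz ⊢
  rw [Finset.mem_filter] at hz ⊢
  obtain ⟨h1, h2, h3⟩ := hz
  refine ⟨h1, fun h => h2 ?_, fun h => h3 ?_⟩
  · exact Dvd.dvd.trans ⟨2, by push_cast; ring⟩ h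
  · exact Dvd.dvd.trans ⟨2, by push_cast; ring⟩ h

theorem Gam_facts_subD (D : Finset (ℤ × ℤ)) (L : ℕ) (s : ℤ × ℤ) : gridSet D L s ⊆ D := by
  unfold gridSet
  exact Finset.filter_subset _ _

theorem Gam_facts_sum (D : Finset (ℤ × ℤ)) (L : ℕ) (s x : ℤ × ℤ) :
    ∑ y ∈ D, green (gridSet D L s) x y = ∑ y ∈ gridSet D L s, green (gridSet D L s) x y := by
  symm
  apply Finset.sum_subset (Gam_facts_subD D L s)
  intro y _ hy
  exact (green_basic (gridSet D L s)).2.1 x y (Or.inr hy)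

theorem Gam_facts_row (D : Finset (ℤ × ℤ)) (Λ L : ℕ) (x : ℤ × ℤ) :
    ∑ y ∈ D, Gam D Λ L x y = (1 / 4) * (1 / (Λ : ℝ) ^ 2) * ∑ a ∈ Finset.range Λ, ∑ b ∈ Finset.range Λ,
      (∑ y ∈ gridSet D (2 * L) ((a : ℤ), (b : ℤ)), green (gridSet D (2 * L) ((a : ℤ), (b : ℤ))) x y
          - ∑ y ∈ gridSet D L ((a : ℤ), (b : ℤ)), green (gridSet D L ((a : ℤ), (b : ℤ))) x y) := by
  unfold Gam
  rw [← Finset.mul_sum]
  congr 1
  rw [Finset.sum_comm]
  apply Finset.sum_congr rfl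
  intro a _
  rw [Finset.sum_comm]
  apply Finset.sum_congr rfl
  intro b _
  rw [Finset.sum_sub_distrib, Gam_facts_sum, Gam_facts_sum]

theorem _root_.H941.Gam_facts (D : Finset (ℤ × ℤ)) (Λ L : ℕ) (hL : 1 ≤ L) (hΛ : 1 ≤ Λ) (hdvd : 2 * L ∣ Λ) :
    (∀ x y, 0 ≤ Gam D Λ L x y) ∧
    (∀ x y, Gam D Λ L x y = Gam D Λ L y x) ∧
    (∀ x y, x ∉ D ∨ y ∉ D → Gam D Λ L x y = 0) ∧
    (∀ x y, ¬ (|x.1 - y.1| < 2 * (L : ℤ) ∧ |x.2 - y.2| < 2 * (L : ℤ)) → Gam D Λ L x y = 0) ∧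
    (∀ x, ∑ y ∈ D, Gam D Λ L x y ≤ (L : ℝ) ^ 2 / 2) ∧
    (∀ x : ℤ × ℤ, (∀ z : ℤ × ℤ, |z.1 - x.1| < 2 * (L : ℤ) → |z.2 - x.2| < 2 * (L : ℤ) → z ∈ D) →
      (L : ℝ) ^ 2 / 36 ≤ ∑ y ∈ D, Gam D Λ L x y) := by
  have hΛ0 : (0 : ℝ) < (Λ : ℝ) ^ 2 := by
    have : (1 : ℝ) ≤ Λ := by exact_mod_cast hΛ
    positivity
  have hc : (0 : ℝ) ≤ (1 / 4) * (1 / (Λ : ℝ) ^ 2) := by positivity
  refine ⟨?_, ?_, ?_, ?_, ?_, ?_⟩
  · intro x y
    unfold Gam
    apply mul_nonneg hc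
    apply Finset.sum_nonneg
    intro a _
    apply Finset.sum_nonneg
    intro b _
    rw [sub_nonneg]
    exact (green_basic (gridSet D L ((a : ℤ), (b : ℤ)))).2.2.2.1 _ (Gam_facts_sub D L _) x y
  · intro x y
    unfold Gam
    congr 1
    apply Finset.sum_congr rfl
    intro a _
    apply Finset.sum_congr rfl
    intro b _
    rw [(green_basic (gridSet D L ((a : ℤ), (b : ℤ)))).2.2.1 x y,
      (green_basic (gridSet D (2 * L) ((a : ℤ), (b : ℤ)))).2.2.1 x y]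
  · intro x y hxy
    unfold Gam
    have : ∑ a ∈ Finset.range Λ, ∑ b ∈ Finset.range Λ,
        (green (gridSet D (2 * L) ((a : ℤ), (b : ℤ))) x y - green (gridSet D L ((a : ℤ), (b : ℤ))) x y) = 0 := by
      apply Finset.sum_eq_zero
      intro a _
      apply Finset.sum_eq_zero
      intro b _
      have key : ∀ M : ℕ, green (gridSet D M ((a : ℤ), (b : ℤ))) x y = 0 := by
        intro M
        apply (green_basic (gridSet D M ((a : ℤ), (b : ℤ)))).2.1 x y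
        rcases hxy with h | h
        · exact Or.inl (fun h' => h (Gam_facts_subD D M _ h'))
        · exact Or.inr (fun h' => h (Gam_facts_subD D M _ h'))
      rw [key, key, sub_zero]
    rw [this, mul_zero]
  · intro x y hxy
    unfold Gam
    have : ∑ a ∈ Finset.range Λ, ∑ b ∈ Finset.range Λ,
        (green (gridSet D (2 * L) ((a : ℤ), (b : ℤ))) x y - green (gridSet D L ((a : ℤ), (b : ℤ))) x y) = 0 := by
      apply Finset.sum_eq_zero
      intro a _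
      apply Finset.sum_eq_zero
      intro b _
      have hL' : (1 : ℤ) ≤ (L : ℤ) := by exact_mod_cast hL
      have h1 : green (gridSet D (2 * L) ((a : ℤ), (b : ℤ))) x y = 0 := by
        by_contra h
        have := gridSet_range D (2 * L) (by omega) ((a : ℤ), (b : ℤ)) x y h
        push_cast at this
        exact hxy this
      have h2 : green (gridSet D L ((a : ℤ), (b : ℤ))) x y = 0 := by
        by_contra h
        have := gridSet_range D L hL ((a : ℤ), (b : ℤ)) x y h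
        exact hxy ⟨by linarith [this.1], by linarith [this.2]⟩
      rw [h1, h2, sub_zero]
    rw [this, mul_zero]
  · intro x
    rw [Gam_facts_row]
    have hb : ∑ a ∈ Finset.range Λ, ∑ b ∈ Finset.range Λ,
      (∑ y ∈ gridSet D (2 * L) ((a : ℤ), (b : ℤ)), green (gridSet D (2 * L) ((a : ℤ), (b : ℤ))) x y
          - ∑ y ∈ gridSet D L ((a : ℤ), (b : ℤ)), green (gridSet D L ((a : ℤ), (b : ℤ))) x y)
        ≤ ∑ _a ∈ Finset.range Λ, ∑ _b ∈ Finset.range Λ, 2 * (L : ℝ) ^ 2 := by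
      apply Finset.sum_le_sum
      intro a _
      apply Finset.sum_le_sum
      intro b _
      have h1 := gridSet_mass_le D (2 * L) (by omega) ((a : ℤ), (b : ℤ)) x
      have h2 : 0 ≤ ∑ y ∈ gridSet D L ((a : ℤ), (b : ℤ)), green (gridSet D L ((a : ℤ), (b : ℤ))) x y :=
        Finset.sum_nonneg (fun y _ => (green_basic (gridSet D L ((a : ℤ), (b : ℤ)))).1 x y)
      set p : ℝ := (((x.1 - ((a : ℤ), (b : ℤ)).1) % ((2 * L : ℕ) : ℤ) : ℤ) : ℝ) with hp
      have h3 : 2 * p * (((2 * L : ℕ) : ℝ) - p) ≤ 2 * (L : ℝ) ^ 2 := by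
        push_cast
        nlinarith [sq_nonneg (p - L)]
      linarith
    calc (1 / 4) * (1 / (Λ : ℝ) ^ 2) * _ ≤ (1 / 4) * (1 / (Λ : ℝ) ^ 2) *
          ∑ _a ∈ Finset.range Λ, ∑ _b ∈ Finset.range Λ, 2 * (L : ℝ) ^ 2 := mul_le_mul_of_nonneg_left hb hc
      _ = (L : ℝ) ^ 2 / 2 := by
          rw [Finset.sum_const, Finset.sum_const, Finset.card_range, nsmul_eq_mul, nsmul_eq_mul]
          field_simp
          ring
  · intro x hx
    rw [Gam_facts_row]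
    have h1 := gridSet_avg D L Λ hL hΛ hdvd x hx
    calc (L : ℝ) ^ 2 / 36 = (1 / 4) * (1 / (Λ : ℝ) ^ 2) * ((L : ℝ) ^ 2 / 9 * (Λ : ℝ) ^ 2) := by
          field_simp
          ring
      _ ≤ _ := mul_le_mul_of_nonneg_left h1 hc

end H941.S1
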