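import Pool.Agent.H941.Defs2

open MeasureTheory ProbabilityTheory

namespace H941.T1

theorem pst_shift (δ : ℕ → ℝ) (j : ℕ) (s : ℂ × ℂ) (c : ℕ → Fin 64 × Bool) (i : ℕ) :
    pst δ j s c (i + 1) =
      pst δ (j + 1) (child (δ j) (c 0).2 ((c 0).1 : ℕ) s) (fun i => c (i + 1)) i := by
  induction i with
  | zero => rfl
  | succ i ih =>
    rw [pst, ih]
    rw [pst]
    have : j + (i + 1) = j + 1 + i := by omega
    rw [this]

theorem extd_cons_zero {n : ℕ} (a : Fin 64 × Bool) (c : Fin n → Fin 64 × Bool) :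
    extd (Fin.cons a c : Fin (n + 1) → Fin 64 × Bool) 0 = a := by
  simp [extd]

theorem extd_cons_succ {n : ℕ} (a : Fin 64 × Bool) (c : Fin n → Fin 64 × Bool) (i : ℕ) :
    extd (Fin.cons a c : Fin (n + 1) → Fin 64 × Bool) (i + 1) = extd c i := by
  unfold extd
  by_cases h : i < n
  · rw [dif_pos h, dif_pos (by omega : i + 1 < n + 1)]
    exact Fin.cons_succ (α := fun _ => Fin 64 × Bool) a c ⟨i, h⟩
  · rw [dif_neg h, dif_neg (by omega)]

theorem list_range_sum (f : ℕ → ℝ) (n : ℕ) :
    ((List.range n).map f).sum = ∑ k : Fin n, f k := by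
  rw [← Finset.sum_range]
  rfl

theorem _root_.H941.leaves_sum (δ : ℕ → ℝ) (q : ℕ) (σ : ℕ → ℂ × ℂ → Bool) (F : ℤ × ℤ → ℝ) (n j : ℕ) (s : ℂ × ℂ) :
    ((leaves δ q σ n j s).map F).sum =
      ∑ c : Fin n → Fin 64 × Bool,
        (∏ i : Fin n, if σ (j + i) (pst δ j s (extd c) i) = (c i).2 then (1 : ℝ) else 0) *
          ((finalVerts q (pst δ j s (extd c) n)).map F).sum := by
  induction n generalizing j s with
  | zero =>
    rw [Fintype.sum_unique]
    simp [leaves, pst]
  | succ n ih =>
    have h1 : ((leaves δ q σ (n + 1) j s).map F).sum =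
        ∑ k : Fin 64, ((leaves δ q σ n (j + 1) (child (δ j) (σ j s) k s)).map F).sum := by
      rw [leaves, ← list_range_sum (fun k => ((leaves δ q σ n (j + 1)
        (child (δ j) (σ j s) k s)).map F).sum) 64]
      rw [List.map_flatMap, List.flatMap_def, List.sum_flatten, List.map_map]
      rfl
    rw [h1, ← (Fin.consEquiv (fun _ : Fin (n + 1) => Fin 64 × Bool)).sum_comp,
      Fintype.sum_prod_type, Fintype.sum_prod_type]
    refine Finset.sum_congr rfl fun k _ => ?_
    have h2 : ∀ (b : Bool) (c : Fin n → Fin 64 × Bool),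
        (∏ i : Fin (n + 1), if σ (j + i) (pst δ j s (extd ((Fin.consEquiv
          (fun _ : Fin (n + 1) => Fin 64 × Bool)) ((k, b), c))) i) =
            ((Fin.consEquiv (fun _ : Fin (n + 1) => Fin 64 × Bool)) ((k, b), c) i).2
            then (1 : ℝ) else 0) *
          ((finalVerts q (pst δ j s (extd ((Fin.consEquiv
          (fun _ : Fin (n + 1) => Fin 64 × Bool)) ((k, b), c))) (n + 1))).map F).sum =
        (if σ j s = b then (1 : ℝ) else 0) *
          ((∏ i : Fin n, if σ (j + 1 + i) (pst δ (j + 1) (child (δ j) b k s) (extd c) i) = (c i).2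
            then (1 : ℝ) else 0) *
          ((finalVerts q (pst δ (j + 1) (child (δ j) b k s) (extd c) n)).map F).sum) := by
      intro b c
      have e0 : (Fin.consEquiv (fun _ : Fin (n + 1) => Fin 64 × Bool)) ((k, b), c) =
          (Fin.cons (k, b) c : Fin (n + 1) → Fin 64 × Bool) := rfl
      have e1 : (fun i => extd (Fin.cons (k, b) c : Fin (n + 1) → Fin 64 × Bool) (i + 1)) =
          extd c := funext fun i => extd_cons_succ (k, b) c i
      have e2 : ∀ i, pst δ j s (extd (Fin.cons (k, b) c : Fin (n + 1) → Fin 64 × Bool)) (i + 1) =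
          pst δ (j + 1) (child (δ j) b k s) (extd c) i := by
        intro i
        rw [pst_shift, e1, extd_cons_zero]
      rw [e0, e2, Fin.prod_univ_succ, mul_assoc]
      congr 1
      congr 1
      refine Finset.prod_congr rfl fun i _ => ?_
      have e3 : j + ((Fin.succ i : Fin (n + 1)) : ℕ) = j + 1 + i := by
        rw [Fin.val_succ]; omega
      rw [e3, Fin.val_succ, e2, Fin.cons_succ]
    simp only [h2]
    simp only [← Finset.mul_sum, ← ih]
    simp

end H941.T1
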