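import Pool.Agent.H941.Defs2

open MeasureTheory ProbabilityTheory

namespace H941.T2

theorem _root_.H941.prod_integral {ι : Type} [Fintype ι] [DecidableEq ι] (n : ℕ)
    (Γ : Fin (n + 1) → Matrix ι ι ℝ) (hΓ : ∀ j, (Γ j).PosSemidef) (u : ι) (θ : ℝ)
    (A : Fin n → Set (EuclideanSpace ℝ ι)) (hA : ∀ i, MeasurableSet (A i)) (a : Fin n → ℝ)
    (ha : ∀ i : Fin n, ∫ x, (A i).indicator (fun x => Real.exp (θ * x u)) x
        ∂(multivariateGaussian (0 : EuclideanSpace ℝ ι) (Γ i.castSucc)) ≤ a i) :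
    Integrable (fun ω : Fin (n + 1) → EuclideanSpace ℝ ι =>
        (∏ i : Fin n, (A i).indicator (fun _ => (1 : ℝ)) (ω i.castSucc)) * Real.exp (θ * ∑ j, ω j u))
      (Measure.pi fun j => multivariateGaussian (0 : EuclideanSpace ℝ ι) (Γ j)) ∧
    ∫ ω : Fin (n + 1) → EuclideanSpace ℝ ι,
        (∏ i : Fin n, (A i).indicator (fun _ => (1 : ℝ)) (ω i.castSucc)) * Real.exp (θ * ∑ j, ω j u)
      ∂(Measure.pi fun j => multivariateGaussian (0 : EuclideanSpace ℝ ι) (Γ j)) ≤
    (∏ i, a i) * Real.exp (θ ^ 2 * Γ (Fin.last n) u u / 2) := by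
  set G : Fin (n + 1) → EuclideanSpace ℝ ι → ℝ :=
    Fin.snoc (α := fun _ => EuclideanSpace ℝ ι → ℝ)
      (fun i => (A i).indicator (fun x => Real.exp (θ * x u))) (fun x => Real.exp (θ * x u)) with hG
  have hGc : ∀ i : Fin n, G i.castSucc = (A i).indicator (fun x => Real.exp (θ * x u)) := by
    intro i
    rw [hG, Fin.snoc_castSucc]
  have hGl : G (Fin.last n) = fun x => Real.exp (θ * x u) := by
    rw [hG, Fin.snoc_last]
  have hprod : (fun ω : Fin (n + 1) → EuclideanSpace ℝ ι =>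
      (∏ i : Fin n, (A i).indicator (fun _ => (1 : ℝ)) (ω i.castSucc)) *
        Real.exp (θ * ∑ j, ω j u)) = fun ω => ∏ j, G j (ω j) := by
    funext ω
    rw [Fin.prod_univ_castSucc, Finset.mul_sum, Real.exp_sum, Fin.prod_univ_castSucc, ← mul_assoc,
      ← Finset.prod_mul_distrib, hGl]
    congr 1
    refine Finset.prod_congr rfl fun i _ => ?_
    rw [hGc]
    by_cases h : ω i.castSucc ∈ A i
    · rw [Set.indicator_of_mem h, Set.indicator_of_mem h, one_mul]
    · rw [Set.indicator_of_notMem h, Set.indicator_of_notMem h, zero_mul]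
  have hbase : ∀ j, Integrable (fun x : EuclideanSpace ℝ ι => Real.exp (θ * x u))
      (multivariateGaussian (0 : EuclideanSpace ℝ ι) (Γ j)) := by
    intro j
    have hmp := measurePreserving_eval_multivariateGaussian (μ := (0 : EuclideanSpace ℝ ι))
      (hΓ j) (i := u)
    have h1 := integrable_exp_mul_gaussianReal (μ := (0 : EuclideanSpace ℝ ι) u)
      (v := (Γ j u u).toNNReal) θ
    exact hmp.integrable_comp_of_integrable h1
  have hint : ∀ j, Integrable (G j) (multivariateGaussian (0 : EuclideanSpace ℝ ι) (Γ j)) := by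
    intro j
    refine Fin.lastCases ?_ (fun i => ?_) j
    · rw [hGl]
      exact hbase _
    · rw [hGc]
      exact (hbase _).indicator (hA i)
  rw [hprod]
  refine ⟨Integrable.fintype_prod hint, ?_⟩
  rw [integral_fintype_prod_eq_prod, Fin.prod_univ_castSucc]
  have hlast : ∫ x, G (Fin.last n) x
      ∂(multivariateGaussian (0 : EuclideanSpace ℝ ι) (Γ (Fin.last n))) =
      Real.exp (θ ^ 2 * Γ (Fin.last n) u u / 2) := by
    have hmp := measurePreserving_eval_multivariateGaussian (μ := (0 : EuclideanSpace ℝ ι))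
      (hΓ (Fin.last n)) (i := u)
    have h1 := mgf_gaussianReal hmp.map_eq θ
    unfold mgf at h1
    rw [hGl, h1]
    congr 1
    have h2 : 0 ≤ Γ (Fin.last n) u u := (hΓ (Fin.last n)).diag_nonneg
    rw [Real.coe_toNNReal _ h2]
    simp
    ring
  rw [hlast]
  refine mul_le_mul_of_nonneg_right ?_ (Real.exp_pos _).le
  refine Finset.prod_le_prod (fun i _ => ?_) (fun i _ => ?_)
  · rw [hGc]
    exact integral_nonneg fun x => Set.indicator_nonneg (fun _ _ => (Real.exp_pos _).le) x
  · rw [hGc]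
    exact ha i

end H941.T2
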