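import Pool.Agent.H941.Defs2
import Pool.Agent.H941.T1
import Pool.Agent.H941.T2

open MeasureTheory ProbabilityTheory

namespace H941.T3

theorem core_probability_list {Ω : Type} [MeasurableSpace Ω] (μ : Measure Ω) (L : List (ℤ × ℤ))
    (G : ℤ × ℤ → Ω → ℝ) (C : ℝ) (h : ∀ v ∈ L, Integrable (G v) μ ∧ ∫ ω, G v ω ∂μ ≤ C) :
    Integrable (fun ω => (L.map (fun v => G v ω)).sum) μ ∧
      ∫ ω, (L.map (fun v => G v ω)).sum ∂μ ≤ (L.length : ℝ) * C := by
  induction L with
  | nil => simp
  | cons a L ih =>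
    obtain ⟨h1, h2⟩ := h a List.mem_cons_self
    obtain ⟨h3, h4⟩ := ih fun v hv => h v (List.mem_cons_of_mem _ hv)
    simp only [List.map_cons, List.sum_cons, List.length_cons]
    refine ⟨h1.add h3, ?_⟩
    rw [integral_add h1 h3]
    push_cast
    linarith

theorem core_probability_filter (L : List (ℤ × ℤ)) (p : ℤ × ℤ → Bool) (F : ℤ × ℤ → ℝ) (K : ℝ) (hK : 0 ≤ K)
    (hF : ∀ v, 0 ≤ F v) (hp : ∀ v, p v = true → 1 ≤ K * F v) :
    ((L.filter p).length : ℝ) ≤ K * (L.map F).sum := by
  induction L with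
  | nil => simp
  | cons a L ih =>
    simp only [List.map_cons, List.sum_cons, mul_add]
    by_cases ha : p a = true
    · rw [List.filter_cons_of_pos ha]
      simp only [List.length_cons]
      push_cast
      linarith [hp a ha]
    · rw [List.filter_cons_of_neg ha]
      have := mul_nonneg hK (hF a)
      linarith

theorem core_probability_sum (n : ℕ) (z : ℕ → ℝ) :
    ∑ c : Fin n → Fin 64 × Bool, ∏ i : Fin n,
        ((1 / 2 : ℝ) * (if 24 ≤ ((c i).1 : ℕ) ∧ ((c i).1 : ℕ) < 40 then Real.exp (-(z i)) else 1)) =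
      ∏ i ∈ Finset.range n, (48 + 16 * Real.exp (-(z i))) := by
  have h1 : ∀ e : ℝ, ∑ kb : Fin 64 × Bool,
      ((1 / 2 : ℝ) * (if 24 ≤ (kb.1 : ℕ) ∧ (kb.1 : ℕ) < 40 then e else 1)) = 48 + 16 * e := by
    intro e
    rw [Fintype.sum_prod_type]
    simp only [Fintype.sum_bool]
    have h2 : ∀ k : Fin 64, ((1 / 2 : ℝ) * (if 24 ≤ (k : ℕ) ∧ (k : ℕ) < 40 then e else 1)) +
        ((1 / 2 : ℝ) * (if 24 ≤ (k : ℕ) ∧ (k : ℕ) < 40 then e else 1)) =
        1 + (if 24 ≤ (k : ℕ) ∧ (k : ℕ) < 40 then (e - 1) else 0) := by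
      intro k
      split_ifs <;> ring
    simp only [h2]
    rw [Finset.sum_add_distrib, ← Finset.sum_filter, Finset.sum_const, Finset.sum_const]
    have h3 : (Finset.univ.filter (fun k : Fin 64 => 24 ≤ (k : ℕ) ∧ (k : ℕ) < 40)).card = 16 := by
      decide +kernel
    rw [h3]
    simp
    ring
  rw [← Fin.prod_univ_eq_prod_range (fun i => 48 + 16 * Real.exp (-(z i))) n]
  simp_rw [← h1]
  rw [Finset.prod_univ_sum, Fintype.piFinset_univ]

theorem _root_.H941.core_probability {ι : Type} [Fintype ι] [DecidableEq ι] (n : ℕ)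
    (Γ : Fin (n + 1) → Matrix ι ι ℝ) (hΓ : ∀ j, (Γ j).PosSemidef)
    (δ : ℕ → ℝ) (q : ℕ) (hlen : ∀ s, (finalVerts q s).length = 2 * q) (s : ℂ × ℂ)
    (W : ℕ → ℂ × ℂ → ι → ℝ) (ev : ℤ × ℤ → ι) (θ V y B : ℝ) (hθ : 0 ≤ θ) (hB : 0 < B) (z : ℕ → ℝ)
    (hV : ∀ i, ∑ j, Γ j i i ≤ V)
    (hfac : ∀ c : ℕ → Fin 64 × Bool, ∀ v ∈ finalVerts q (pst δ 0 s c n), ∀ i : Fin n,
      ∫ x : EuclideanSpace ℝ ι, Set.indicator
          {x : EuclideanSpace ℝ ι |
            (if (c i).2 then (1 : ℝ) else -1) * ∑ y, W i (pst δ 0 s c i) y * x y ≤ 0}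
          (fun x => Real.exp (θ * x (ev v))) x
          ∂(multivariateGaussian (0 : EuclideanSpace ℝ ι) (Γ i.castSucc)) ≤
        (1 / 2) * Real.exp (θ ^ 2 * Γ i.castSucc (ev v) (ev v) / 2) *
          (if 24 ≤ ((c i).1 : ℕ) ∧ ((c i).1 : ℕ) < 40 then Real.exp (-(z i)) else 1)) :
    (Measure.pi fun j => multivariateGaussian (0 : EuclideanSpace ℝ ι) (Γ j))
        {ω | B ≤ (((leaves δ q (oracle W ω) n 0 s).filter
          (fun v => decide (-y < ∑ j, ω j (ev v)))).length : ℝ)} ≤
      ENNReal.ofReal (B⁻¹ * Real.exp (θ * y) *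
        (2 * q * (∏ i ∈ Finset.range n, (48 + 16 * Real.exp (-(z i)))) *
          Real.exp (θ ^ 2 * V / 2))) := by
  classical
  set μ := Measure.pi fun j => multivariateGaussian (0 : EuclideanSpace ℝ ι) (Γ j) with hμ
  -- the events
  let A : (Fin n → Fin 64 × Bool) → Fin n → Set (EuclideanSpace ℝ ι) := fun c i =>
    {x : EuclideanSpace ℝ ι |
      (if (c i).2 then (1 : ℝ) else -1) * ∑ y, W i (pst δ 0 s (extd c) i) y * x y ≤ 0}
  have hAm : ∀ c i, MeasurableSet (A c i) := by
    intro c i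
    refine measurableSet_le ?_ measurable_const
    refine Measurable.const_mul ?_ _
    refine Finset.measurable_sum _ fun y _ => ?_
    refine Measurable.const_mul ?_ _
    exact (PiLp.continuous_apply 2 _ y).measurable
  let M : (Fin n → Fin 64 × Bool) → Fin n → ℝ := fun c i =>
    (if 24 ≤ ((c i).1 : ℕ) ∧ ((c i).1 : ℕ) < 40 then Real.exp (-(z i)) else 1)
  have hM : ∀ c i, 0 ≤ M c i := by
    intro c i
    show 0 ≤ (if 24 ≤ ((c i).1 : ℕ) ∧ ((c i).1 : ℕ) < 40 then Real.exp (-(z i)) else 1)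
    split_ifs
    · exact (Real.exp_pos _).le
    · norm_num
  let G : (Fin n → Fin 64 × Bool) → ℤ × ℤ → (Fin (n + 1) → EuclideanSpace ℝ ι) → ℝ := fun c v ω =>
    (∏ i : Fin n, (A c i).indicator (fun _ => (1 : ℝ)) (ω i.castSucc)) * Real.exp (θ * ∑ j, ω j (ev v))
  let L : (Fin n → Fin 64 × Bool) → List (ℤ × ℤ) := fun c => finalVerts q (pst δ 0 s (extd c) n)
  have hG : ∀ c, ∀ v ∈ L c, Integrable (G c v) μ ∧
      ∫ ω, G c v ω ∂μ ≤ (∏ i, ((1 / 2 : ℝ) * M c i)) * Real.exp (θ ^ 2 * V / 2) := by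
    intro c v hv
    have h1 := prod_integral n Γ hΓ (ev v) θ (A c) (hAm c)
      (fun i => (1 / 2) * Real.exp (θ ^ 2 * Γ i.castSucc (ev v) (ev v) / 2) * M c i) (by
        intro i
        have h2 := hfac (extd c) v hv i
        have h3 : extd c (i : ℕ) = c i := by
          simp [extd]
        rw [h3] at h2
        exact h2)
    refine ⟨h1.1, h1.2.trans ?_⟩
    have h4 : (∏ i : Fin n, ((1 / 2) * Real.exp (θ ^ 2 * Γ i.castSucc (ev v) (ev v) / 2) * M c i)) =
        (∏ i, ((1 / 2 : ℝ) * M c i)) * Real.exp (∑ i : Fin n, θ ^ 2 * Γ i.castSucc (ev v) (ev v) / 2) := by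
      rw [Real.exp_sum, ← Finset.prod_mul_distrib]
      exact Finset.prod_congr rfl fun i _ => by ring
    rw [h4, mul_assoc, ← Real.exp_add]
    refine mul_le_mul_of_nonneg_left ?_ (Finset.prod_nonneg fun i _ => mul_nonneg (by norm_num) (hM c i))
    refine Real.exp_le_exp.2 ?_
    have h5 := hV (ev v)
    rw [Fin.sum_univ_castSucc] at h5
    have h6 : ∑ i : Fin n, θ ^ 2 * Γ i.castSucc (ev v) (ev v) / 2 =
        θ ^ 2 / 2 * ∑ i : Fin n, Γ i.castSucc (ev v) (ev v) := by
      rw [Finset.mul_sum]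
      exact Finset.sum_congr rfl fun i _ => by ring
    rw [h6]
    have h7 : 0 ≤ θ ^ 2 / 2 := by positivity
    nlinarith [mul_le_mul_of_nonneg_left h5 h7]
  have hL := fun c => core_probability_list μ (L c) (G c) _ (hG c)
  have hLlen : ∀ c, ((L c).length : ℝ) = 2 * q := by
    intro c
    show ((finalVerts q (pst δ 0 s (extd c) n)).length : ℝ) = 2 * q
    rw [hlen]
    push_cast
    ring
  let Y : (Fin (n + 1) → EuclideanSpace ℝ ι) → ℝ := fun ω =>
    Real.exp (θ * y) * ∑ c, ((L c).map (fun v => G c v ω)).sum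
  have hYint : Integrable Y μ :=
    (integrable_finsetSum _ fun c _ => (hL c).1).const_mul _
  have hYle : ∫ ω, Y ω ∂μ ≤ Real.exp (θ * y) *
        (2 * q * (∏ i ∈ Finset.range n, (48 + 16 * Real.exp (-(z i)))) *
          Real.exp (θ ^ 2 * V / 2)) := by
    show ∫ ω, Real.exp (θ * y) * ∑ c, ((L c).map (fun v => G c v ω)).sum ∂μ ≤ _
    rw [integral_const_mul, integral_finsetSum _ fun c _ => (hL c).1]
    refine mul_le_mul_of_nonneg_left ?_ (Real.exp_pos _).le
    refine (Finset.sum_le_sum fun c _ => (hL c).2).trans (le_of_eq ?_)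
    simp_rw [hLlen]
    rw [← core_probability_sum n z, Finset.mul_sum, Finset.sum_mul]
    exact Finset.sum_congr rfl fun c _ => by ring
  have hGnn : ∀ c v ω, 0 ≤ G c v ω := by
    intro c v ω
    refine mul_nonneg (Finset.prod_nonneg fun i _ => ?_) (Real.exp_pos _).le
    exact Set.indicator_nonneg (fun _ _ => by norm_num) _
  have hYnn : ∀ ω, 0 ≤ Y ω := by
    intro ω
    refine mul_nonneg (Real.exp_pos _).le (Finset.sum_nonneg fun c _ => ?_)
    refine List.sum_nonneg ?_
    intro x hx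
    obtain ⟨v, _, rfl⟩ := List.mem_map.1 hx
    exact hGnn c v ω
  have hkey : ∀ ω, (((leaves δ q (oracle W ω) n 0 s).filter
          (fun v => decide (-y < ∑ j, ω j (ev v)))).length : ℝ) ≤ Y ω := by
    intro ω
    refine (core_probability_filter _ _ (fun v => Real.exp (θ * ∑ j, ω j (ev v))) (Real.exp (θ * y))
      (Real.exp_pos _).le (fun v => (Real.exp_pos _).le) ?_).trans ?_
    · intro v hv
      have h1 : -y < ∑ j, ω j (ev v) := by simpa using hv
      rw [← Real.exp_add]
      refine Real.one_le_exp ?_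
      nlinarith [mul_nonneg hθ (by linarith : (0:ℝ) ≤ y + ∑ j, ω j (ev v))]
    · refine mul_le_mul_of_nonneg_left ?_ (Real.exp_pos _).le
      rw [leaves_sum]
      refine Finset.sum_le_sum fun c _ => ?_
      show _ ≤ ((L c).map (fun v => (∏ i : Fin n, (A c i).indicator (fun _ => (1 : ℝ)) (ω i.castSucc)) *
        Real.exp (θ * ∑ j, ω j (ev v)))).sum
      rw [List.sum_map_mul_left]
      refine mul_le_mul_of_nonneg_right ?_ (List.sum_nonneg ?_)
      · refine Finset.prod_le_prod (fun i _ => ?_) (fun i _ => ?_)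
        · split_ifs <;> norm_num
        · split_ifs with h
          · have hmem : ω i.castSucc ∈ A c i := by
              rw [zero_add] at h
              have h2 : oracle W ω i (pst δ 0 s (extd c) i) =
                  decide (∑ y, W i (pst δ 0 s (extd c) i) y * ω i.castSucc y ≤ 0) := by
                unfold oracle
                rw [dif_pos i.2]
                rfl
              rw [h2] at h
              show (if (c i).2 then (1 : ℝ) else -1) * ∑ y, W i (pst δ 0 s (extd c) i) y * ω i.castSucc y ≤ 0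
              by_cases hb : (c i).2 = true
              · rw [hb] at h
                have h3 := of_decide_eq_true h
                rw [if_pos hb]
                linarith
              · rw [Bool.not_eq_true] at hb
                rw [hb] at h
                have h3 := of_decide_eq_false h
                rw [hb, if_neg (by simp)]
                linarith
            rw [Set.indicator_of_mem hmem]
          · exact Set.indicator_nonneg (fun _ _ => by norm_num) _
      · intro x hx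
        obtain ⟨v, _, rfl⟩ := List.mem_map.1 hx
        exact (Real.exp_pos _).le
  have hsub : {ω | B ≤ (((leaves δ q (oracle W ω) n 0 s).filter
          (fun v => decide (-y < ∑ j, ω j (ev v)))).length : ℝ)} ⊆ {ω | B ≤ Y ω} := by
    intro ω hω
    exact le_trans hω (hkey ω)
  refine (measure_mono hsub).trans ?_
  have hmk := mul_meas_ge_le_integral_of_nonneg (μ := μ) (Filter.Eventually.of_forall hYnn) hYint B
  have hfin : μ {ω | B ≤ Y ω} ≠ ⊤ := measure_ne_top _ _
  rw [← ENNReal.ofReal_toReal hfin]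
  refine ENNReal.ofReal_le_ofReal ?_
  have hmk2 : B * (μ {ω | B ≤ Y ω}).toReal ≤ ∫ ω, Y ω ∂μ := hmk
  rw [mul_assoc, ← div_eq_inv_mul, le_div_iff₀ hB, mul_comm]
  exact hmk2.trans hYle

end H941.T3
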