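import Pool.Agent.H941.Defs2

open MeasureTheory ProbabilityTheory

namespace H941.F1


theorem f1_exp_bound (z : ℝ) (h0 : 0 ≤ z) (h1 : z ≤ 1) :
    48 + 16 * Real.exp (-z) ≤ 64 * Real.exp (-(z / 8)) := by
  have h2 : Real.exp (-z) ≤ 1 - z / 2 := by
    have h3 := Real.add_one_le_exp z
    have h4 : (z + 1) * Real.exp (-z) ≤ 1 := by
      calc (z + 1) * Real.exp (-z) ≤ Real.exp z * Real.exp (-z) :=
            mul_le_mul_of_nonneg_right h3 (Real.exp_pos _).le
        _ = 1 := by rw [← Real.exp_add, add_neg_cancel, Real.exp_zero]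
    by_contra h5
    push Not at h5
    have h6 : (z + 1) * (1 - z / 2) < (z + 1) * Real.exp (-z) :=
      mul_lt_mul_of_pos_left h5 (by linarith)
    nlinarith
  have h3 := Real.add_one_le_exp (-(z / 8))
  linarith

set_option maxHeartbeats 4000000 in
theorem _root_.H941.numeric_prob (c1 : ℝ) (hc1 : 0 < c1) (hc1' : c1 ≤ 1) :
    ∃ c : ℝ, 0 < c ∧ ∃ N0 : ℕ, ∀ N : ℕ, N0 ≤ N → ∃ θ : ℝ, 0 ≤ θ ∧
      θ * Real.sqrt (1 / Real.sqrt ((Nat.log 2 N / 12 : ℕ) : ℝ)) ≤ 1 ∧
      0 < (N : ℝ) * Real.exp (-(c * Real.sqrt (Real.log N))) - 1 ∧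
      ∀ Q : ℝ, 0 ≤ Q → Q * 64 ^ (Nat.log 2 N / 12) ≤ 10 * N →
      ((N : ℝ) * Real.exp (-(c * Real.sqrt (Real.log N))) - 1)⁻¹ *
          Real.exp (θ * (c * (Real.log N) ^ (3 / 4 : ℝ))) *
        (Q * (48 + 16 * Real.exp (-(c1 * (θ * Real.sqrt (1 / Real.sqrt ((Nat.log 2 N / 12 : ℕ) : ℝ))))))
              ^ (Nat.log 2 N / 12) *
          Real.exp (θ ^ 2 * ((1 / 4) * (Real.log (1 + 2 * (N : ℝ) ^ 2) / Real.log 2)) / 2)) ≤
      Real.exp (-(c * Real.sqrt (Real.log N))) := by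
  obtain ⟨c, hc⟩ : ∃ c : ℝ, c = c1 ^ 2 / 46592 := ⟨_, rfl⟩
  obtain ⟨n0, hn0⟩ : ∃ n0 : ℕ, n0 = ⌈(9984 / c1 ^ 2) ^ 2⌉₊ + 13 := ⟨_, rfl⟩
  have hc0 : 0 < c := by rw [hc]; positivity
  have hcle : c ≤ 1 / 46592 := by
    rw [hc]
    have : c1 ^ 2 ≤ 1 := by nlinarith
    linarith
  refine ⟨c, hc0, 2 ^ (12 * n0), fun N hN => ?_⟩
  obtain ⟨n, hn⟩ : ∃ n : ℕ, n = Nat.log 2 N / 12 := ⟨_, rfl⟩
  rw [← hn]
  have hNpos : 0 < N := lt_of_lt_of_le (by positivity) hN
  have hL : 12 * n0 ≤ Nat.log 2 N := by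
    rw [← Nat.log_pow (b := 2) (by norm_num) (12 * n0)]
    exact Nat.log_mono_right hN
  have hn1 : n0 ≤ n := by omega
  have hn13 : 13 ≤ n := by omega
  have hL1 : 12 * n ≤ Nat.log 2 N := by omega
  have hL2 : Nat.log 2 N + 1 ≤ 12 * n + 12 := by omega
  have hN1 : 2 ^ (12 * n) ≤ N := (Nat.pow_le_pow_right (by norm_num) hL1).trans (Nat.pow_log_le_self 2 hNpos.ne')
  have hN2 : N ≤ 2 ^ (12 * n + 12) :=
    (Nat.lt_pow_succ_log_self (by norm_num) N).le.trans (Nat.pow_le_pow_right (by norm_num) hL2)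
  have hNr : (0 : ℝ) < N := by exact_mod_cast hNpos
  have hN1r : (1 : ℝ) ≤ N := by exact_mod_cast hNpos
  have l2a := Real.log_two_gt_d9
  have l2b := Real.log_two_lt_d9
  have hnr : (13 : ℝ) ≤ n := by exact_mod_cast hn13
  -- bounds of the logarithm
  have hlog1 : 8 * (n : ℝ) ≤ Real.log N := by
    have h1 : (12 * (n : ℝ)) * Real.log 2 ≤ Real.log N := by
      have h2 : Real.log ((2 : ℝ) ^ (12 * n)) ≤ Real.log N :=
        Real.log_le_log (by positivity) (by exact_mod_cast hN1)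
      rw [Real.log_pow] at h2
      push_cast at h2
      exact h2
    nlinarith
  have hlog2' : Real.log N ≤ (12 * (n : ℝ) + 12) * Real.log 2 := by
    have h2 : Real.log N ≤ Real.log ((2 : ℝ) ^ (12 * n + 12)) :=
      Real.log_le_log hNr (by exact_mod_cast hN2)
    rw [Real.log_pow] at h2
    push_cast at h2
    exact h2
  have hceil : ⌈(9984 / c1 ^ 2) ^ 2⌉₊ ≤ n := by omega
  clear hN1 hN2 hN hL hL1 hL2 hn1 hn0 hn13
  have hlog2 : Real.log N ≤ 10 * (n : ℝ) := by nlinarith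
  have hlogpos : 0 ≤ Real.log N := by nlinarith
  -- the variance
  have hV : (1 / 4) * (Real.log (1 + 2 * (N : ℝ) ^ 2) / Real.log 2) ≤ 13 * n := by
    have h1 : Real.log (1 + 2 * (N : ℝ) ^ 2) ≤ 2 * Real.log 2 + 2 * Real.log N := by
      have h2 : 1 + 2 * (N : ℝ) ^ 2 ≤ 2 ^ 2 * (N : ℝ) ^ 2 := by nlinarith
      have h3 := Real.log_le_log (by positivity) h2
      rw [Real.log_mul (by positivity) (by positivity), Real.log_pow, Real.log_pow] at h3
      push_cast at h3
      linarith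
    have h4 : Real.log (1 + 2 * (N : ℝ) ^ 2) / Real.log 2 ≤ 24 * n + 26 := by
      rw [div_le_iff₀ (by linarith)]
      nlinarith
    nlinarith
  have hV0 : 0 ≤ (1 / 4) * (Real.log (1 + 2 * (N : ℝ) ^ 2) / Real.log 2) := by
    have h1 : 0 ≤ Real.log (1 + 2 * (N : ℝ) ^ 2) := Real.log_nonneg (by nlinarith)
    have : 0 < Real.log 2 := by linarith
    positivity
  -- the square roots
  obtain ⟨s, hs⟩ : ∃ s : ℝ, s = Real.sqrt n := ⟨_, rfl⟩
  obtain ⟨t, ht⟩ : ∃ t : ℝ, t = Real.sqrt s := ⟨_, rfl⟩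
  have hs2 : s ^ 2 = n := by rw [hs]; exact Real.sq_sqrt (by linarith)
  have hs1 : 1 ≤ s := by rw [hs]; exact Real.one_le_sqrt.2 (by linarith)
  have ht2 : t ^ 2 = s := by rw [ht]; exact Real.sq_sqrt (by linarith)
  have ht1 : 1 ≤ t := by rw [ht]; exact Real.one_le_sqrt.2 hs1
  have hδ : Real.sqrt (1 / Real.sqrt (n : ℝ)) = 1 / t := by
    rw [← hs, one_div, Real.sqrt_inv, ← ht, one_div]
  have hs0 : 0 < s := by linarith
  have ht0 : 0 < t := by linarith
  -- the size of `s`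
  have hsbig : 9984 / c1 ^ 2 ≤ s := by
    rw [hs]
    apply Real.le_sqrt_of_sq_le
    have h1 : (9984 / c1 ^ 2) ^ 2 ≤ (⌈(9984 / c1 ^ 2) ^ 2⌉₊ : ℝ) := Nat.le_ceil _
    have h2 : ((⌈(9984 / c1 ^ 2) ^ 2⌉₊ : ℕ) : ℝ) ≤ n := by
      exact_mod_cast hceil
    linarith
  have hsbig' : 3 ≤ c1 ^ 2 * s / 3328 := by
    rw [div_le_iff₀ (by positivity)] at hsbig
    linarith
  -- sqrt of the logarithm
  have hsl : Real.sqrt (Real.log N) ≤ 4 * s := by
    rw [Real.sqrt_le_left (by positivity)]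
    rw [mul_pow, hs2]
    linarith
  have hsl0 : 0 ≤ Real.sqrt (Real.log N) := Real.sqrt_nonneg _
  have hlp : (Real.log N) ^ (3 / 4 : ℝ) ≤ 6 * t ^ 3 := by
    have h1 : ((Real.log N) ^ (3 / 4 : ℝ)) ^ 4 = (Real.log N) ^ 3 := by
      rw [← Real.rpow_natCast, ← Real.rpow_mul hlogpos, ← Real.rpow_natCast]
      norm_num
    have h2 : (Real.log N) ^ 3 ≤ (10 * t ^ 4) ^ 3 := by
      have : t ^ 4 = n := by rw [← hs2, ← ht2]; ring
      rw [this]
      exact pow_le_pow_left₀ hlogpos hlog2 3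
    have h3 : ((Real.log N) ^ (3 / 4 : ℝ)) ^ 4 ≤ (6 * t ^ 3) ^ 4 := by
      rw [h1]
      refine h2.trans ?_
      have : (10 * t ^ 4) ^ 3 = 1000 * t ^ 12 := by ring
      rw [this]
      have : (6 * t ^ 3) ^ 4 = 1296 * t ^ 12 := by ring
      rw [this]
      have : 0 < t ^ 12 := by positivity
      linarith
    exact le_of_pow_le_pow_left₀ (by norm_num) (by positivity) h3
  have hlp0 : 0 ≤ (Real.log N) ^ (3 / 4 : ℝ) := Real.rpow_nonneg hlogpos _
  obtain ⟨b, hb⟩ : ∃ b : ℝ, b = c1 / 104 := ⟨_, rfl⟩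
  have hb0 : 0 < b := by rw [hb]; positivity
  have hb1 : b ≤ 1 := by rw [hb]; linarith
  refine ⟨b / t, by positivity, ?_, ?_, ?_⟩
  · rw [hδ]
    have : b / t * (1 / t) = b / s := by rw [← ht2]; field_simp
    rw [this, div_le_one hs0]
    linarith
  · -- `N e^{-c sqrt log N} > 1`
    have h1 : c * Real.sqrt (Real.log N) < Real.log N := by
      have h2 : Real.sqrt (Real.log N) ≤ Real.log N := by
        rw [Real.sqrt_le_left hlogpos]
        nlinarith
      nlinarith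
    have h3 : 1 < (N : ℝ) * Real.exp (-(c * Real.sqrt (Real.log N))) := by
      have h4 : (N : ℝ) * Real.exp (-(c * Real.sqrt (Real.log N))) =
          Real.exp (Real.log N + -(c * Real.sqrt (Real.log N))) := by
        rw [Real.exp_add, Real.exp_log hNr]
      rw [h4]
      exact Real.one_lt_exp_iff.2 (by linarith)
    linarith
  · intro Q hQ hQ2
    rw [hδ]
    have hz : b / t * (1 / t) = b / s := by rw [← ht2]; field_simp
    rw [hz]
    -- the factor with the power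
    obtain ⟨z, hzd⟩ : ∃ z : ℝ, z = c1 * (b / s) := ⟨_, rfl⟩
    have hz0 : 0 ≤ z := by rw [hzd]; positivity
    have hz1 : z ≤ 1 := by
      rw [hzd]
      have : b / s ≤ 1 := by rw [div_le_one hs0]; linarith
      have h0 : 0 ≤ b / s := by positivity
      nlinarith
    rw [← hzd]
    have hp : (48 + 16 * Real.exp (-z)) ^ n ≤ 64 ^ n * Real.exp (-(n * (z / 8))) := by
      have h1 := pow_le_pow_left₀ (by positivity) (f1_exp_bound z hz0 hz1) n
      rw [mul_pow, ← Real.exp_nat_mul] at h1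
      refine h1.trans (le_of_eq ?_)
      congr 2
      ring
    have hnz : (n : ℝ) * (z / 8) = c1 * b * s / 8 := by
      rw [hzd, ← hs2]; field_simp
    rw [hnz] at hp
    have hA : Q * (48 + 16 * Real.exp (-z)) ^ n ≤ 10 * N * Real.exp (-(c1 * b * s / 8)) := by
      calc Q * (48 + 16 * Real.exp (-z)) ^ n ≤ Q * (64 ^ n * Real.exp (-(c1 * b * s / 8))) :=
            mul_le_mul_of_nonneg_left hp hQ
        _ = (Q * 64 ^ n) * Real.exp (-(c1 * b * s / 8)) := by ring
        _ ≤ _ := mul_le_mul_of_nonneg_right hQ2 (Real.exp_pos _).le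
    have hB : Real.exp ((b / t) ^ 2 * ((1 / 4) * (Real.log (1 + 2 * (N : ℝ) ^ 2) / Real.log 2)) / 2) ≤
        Real.exp (13 / 2 * b ^ 2 * s) := by
      refine Real.exp_le_exp.2 ?_
      have h1 : (b / t) ^ 2 = b ^ 2 / s := by rw [div_pow, ht2]
      rw [h1]
      have h2 : b ^ 2 / s * ((1 / 4) * (Real.log (1 + 2 * (N : ℝ) ^ 2) / Real.log 2)) ≤
          b ^ 2 / s * (13 * n) := mul_le_mul_of_nonneg_left hV (by positivity)
      have h3 : b ^ 2 / s * (13 * n) = 13 * b ^ 2 * s := by rw [← hs2]; field_simp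
      linarith
    have hC : Real.exp (b / t * (c * (Real.log N) ^ (3 / 4 : ℝ))) ≤ Real.exp (6 * c * s) := by
      refine Real.exp_le_exp.2 ?_
      have h1 : b / t * (c * (Real.log N) ^ (3 / 4 : ℝ)) ≤ b / t * (c * (6 * t ^ 3)) :=
        mul_le_mul_of_nonneg_left (mul_le_mul_of_nonneg_left hlp hc0.le) (by positivity)
      have h2 : b / t * (c * (6 * t ^ 3)) = b * (6 * c * s) := by rw [← ht2]; field_simp
      have h3 : b * (6 * c * s) ≤ 1 * (6 * c * s) := mul_le_mul_of_nonneg_right hb1 (by positivity)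
      linarith
    have hD : ((N : ℝ) * Real.exp (-(c * Real.sqrt (Real.log N))) - 1)⁻¹ ≤
        2 * Real.exp (c * Real.sqrt (Real.log N)) / N := by
      have h1 : 2 ≤ (N : ℝ) * Real.exp (-(c * Real.sqrt (Real.log N))) := by
        have h4 : (N : ℝ) * Real.exp (-(c * Real.sqrt (Real.log N))) =
            Real.exp (Real.log N + -(c * Real.sqrt (Real.log N))) := by
          rw [Real.exp_add, Real.exp_log hNr]
        rw [h4]
        have h5 : 1 ≤ Real.log N + -(c * Real.sqrt (Real.log N)) := by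
          have h2 : Real.sqrt (Real.log N) ≤ Real.log N := by
            rw [Real.sqrt_le_left hlogpos]
            nlinarith
          nlinarith
        have h6 := Real.add_one_le_exp (Real.log N + -(c * Real.sqrt (Real.log N)))
        linarith
      have h2 : (N : ℝ) * Real.exp (-(c * Real.sqrt (Real.log N))) / 2 ≤
          (N : ℝ) * Real.exp (-(c * Real.sqrt (Real.log N))) - 1 := by linarith
      have h3 : 0 < (N : ℝ) * Real.exp (-(c * Real.sqrt (Real.log N))) / 2 := by positivity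
      refine (inv_anti₀ h3 h2).trans (le_of_eq ?_)
      rw [Real.exp_neg]
      field_simp
    have hD0 : 0 ≤ ((N : ℝ) * Real.exp (-(c * Real.sqrt (Real.log N))) - 1)⁻¹ := by
      have h2 : Real.sqrt (Real.log N) ≤ Real.log N := by
        rw [Real.sqrt_le_left hlogpos]
        nlinarith
      have h4 : (N : ℝ) * Real.exp (-(c * Real.sqrt (Real.log N))) =
            Real.exp (Real.log N + -(c * Real.sqrt (Real.log N))) := by
          rw [Real.exp_add, Real.exp_log hNr]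
      have h6 := Real.add_one_le_exp (Real.log N + -(c * Real.sqrt (Real.log N)))
      rw [inv_nonneg, h4]
      nlinarith
    have hbb : c1 * b * s / 8 - 13 / 2 * b ^ 2 * s = c1 ^ 2 * s / 1664 := by
      rw [hb]; ring
    have e20 : (20 : ℝ) ≤ Real.exp 3 := by
      have h1 : Real.exp 3 = Real.exp 1 ^ 3 := by
        rw [← Real.exp_nat_mul]; norm_num
      rw [h1]
      have h2 := Real.exp_one_gt_d9
      have h3 : (2.718 : ℝ) ^ 3 ≤ Real.exp 1 ^ 3 := pow_le_pow_left₀ (by norm_num) (by linarith) 3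
      refine le_trans ?_ h3
      norm_num
    calc ((N : ℝ) * Real.exp (-(c * Real.sqrt (Real.log N))) - 1)⁻¹ *
          Real.exp (b / t * (c * (Real.log N) ^ (3 / 4 : ℝ))) *
        (Q * (48 + 16 * Real.exp (-z)) ^ n *
          Real.exp ((b / t) ^ 2 * ((1 / 4) * (Real.log (1 + 2 * (N : ℝ) ^ 2) / Real.log 2)) / 2))
        ≤ (2 * Real.exp (c * Real.sqrt (Real.log N)) / N * Real.exp (6 * c * s)) *
          (10 * N * Real.exp (-(c1 * b * s / 8)) * Real.exp (13 / 2 * b ^ 2 * s)) := by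
          refine mul_le_mul (mul_le_mul hD hC (Real.exp_pos _).le (by positivity))
            (mul_le_mul hA hB (Real.exp_pos _).le (by positivity)) (by positivity) (by positivity)
      _ = 20 * Real.exp (c * Real.sqrt (Real.log N) + 6 * c * s - c1 ^ 2 * s / 1664) := by
          rw [← hbb]
          rw [show c * Real.sqrt (Real.log N) + 6 * c * s - (c1 * b * s / 8 - 13 / 2 * b ^ 2 * s) =
            c * Real.sqrt (Real.log N) + 6 * c * s + -(c1 * b * s / 8) + 13 / 2 * b ^ 2 * s by ring,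
            Real.exp_add, Real.exp_add, Real.exp_add]
          field_simp
          ring
      _ ≤ Real.exp 3 * Real.exp (c * Real.sqrt (Real.log N) + 6 * c * s - c1 ^ 2 * s / 1664) :=
          mul_le_mul_of_nonneg_right e20 (Real.exp_pos _).le
      _ ≤ Real.exp (-(c * Real.sqrt (Real.log N))) := by
          rw [← Real.exp_add]
          refine Real.exp_le_exp.2 ?_
          have h1 : c * Real.sqrt (Real.log N) ≤ c * (4 * s) := mul_le_mul_of_nonneg_left hsl hc0.le
          have h2 : 14 * c * s = c1 ^ 2 * s / 3328 := by rw [hc]; ring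
          nlinarith

end H941.F1
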