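import Pool.Agent.H941.Defs2

open MeasureTheory ProbabilityTheory

namespace H941.F2

theorem par_bdry (M : ℕ) : (((M / 2 : ℕ) : ℤ), (0 : ℤ)) ∈ innerBdry M := by
  classical
  unfold innerBdry
  rw [Finset.mem_filter]
  refine ⟨?_, (((M / 2 : ℕ) : ℤ) + 1, 0), ?_, ?_⟩
  · unfold box
    rw [Finset.mem_product, Finset.mem_Icc, Finset.mem_Icc]
    refine ⟨⟨?_, le_rfl⟩, ?_, ?_⟩ <;> omega
  · show |((M / 2 : ℕ) : ℤ) - (((M / 2 : ℕ) : ℤ) + 1)| + |(0 : ℤ) - 0| = 1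
    have : ((M / 2 : ℕ) : ℤ) - (((M / 2 : ℕ) : ℤ) + 1) = -1 := by ring
    rw [this]
    simp
  · unfold box
    rw [Finset.mem_product, Finset.mem_Icc, Finset.mem_Icc]
    rintro ⟨⟨_, h⟩, _⟩
    have h' : ((M / 2 : ℕ) : ℤ) + 1 ≤ ((M / 2 : ℕ) : ℤ) := h
    omega

theorem par_inside (N : ℕ) (z : ℤ × ℤ) (h1 : |(z.1 : ℝ)| ≤ (N : ℝ) / 2 - 3)
    (h2 : |(z.2 : ℝ)| ≤ (N : ℝ) / 2 - 3) : z ∈ box N \ innerBdry N := by
  classical
  obtain ⟨a1, a2⟩ := abs_le.mp h1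
  obtain ⟨b1, b2⟩ := abs_le.mp h2
  have a1' : (-(N : ℤ)) + 6 ≤ 2 * z.1 := by
    have : (-(N : ℝ)) + 6 ≤ 2 * (z.1 : ℝ) := by linarith
    exact_mod_cast this
  have a2' : 2 * z.1 + 6 ≤ (N : ℤ) := by
    have : 2 * (z.1 : ℝ) + 6 ≤ (N : ℝ) := by linarith
    exact_mod_cast this
  have b1' : (-(N : ℤ)) + 6 ≤ 2 * z.2 := by
    have : (-(N : ℝ)) + 6 ≤ 2 * (z.2 : ℝ) := by linarith
    exact_mod_cast this
  have b2' : 2 * z.2 + 6 ≤ (N : ℤ) := by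
    have : 2 * (z.2 : ℝ) + 6 ≤ (N : ℝ) := by linarith
    exact_mod_cast this
  have key : ∀ u : ℤ × ℤ, |u.1 - z.1| ≤ 1 → |u.2 - z.2| ≤ 1 → u ∈ box N := by
    intro u hu1 hu2
    have c1 := abs_le.mp hu1
    have c2 := abs_le.mp hu2
    unfold box
    rw [Finset.mem_product, Finset.mem_Icc, Finset.mem_Icc]
    refine ⟨⟨?_, ?_⟩, ?_, ?_⟩ <;> omega
  rw [Finset.mem_sdiff]
  refine ⟨key z (by simp) (by simp), ?_⟩
  unfold innerBdry
  rw [Finset.mem_filter]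
  rintro ⟨_, u, hadj, hu⟩
  have hadj' : |u.1 - z.1| + |u.2 - z.2| = 1 := by
    have : |z.1 - u.1| + |z.2 - u.2| = 1 := hadj
    rw [abs_sub_comm u.1, abs_sub_comm u.2]
    exact this
  refine hu (key u ?_ ?_)
  · have := abs_nonneg (u.2 - z.2)
    omega
  · have := abs_nonneg (u.1 - z.1)
    omega

theorem par_exp : Real.exp 2 ≤ 739 / 100 := by
  have h6 : Real.exp 2 = Real.exp 1 * Real.exp 1 := by rw [← Real.exp_add]; norm_num
  have h7 := Real.exp_one_lt_d9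
  have h8 := Real.exp_pos 1
  rw [h6]
  nlinarith

theorem par_Lc (x : ℝ) (hx : 96 ≤ x) :
    1 ≤ 2 ^ Nat.log 2 ⌊x / 32⌋₊ ∧ 2 * ((2 ^ Nat.log 2 ⌊x / 32⌋₊ : ℕ) : ℝ) ≤ x / 16 ∧
      x / 64 ≤ ((2 ^ Nat.log 2 ⌊x / 32⌋₊ : ℕ) : ℝ) := by
  have hx0 : 0 ≤ x / 32 := by linarith
  have h3 : 3 ≤ ⌊x / 32⌋₊ := Nat.le_floor (by norm_num; linarith)
  have hfl : ((⌊x / 32⌋₊ : ℕ) : ℝ) ≤ x / 32 := Nat.floor_le hx0
  have hfl' : x / 32 < ((⌊x / 32⌋₊ : ℕ) : ℝ) + 1 := Nat.lt_floor_add_one _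
  have h1 : 2 ^ Nat.log 2 ⌊x / 32⌋₊ ≤ ⌊x / 32⌋₊ := Nat.pow_log_le_self 2 (by omega)
  have h2 : ⌊x / 32⌋₊ < 2 ^ (Nat.log 2 ⌊x / 32⌋₊).succ := Nat.lt_pow_succ_log_self (by norm_num) _
  have h2' : ⌊x / 32⌋₊ + 1 ≤ 2 * 2 ^ Nat.log 2 ⌊x / 32⌋₊ := by
    rw [pow_succ] at h2; omega
  have h1R : ((2 ^ Nat.log 2 ⌊x / 32⌋₊ : ℕ) : ℝ) ≤ ((⌊x / 32⌋₊ : ℕ) : ℝ) := by exact_mod_cast h1
  have h2R : ((⌊x / 32⌋₊ : ℕ) : ℝ) + 1 ≤ 2 * ((2 ^ Nat.log 2 ⌊x / 32⌋₊ : ℕ) : ℝ) := by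
    exact_mod_cast h2'
  refine ⟨Nat.one_le_two_pow, by linarith, by linarith⟩

set_option maxHeartbeats 1000000

theorem _root_.H941.params (α β : ℝ) (hα : 0 < α) (hαβ : α < β) (hβ : β < 1) :
    ∃ N0 : ℕ, ∀ N : ℕ, N0 ≤ N →
      64 ≤ nlev N ∧ 0 < del N ∧ del N ≤ 1 / 8 ∧ 1 ≤ qf α β N ∧
      (∀ i < nlev N, 96 ≤ dd α β N i) ∧
      (∀ i < nlev N, 1 ≤ Lc α β N i ∧ 2 * (Lc α β N i : ℝ) ≤ dd α β N i / 16 ∧ dd α β N i / 64 ≤ Lc α β N i) ∧
      (∀ i, i + 1 < nlev N → 2 * Lc α β N (i + 1) ∣ Lc α β N i) ∧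
      (∀ i < nlev N, 2 * Lc α β N i ∣ 2 * Lc α β N 0) ∧
      (2 * (qf α β N : ℝ)) * 64 ^ nlev N ≤ 10 * N ∧
      ((qf α β N : ℝ) * 2) * 64 ^ nlev N + 1 ≤ 10 * N ∧
      absc α N ≤ absc β N ∧
      (∀ (z : ℤ × ℤ) (τ : ℝ), 0 ≤ τ → τ ≤ 1 →
        ‖toC z - (((absc α N : ℕ) : ℂ) + (τ : ℂ) * ((len0 α β N : ℕ) : ℂ))‖ ≤ 4 * dd α β N 0 →
        z ∈ box N \ innerBdry N) ∧
      ((absc α N : ℤ), (0 : ℤ)) ∈ innerBdry ⌊α * (N : ℝ)⌋₊ ∧
      ((absc β N : ℤ), (0 : ℤ)) ∈ innerBdry ⌊β * (N : ℝ)⌋₊ := by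
  have hc : 0 < β - α := by linarith
  have hb1 : 0 < 1 - β := by linarith
  have hβ0 : 0 < β := by linarith
  obtain ⟨n1, hn1⟩ := exists_nat_ge (384 / (β - α))
  obtain ⟨n2, hn2⟩ := exists_nat_ge ((8 / (1 - β)) ^ 2)
  obtain ⟨K1, hK1⟩ := exists_nat_ge (4 / (β - α))
  obtain ⟨K2, hK2⟩ := exists_nat_ge (12 / (1 - β))
  refine ⟨2 ^ (12 * (64 + n1 + n2)) + K1 + K2, fun N hN => ?_⟩
  have hN1 : 2 ^ (12 * (64 + n1 + n2)) ≤ N := by omega
  have hNpos : 0 < N := lt_of_lt_of_le (by positivity) hN1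
  have hlog : 12 * (64 + n1 + n2) ≤ Nat.log 2 N := Nat.le_log_of_pow_le (by norm_num) hN1
  have hnle : 64 + n1 + n2 ≤ nlev N := by
    unfold nlev; omega
  have h12 : 12 * nlev N ≤ Nat.log 2 N := by
    unfold nlev; omega
  have hsN : (64 ^ nlev N) * (64 ^ nlev N) ≤ N := by
    calc 64 ^ nlev N * 64 ^ nlev N = 2 ^ (12 * nlev N) := by
          rw [← mul_pow, pow_mul]; norm_num
      _ ≤ 2 ^ Nat.log 2 N := Nat.pow_le_pow_right (by norm_num) h12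
      _ ≤ N := Nat.pow_log_le_self 2 hNpos.ne'
  set n := nlev N with hn
  have hn64 : 64 ≤ n := by omega
  have hnR : (64 : ℝ) ≤ n := by exact_mod_cast hn64
  have hnn1 : (n1 : ℝ) ≤ n := by exact_mod_cast (by omega : n1 ≤ n)
  have hnn2 : (n2 : ℝ) ≤ n := by exact_mod_cast (by omega : n2 ≤ n)
  have hNR1 : (1 : ℝ) ≤ N := by exact_mod_cast hNpos
  have hKN1 : K1 ≤ N := le_trans (by rw [add_assoc, add_left_comm]; exact Nat.le_add_right _ _) hN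
  have hKN2 : K2 ≤ N := le_trans (Nat.le_add_left _ _) hN
  have hNK1 : (K1 : ℝ) ≤ N := by exact_mod_cast hKN1
  have hNK2 : (K2 : ℝ) ≤ N := by exact_mod_cast hKN2
  have hcN : 4 ≤ (β - α) * N := by
    have := hK1.trans hNK1
    rw [div_le_iff₀ hc] at this; linarith
  have hbN : 12 ≤ (1 - β) * N := by
    have := hK2.trans hNK2
    rw [div_le_iff₀ hb1] at this; linarith
  set s : ℝ := (64 : ℝ) ^ n with hs
  have hsN' : s * s ≤ N := by rw [hs]; exact_mod_cast hsN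
  have hs64 : 64 ≤ s := by
    calc (64 : ℝ) = 64 ^ 1 := by norm_num
      _ ≤ 64 ^ n := pow_le_pow_right₀ (by norm_num) (by omega)
  have hspos : 0 < s := by linarith
  have hnn : (n : ℝ) * n ≤ s := by
    have h1 : (n : ℝ) ≤ 8 ^ n := by
      have h2 : n < 2 ^ n := Nat.lt_two_pow_self
      have h3 : (n : ℝ) ≤ 2 ^ n := by exact_mod_cast h2.le
      exact h3.trans (pow_le_pow_left₀ (by norm_num) (by norm_num) n)
    have h4 : s = 8 ^ n * 8 ^ n := by rw [hs, ← mul_pow]; norm_num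
    rw [h4]
    exact mul_le_mul h1 h1 (by positivity) (by positivity)
  -- square root
  have hnpos : (0 : ℝ) < n := by linarith
  have hsq : Real.sqrt (n : ℝ) * Real.sqrt (n : ℝ) = n := Real.mul_self_sqrt hnpos.le
  have hsq8 : 8 ≤ Real.sqrt (n : ℝ) := Real.le_sqrt_of_sq_le (by norm_num; linarith)
  have hsqn : Real.sqrt (n : ℝ) ≤ n := by
    calc Real.sqrt (n : ℝ) = Real.sqrt (n : ℝ) * 1 := (mul_one _).symm
      _ ≤ Real.sqrt (n : ℝ) * Real.sqrt (n : ℝ) :=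
        mul_le_mul_of_nonneg_left (by linarith) (Real.sqrt_nonneg _)
      _ = n := hsq
  have hsqb : 8 / (1 - β) ≤ Real.sqrt (n : ℝ) := Real.le_sqrt_of_sq_le (hn2.trans hnn2)
  have hd : del N = 1 / Real.sqrt (n : ℝ) := rfl
  have hdpos : 0 < del N := by rw [hd]; positivity
  have hd8 : del N ≤ 1 / 8 := by
    rw [hd]; exact one_div_le_one_div_of_le (by norm_num) hsq8
  have hdn : 1 / (n : ℝ) ≤ del N := by
    rw [hd]; exact one_div_le_one_div_of_le (by positivity) hsqn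
  have hdb : del N ≤ (1 - β) / 8 := by
    rw [hd]
    have : 1 / Real.sqrt (n : ℝ) ≤ 1 / (8 / (1 - β)) :=
      one_div_le_one_div_of_le (by positivity) hsqb
    rwa [one_div_div] at this
  have hd2 : del N ^ 2 * n = 1 := by
    rw [hd, div_pow, one_pow, pow_two, hsq]
    field_simp
  -- ratio
  have hρ : rat N = Real.sqrt (1 + 4 * del N ^ 2) / 64 := rfl
  have hρ1 : 1 / 64 ≤ rat N := by
    rw [hρ]
    have : 1 ≤ Real.sqrt (1 + 4 * del N ^ 2) := Real.le_sqrt_of_sq_le (by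
      rw [one_pow]; linarith [sq_nonneg (del N)])
    linarith
  have hρ2 : rat N ≤ 1 / 60 := by
    rw [hρ]
    have : Real.sqrt (1 + 4 * del N ^ 2) ≤ 64 / 60 := by
      rw [Real.sqrt_le_left (by norm_num)]
      have h1 : del N ^ 2 ≤ (1 / 8) ^ 2 := pow_le_pow_left₀ hdpos.le hd8 2
      norm_num at h1 ⊢
      linarith
    linarith
  have hρpos : 0 < rat N := by linarith
  have hρn : s * rat N ^ n ≤ 739 / 100 := by
    have h1 : 64 * rat N ≤ Real.exp (2 * del N ^ 2) := by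
      have h2 : 64 * rat N = Real.sqrt (1 + 4 * del N ^ 2) := by rw [hρ]; ring
      rw [h2, Real.sqrt_le_left (Real.exp_pos _).le, ← Real.exp_nat_mul]
      have := Real.add_one_le_exp (4 * del N ^ 2)
      have e : ((2 : ℕ) : ℝ) * (2 * del N ^ 2) = 4 * del N ^ 2 := by push_cast; ring
      rw [e]; linarith
    have h3 : s * rat N ^ n = (64 * rat N) ^ n := by rw [mul_pow]
    have h4 : (64 * rat N) ^ n ≤ Real.exp (2 * del N ^ 2) ^ n :=
      pow_le_pow_left₀ (by positivity) h1 n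
    have h5 : Real.exp (2 * del N ^ 2) ^ n = Real.exp 2 := by
      rw [← Real.exp_nat_mul]
      congr 1
      linear_combination 2 * hd2
    rw [h3]
    calc (64 * rat N) ^ n ≤ Real.exp 2 := by rw [← h5]; exact h4
      _ ≤ 739 / 100 := par_exp
  -- length
  have hαN : 0 ≤ α * (N : ℝ) := by positivity
  have hβN : 0 ≤ β * (N : ℝ) := by positivity
  have habsα : ((absc α N : ℕ) : ℝ) ≤ α * N / 2 := by
    have h1 : ((absc α N : ℕ) : ℝ) ≤ ((⌊α * (N : ℝ)⌋₊ : ℕ) : ℝ) / 2 := Nat.cast_div_le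
    have h2 := Nat.floor_le hαN
    linarith
  have habsβ : ((absc β N : ℕ) : ℝ) ≤ β * N / 2 := by
    have h1 : ((absc β N : ℕ) : ℝ) ≤ ((⌊β * (N : ℝ)⌋₊ : ℕ) : ℝ) / 2 := Nat.cast_div_le
    have h2 := Nat.floor_le hβN
    linarith
  have habsβ' : β * N / 2 - 1 ≤ ((absc β N : ℕ) : ℝ) := by
    have h1 : ⌊β * (N : ℝ)⌋₊ ≤ 2 * absc β N + 1 := by unfold absc; omega
    have h1' : ((⌊β * (N : ℝ)⌋₊ : ℕ) : ℝ) ≤ 2 * ((absc β N : ℕ) : ℝ) + 1 := by exact_mod_cast h1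
    have h2 := Nat.lt_floor_add_one (β * (N : ℝ))
    linarith
  have hcN' : 4 ≤ β * N - α * N := by rw [← sub_mul]; exact hcN
  have hβN1 : β * (N : ℝ) ≤ N := by
    calc β * (N : ℝ) ≤ 1 * N := mul_le_mul_of_nonneg_right hβ.le (by linarith)
      _ = N := one_mul _
  have habs : absc α N ≤ absc β N := by
    have : ((absc α N : ℕ) : ℝ) ≤ ((absc β N : ℕ) : ℝ) := by linarith
    exact_mod_cast this
  have hℓ : ((len0 α β N : ℕ) : ℝ) = ((absc β N : ℕ) : ℝ) - ((absc α N : ℕ) : ℝ) := by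
    unfold len0; rw [Nat.cast_sub habs]
  have hℓ1 : (β - α) * N / 4 ≤ ((len0 α β N : ℕ) : ℝ) := by
    rw [hℓ, sub_mul]; linarith
  have hℓ2 : ((len0 α β N : ℕ) : ℝ) ≤ N / 2 := by
    rw [hℓ]
    have : (0 : ℝ) ≤ ((absc α N : ℕ) : ℝ) := Nat.cast_nonneg _
    linarith
  have hℓpos : 0 < ((len0 α β N : ℕ) : ℝ) := by
    have : 0 < (β - α) * N / 4 := by positivity
    linarith
  -- qf
  have hq1 : 1 ≤ qf α β N := Nat.one_le_ceil_iff.mpr (by positivity)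
  have hq2 : (qf α β N : ℝ) ≤ ((len0 α β N : ℕ) : ℝ) * rat N ^ n + 1 :=
    (Nat.ceil_lt_add_one (by positivity)).le
  have hq3 : (qf α β N : ℝ) * s ≤ 4 * N := by
    have h1 : (qf α β N : ℝ) * s ≤ (((len0 α β N : ℕ) : ℝ) * rat N ^ n + 1) * s :=
      mul_le_mul_of_nonneg_right hq2 hspos.le
    have h2 : (((len0 α β N : ℕ) : ℝ) * rat N ^ n + 1) * s =
        ((len0 α β N : ℕ) : ℝ) * (s * rat N ^ n) + s := by ring
    have h3 : ((len0 α β N : ℕ) : ℝ) * (s * rat N ^ n) ≤ N / 2 * (739 / 100) :=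
      mul_le_mul hℓ2 hρn (by positivity) (by positivity)
    have h4 : 64 * s ≤ N := (mul_le_mul_of_nonneg_right hs64 hspos.le).trans hsN'
    rw [h2] at h1
    linarith
  -- bend sizes
  have hdd : ∀ i, dd α β N i = del N * (((len0 α β N : ℕ) : ℝ) * rat N ^ i) := fun i => rfl
  have hdd96 : ∀ i < n, 96 ≤ dd α β N i := by
    intro i hi
    rw [hdd]
    have h1 : rat N ^ n ≤ rat N ^ i :=
      pow_le_pow_of_le_one hρpos.le (by linarith) hi.le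
    have h2 : (1 / 64 : ℝ) ^ n ≤ rat N ^ n := pow_le_pow_left₀ (by norm_num) hρ1 n
    have h3 : (1 / 64 : ℝ) ^ n = 1 / s := by rw [div_pow, one_pow]
    have h4 : 1 / s ≤ rat N ^ i := by rw [← h3]; exact h2.trans h1
    have h5 : (β - α) * (s * s) / 4 ≤ ((len0 α β N : ℕ) : ℝ) := by
      have := mul_le_mul_of_nonneg_left hsN' hc.le
      linarith
    have h6 : (β - α) * (s * s) / 4 * (1 / s) ≤ ((len0 α β N : ℕ) : ℝ) * rat N ^ i :=
      mul_le_mul h5 h4 (by positivity) (by positivity)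
    have h7 : (β - α) * (s * s) / 4 * (1 / s) = (β - α) * s / 4 := by field_simp
    rw [h7] at h6
    have h8 : 1 / (n : ℝ) * ((β - α) * s / 4) ≤
        del N * (((len0 α β N : ℕ) : ℝ) * rat N ^ i) :=
      mul_le_mul hdn h6 (by positivity) hdpos.le
    have h9 : (β - α) * n / 4 ≤ 1 / (n : ℝ) * ((β - α) * s / 4) := by
      rw [one_div, inv_mul_eq_div, le_div_iff₀ hnpos]
      have := mul_le_mul_of_nonneg_left hnn hc.le
      linarith
    have h10 : 384 ≤ (β - α) * n := by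
      have := hn1.trans hnn1
      rw [div_le_iff₀ hc] at this; linarith
    linarith
  have hLc : ∀ i, Lc α β N i = 2 ^ Nat.log 2 ⌊dd α β N i / 32⌋₊ := fun i => rfl
  have hL : ∀ i < n, 1 ≤ Lc α β N i ∧ 2 * (Lc α β N i : ℝ) ≤ dd α β N i / 16 ∧
      dd α β N i / 64 ≤ Lc α β N i := by
    intro i hi
    rw [hLc]
    exact par_Lc _ (hdd96 i hi)
  refine ⟨hn64, hdpos, hd8, hq1, hdd96, hL, ?_, ?_, ?_, ?_, habs, ?_, par_bdry _, par_bdry _⟩
  · intro i hi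
    have h1 := (hL i (by omega)).2.2
    have h2 := (hL (i + 1) hi).2.1
    have h3 : dd α β N (i + 1) ≤ dd α β N i / 60 := by
      rw [hdd, hdd, pow_succ]
      have h0 : 0 ≤ del N * (((len0 α β N : ℕ) : ℝ) * rat N ^ i) := by positivity
      calc del N * (((len0 α β N : ℕ) : ℝ) * (rat N ^ i * rat N))
          = del N * (((len0 α β N : ℕ) : ℝ) * rat N ^ i) * rat N := by ring
        _ ≤ del N * (((len0 α β N : ℕ) : ℝ) * rat N ^ i) * (1 / 60) :=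
          mul_le_mul_of_nonneg_left hρ2 h0
        _ = del N * (((len0 α β N : ℕ) : ℝ) * rat N ^ i) / 60 := by ring
    have h4 := hdd96 i (by omega)
    have h5 : 2 * (Lc α β N (i + 1) : ℝ) < (Lc α β N i : ℝ) := by linarith
    have h6 : 2 * Lc α β N (i + 1) < Lc α β N i := by exact_mod_cast h5
    rw [hLc, hLc, ← pow_succ'] at h6 ⊢
    exact pow_dvd_pow 2 ((Nat.pow_lt_pow_iff_right (by norm_num)).mp h6).le
  · intro i hi
    refine Nat.mul_dvd_mul_left 2 ?_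
    rw [hLc, hLc]
    refine pow_dvd_pow 2 (Nat.log_mono_right (Nat.floor_mono ?_))
    have h1 : rat N ^ i ≤ rat N ^ 0 := pow_le_pow_of_le_one hρpos.le (by linarith) (Nat.zero_le i)
    rw [hdd, hdd]
    gcongr
  · linarith
  · linarith
  · intro z τ hτ0 hτ1 hz
    have hd0 : dd α β N 0 = del N * ((len0 α β N : ℕ) : ℝ) := by rw [hdd, pow_zero, mul_one]
    have hre := (Complex.abs_re_le_norm _).trans hz
    have him := (Complex.abs_im_le_norm _).trans hz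
    have e1 : (toC z - (((absc α N : ℕ) : ℂ) + (τ : ℂ) * ((len0 α β N : ℕ) : ℂ))).re =
        (z.1 : ℝ) - (((absc α N : ℕ) : ℝ) + τ * ((len0 α β N : ℕ) : ℝ)) := by
      simp [toC]
    have e2 : (toC z - (((absc α N : ℕ) : ℂ) + (τ : ℂ) * ((len0 α β N : ℕ) : ℂ))).im =
        (z.2 : ℝ) := by
      simp [toC]
    rw [e1] at hre
    rw [e2] at him
    have hA0 : (0 : ℝ) ≤ ((absc α N : ℕ) : ℝ) := Nat.cast_nonneg _
    have h4d : 4 * dd α β N 0 ≤ (1 - β) * N / 4 := by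
      rw [hd0]
      have : del N * ((len0 α β N : ℕ) : ℝ) ≤ (1 - β) / 8 * (N / 2) :=
        mul_le_mul hdb hℓ2 hℓpos.le (by positivity)
      linarith
    have hτℓ0 : 0 ≤ τ * ((len0 α β N : ℕ) : ℝ) := mul_nonneg hτ0 hℓpos.le
    have hτℓ1 : τ * ((len0 α β N : ℕ) : ℝ) ≤ ((len0 α β N : ℕ) : ℝ) := by
      calc τ * ((len0 α β N : ℕ) : ℝ) ≤ 1 * ((len0 α β N : ℕ) : ℝ) :=
            mul_le_mul_of_nonneg_right hτ1 hℓpos.le
        _ = _ := one_mul _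
    have hN12 : (12 : ℝ) ≤ N := by
      have : 64 * s ≤ N := (mul_le_mul_of_nonneg_right hs64 hspos.le).trans hsN'
      linarith
    have hbN' : 12 ≤ N - β * N := by
      have : (1 - β) * (N : ℝ) = N - β * N := by ring
      linarith
    have h4d' : 4 * dd α β N 0 ≤ (N - β * N) / 4 := by
      have : (1 - β) * (N : ℝ) = N - β * N := by ring
      linarith
    obtain ⟨r1, r2⟩ := abs_le.mp hre
    obtain ⟨i1, i2⟩ := abs_le.mp him
    refine par_inside N z (abs_le.mpr ⟨?_, ?_⟩) (abs_le.mpr ⟨?_, ?_⟩) <;> linarith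

end H941.F2
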