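import Pool.Agent.H941.Defs2
import Pool.Agent.H941.A5
import Pool.Agent.H941.F1
import Pool.Agent.H941.F2
import Pool.Agent.H941.G1
import Pool.Agent.H941.G2
import Pool.Agent.H941.K2
import Pool.Agent.H941.K3
import Pool.Agent.H941.K4
import Pool.Agent.H941.K6
import Pool.Agent.H941.S2
import Pool.Agent.H941.S3
import Pool.Agent.H941.T3

open MeasureTheory ProbabilityTheory

namespace H941.F3

theorem aux_zero_mem_box (N : ℕ) : ((0 : ℤ), (0 : ℤ)) ∈ box N := by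
  unfold box
  simp only [Finset.mem_product, Finset.mem_Icc]
  refine ⟨⟨?_, ?_⟩, ⟨?_, ?_⟩⟩ <;> omega

theorem aux_box_diff (N : ℕ) (hN : 1 ≤ N) (x y : ℤ × ℤ) (hx : x ∈ box N) (hy : y ∈ box N) :
    |x.1 - y.1| < (N : ℤ) ∧ |x.2 - y.2| < (N : ℤ) := by
  unfold box at hx hy
  rw [Finset.mem_product, Finset.mem_Icc, Finset.mem_Icc] at hx hy
  obtain ⟨⟨h1, h2⟩, h3, h4⟩ := hx
  obtain ⟨⟨h5, h6⟩, h7, h8⟩ := hy
  constructor
  · rw [abs_lt]
    constructor <;> omega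
  · rw [abs_lt]
    constructor <;> omega

theorem aux_rat_le (N : ℕ) (h : del N ≤ 1 / 8) (h0 : 0 < del N) : 0 ≤ rat N ∧ rat N ≤ 1 := by
  unfold rat
  constructor
  · positivity
  · rw [div_le_one (by norm_num)]
    apply Real.sqrt_le_iff.mpr
    constructor
    · norm_num
    · nlinarith

theorem _root_.H941.pi_bound : ∃ c : ℝ, 0 < c ∧ ∀ α β : ℝ, 0 < α → α < β → β < 1 →
    ∃ N0 : ℕ, ∀ N : ℕ, N0 ≤ N → ∃ (n : ℕ) (Γ : Fin (n + 1) → Matrix ↥(box N) ↥(box N) ℝ)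
      (W : ℕ → ℂ × ℂ → ↥(box N) → ℝ) (ev : ℤ × ℤ → ↥(box N)),
      n = nlev N ∧ (∀ v : ↥(box N), ev v = v) ∧ (∀ j, (Γ j).PosSemidef) ∧
      (∑ j, Γ j = Matrix.of fun x y : ↥(box N) => (1 / 4) * green (box N \ innerBdry N) x y) ∧
      (Measure.pi fun j => multivariateGaussian (0 : EuclideanSpace ℝ ↥(box N)) (Γ j))
        {ω | (N : ℝ) * Real.exp (-(c * Real.sqrt (Real.log N))) - 1 ≤
          (((leaves (fun _ => del N) (qf α β N) (oracle W ω) n 0
              (((absc α N : ℕ) : ℂ), ((len0 α β N : ℕ) : ℂ))).filter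
            (fun v => decide (-(c * (Real.log N) ^ (3 / 4 : ℝ)) < ∑ j, ω j (ev v)))).length : ℝ)} ≤
      ENNReal.ofReal (Real.exp (-(c * Real.sqrt (Real.log N)))) := by
  obtain ⟨c1, hc1, hc1', hlf⟩ := level_factor
  obtain ⟨c, hc, N1, hnum⟩ := numeric_prob c1 hc1 hc1'
  refine ⟨c, hc, fun α β hα hαβ hβ => ?_⟩
  obtain ⟨N2, hpar⟩ := params α β hα hαβ hβ
  refine ⟨max (max N1 N2) 1, fun N hN => ?_⟩
  have hN1 : N1 ≤ N := (le_max_left _ _).trans ((le_max_left _ _).trans hN)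
  have hN2 : N2 ≤ N := (le_max_right _ _).trans ((le_max_left _ _).trans hN)
  have hN3 : 1 ≤ N := (le_max_right _ _).trans hN
  obtain ⟨p1, p2, p3, p4, p5, p6, p7, p8, p9, p10, p11, p12, p13, p14⟩ := hpar N hN2
  obtain ⟨θ, hθ0, hθ1, hB, hQ⟩ := hnum N hN1
  -- abbreviations
  let D : Finset (ℤ × ℤ) := box N \ innerBdry N
  have hDS : D ⊆ box N := Finset.sdiff_subset
  let L : ℕ → ℕ := Lc α β N
  let Λ : ℕ := 2 * L 0
  have hn0 : 0 < nlev N := by omega
  have hΛ : 1 ≤ Λ := by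
    have := (p6 0 hn0).1
    change 1 ≤ 2 * Lc α β N 0
    omega
  let G : ℕ → Matrix ↥(box N) ↥(box N) ℝ := fun i =>
    Matrix.of fun x y : ↥(box N) => Gam D Λ (L i) x y
  let Rm : Matrix ↥(box N) ↥(box N) ℝ := Matrix.of fun x y : ↥(box N) =>
    (1 / 4) * green D x y - ∑ i ∈ Finset.range (nlev N), Gam D Λ (L i) x y
  have hpsd := Gam_psd D (box N) Λ (nlev N) hΛ L p7
  let Γ : Fin (nlev N + 1) → Matrix ↥(box N) ↥(box N) ℝ := fun j =>
    if (j : ℕ) < nlev N then G j else Rm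
  have hΓc : ∀ i : Fin (nlev N), Γ i.castSucc = G i := by
    intro i
    change (if ((i.castSucc : Fin (nlev N + 1)) : ℕ) < nlev N then G _ else Rm) = G i
    rw [Fin.val_castSucc, if_pos i.isLt]
  have hΓl : Γ (Fin.last (nlev N)) = Rm := by
    change (if ((Fin.last (nlev N) : Fin (nlev N + 1)) : ℕ) < nlev N then G _ else Rm) = Rm
    rw [Fin.val_last, if_neg (lt_irrefl _)]
  have hΓpsd : ∀ j, (Γ j).PosSemidef := by
    intro j
    by_cases hj : (j : ℕ) < nlev N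
    · have : Γ j = G j := if_pos hj
      rw [this]
      exact hpsd.1 j
    · have : Γ j = Rm := if_neg hj
      rw [this]
      exact hpsd.2
  have hΓsum : ∑ j, Γ j = Matrix.of fun x y : ↥(box N) =>
      (1 / 4) * green (box N \ innerBdry N) x y := by
    rw [Fin.sum_univ_castSucc, hΓl]
    simp only [hΓc]
    ext x y
    rw [Matrix.add_apply, Matrix.sum_apply]
    change ∑ i : Fin (nlev N), Gam D Λ (L i) x y +
      ((1 / 4) * green D x y - ∑ i ∈ Finset.range (nlev N), Gam D Λ (L i) x y) =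
      (1 / 4) * green D x y
    rw [Finset.sum_range (fun i => Gam D Λ (L i) x y)]
    ring
  let ev : ℤ × ℤ → ↥(box N) := fun v =>
    if h : v ∈ box N then ⟨v, h⟩ else ⟨((0 : ℤ), (0 : ℤ)), aux_zero_mem_box N⟩
  have hev : ∀ v : ↥(box N), ev v = v := by
    intro v
    change (if h : (v : ℤ × ℤ) ∈ box N then (⟨v, h⟩ : ↥(box N)) else _) = v
    rw [dif_pos v.2]
  let T : ℕ := ⌈16 / del N⌉₊
  let ρ : ℕ → ℕ := fun i => ⌈3 / 8 * dd α β N i⌉₊
  let W : ℕ → ℂ × ℂ → ↥(box N) → ℝ := fun i s => Wfun (box N) T (ρ i) (del N) s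
  refine ⟨nlev N, Γ, W, ev, rfl, hev, hΓpsd, hΓsum, ?_⟩
  have hrat := aux_rat_le N p3 p2
  -- the initial segment
  let s0 : ℂ × ℂ := (((absc α N : ℕ) : ℂ), ((len0 α β N : ℕ) : ℂ))
  have hs0 : ‖s0.2‖ = (len0 α β N : ℝ) := by
    change ‖((len0 α β N : ℕ) : ℂ)‖ = _
    rw [Complex.norm_natCast]
  have hprod : ∀ m : ℕ, ∏ i ∈ Finset.range m,
      (Real.sqrt (1 + 4 * (fun _ : ℕ => del N) (0 + i) ^ 2) / 64) = rat N ^ m := by
    intro m
    simp only [Finset.prod_const, Finset.card_range]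
    rfl
  have hs : ‖s0.2‖ * ∏ i ∈ Finset.range (nlev N),
      (Real.sqrt (1 + 4 * (fun _ : ℕ => del N) (0 + i) ^ 2) / 64) ≤ (qf α β N : ℝ) := by
    rw [hprod, hs0]
    exact Nat.le_ceil _
  have hdd0 : ∀ i, dd α β N i ≤ dd α β N 0 := by
    intro i
    unfold dd
    rw [pow_zero, mul_one]
    refine mul_le_mul_of_nonneg_left ?_ p2.le
    refine mul_le_of_le_one_right (Nat.cast_nonneg _) ?_
    exact pow_le_one₀ hrat.1 hrat.2
  have h96 : 96 ≤ dd α β N 0 := p5 0 hn0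
  have hdd0' : del N * ‖s0.2‖ = dd α β N 0 := by
    rw [hs0]
    unfold dd
    rw [pow_zero, mul_one]
  have hfac : ∀ cc : ℕ → Fin 64 × Bool, ∀ v ∈ finalVerts (qf α β N)
      (pst (fun _ => del N) 0 s0 cc (nlev N)), ∀ i : Fin (nlev N),
      ∫ x : EuclideanSpace ℝ ↥(box N), Set.indicator
          {x : EuclideanSpace ℝ ↥(box N) |
            (if (cc i).2 then (1 : ℝ) else -1) *
              ∑ y, W i (pst (fun _ => del N) 0 s0 cc i) y * x y ≤ 0}
          (fun x => Real.exp (θ * x (ev v))) x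
          ∂(multivariateGaussian (0 : EuclideanSpace ℝ ↥(box N)) (Γ i.castSucc)) ≤
        (1 / 2) * Real.exp (θ ^ 2 * Γ i.castSucc (ev v) (ev v) / 2) *
          (if 24 ≤ ((cc i).1 : ℕ) ∧ ((cc i).1 : ℕ) < 40 then
            Real.exp (-((fun _ : ℕ => c1 * (θ * Real.sqrt (del N))) i)) else 1) := by
    intro cc v hv i
    obtain ⟨f1, f2, f3, f4⟩ := pst_facts (fun _ => del N) (fun _ => p2.le) (fun _ => p3)
      antitone_const (qf α β N) p4 cc (nlev N) 0 s0 hs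
    have hnorm : ∀ m, del N * ‖(pst (fun _ => del N) 0 s0 cc m).2‖ = dd α β N m := by
      intro m
      rw [f1 m, hprod, hs0]
      rfl
    have hvD : v ∈ D := by
      obtain ⟨τ, hτ0, hτ1, hτ⟩ := f2 0 (Nat.zero_le _) v hv
      refine p12 v τ hτ0 hτ1 ?_
      have h1 : ‖toC v - (((absc α N : ℕ) : ℂ) + (τ : ℂ) * ((len0 α β N : ℕ) : ℂ))‖ ≤
          3 + (60 / 59) * (del N * ‖s0.2‖) := hτ
      rw [hdd0'] at h1
      linarith
    have hvb : v ∈ box N := hDS hvD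
    have hevv : ev v = ⟨v, hvb⟩ := dif_pos hvb
    obtain ⟨τ, t, hτ0, hτ1, ht0, ht1, ht34, hdist⟩ := f3 i i.isLt v hv
    have hdi : 96 ≤ dd α β N i := p5 i i.isLt
    obtain ⟨hL1, hL2, hL3⟩ := p6 i i.isLt
    have key := hlf D (box N) hDS Λ (L i) T (ρ i) hΛ hL1 (p8 i i.isLt) (del N)
      (pst (fun _ => del N) 0 s0 cc i) p2 p3
      (by rw [hnorm]; exact hdi)
      (Nat.le_ceil _)
      ((Nat.ceil_lt_add_one (by positivity)).le)
      (by rw [hnorm]; exact Nat.le_ceil _)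
      (by rw [hnorm]; exact (Nat.ceil_lt_add_one (by linarith)).le)
      (by rw [hnorm]; exact hL2)
      (by rw [hnorm]; exact hL3)
      (by
        intro z τ1 h0 h1 hz
        rw [hnorm] at hz
        obtain ⟨τ', h0', h1', hτ'⟩ := f4 i i.isLt.le τ1 h0 h1
        refine p12 z τ' h0' h1' ?_
        have h2 : ‖((pst (fun _ => del N) 0 s0 cc i).1 +
            (τ1 : ℂ) * (pst (fun _ => del N) 0 s0 cc i).2) - (s0.1 + (τ' : ℂ) * s0.2)‖ ≤
            (60 / 59) * (del N * ‖s0.2‖) := hτ'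
        rw [hdd0'] at h2
        have h3 := norm_sub_le_norm_sub_add_norm_sub (toC z)
          ((pst (fun _ => del N) 0 s0 cc i).1 + (τ1 : ℂ) * (pst (fun _ => del N) 0 s0 cc i).2)
          (s0.1 + (τ' : ℂ) * s0.2)
        have h4 := hdd0 i
        change ‖toC z - (s0.1 + (τ' : ℂ) * s0.2)‖ ≤ 4 * dd α β N 0
        linarith)
      (cc i).2 ⟨v, hvb⟩ τ t hτ0 hτ1 ht0 ht1
      (by
        rw [hnorm]
        have h2 : ‖toC v - ((pst (fun _ => del N) 0 s0 cc i).1 +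
            (τ : ℂ) * (pst (fun _ => del N) 0 s0 cc i).2
            + bsign (cc i).2 * (del N : ℂ) * Complex.I * (t : ℂ) *
              (pst (fun _ => del N) 0 s0 cc i).2)‖ ≤
            3 + (1 / 59) * (del N * ‖(pst (fun _ => del N) 0 s0 cc i).2‖) := hdist
        rw [hnorm] at h2
        refine h2.trans ?_
        linarith)
      θ hθ0 hθ1
    rw [hevv, hΓc i]
    refine key.trans ?_
    refine mul_le_mul_of_nonneg_left ?_ (by positivity)
    have hz0 : 0 ≤ c1 * (θ * Real.sqrt (del N)) := by positivity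
    have hexp : Real.exp (-(c1 * (θ * Real.sqrt (del N)))) ≤ 1 := by
      rw [Real.exp_le_one_iff]
      linarith
    by_cases hk : 24 ≤ ((cc i).1 : ℕ) ∧ ((cc i).1 : ℕ) < 40
    · rw [if_pos hk, if_pos (ht34 hk.1 hk.2)]
    · rw [if_neg hk]
      split_ifs
      · exact hexp
      · exact le_rfl
  have hV : ∀ i : ↥(box N), ∑ j, Γ j i i ≤
      (1 / 4) * (Real.log (1 + 2 * (N : ℝ) ^ 2) / Real.log 2) := by
    intro i
    have h1 : ∑ j, Γ j i i = (∑ j, Γ j) i i := (Matrix.sum_apply i i Finset.univ Γ).symm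
    rw [h1, hΓsum]
    change (1 / 4) * green (box N \ innerBdry N) i i ≤ _
    refine mul_le_mul_of_nonneg_left ?_ (by norm_num)
    exact green_log D N hN3 (fun x hx y hy => aux_box_diff N hN3 x y (hDS hx) (hDS hy)) i
  have hfin := core_probability (nlev N) Γ hΓpsd (fun _ => del N) (qf α β N)
    (finalVerts_length (qf α β N)) s0 W ev θ
    ((1 / 4) * (Real.log (1 + 2 * (N : ℝ) ^ 2) / Real.log 2))
    (c * (Real.log N) ^ (3 / 4 : ℝ))
    ((N : ℝ) * Real.exp (-(c * Real.sqrt (Real.log N))) - 1) hθ0 hB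
    (fun _ => c1 * (θ * Real.sqrt (del N))) hV hfac
  refine hfin.trans ?_
  apply ENNReal.ofReal_le_ofReal
  have h := hQ (2 * (qf α β N : ℝ)) (by positivity) p9
  rw [Finset.prod_const, Finset.card_range]
  exact h

end H941.F3
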