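import Pool.Agent.H941.Defs2
import Pool.Agent.H941.A5
import Pool.Agent.H941.F1
import Pool.Agent.H941.F2
import Pool.Agent.H941.F3
import Pool.Agent.H941.G1
import Pool.Agent.H941.G2
import Pool.Agent.H941.K2
import Pool.Agent.H941.K3
import Pool.Agent.H941.K4
import Pool.Agent.H941.K6
import Pool.Agent.H941.S2
import Pool.Agent.H941.S3
import Pool.Agent.H941.T3

open MeasureTheory ProbabilityTheory

namespace H941.F4

theorem _root_.H941.almost_open_crossing : ∃ C c : ℝ, 0 < C ∧ 0 < c ∧ ∀ α β : ℝ, 0 < α → α < β → β < 1 →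
    ∃ N₀ : ℕ, ∀ N : ℕ, N₀ ≤ N → ∀ (Ω : Type*) [MeasurableSpace Ω] (P : Measure Ω)
      (η : ℤ × ℤ → Ω → ℝ), IsDGFF N η P →
      P {ω | ¬ ∃ (u v : ℤ × ℤ) (p : grid.Walk u v),
          u ∈ innerBdry ⌊α * (N : ℝ)⌋₊ ∧ v ∈ innerBdry ⌊β * (N : ℝ)⌋₊ ∧
          (∀ w ∈ p.support, w ∈ box N) ∧ (p.support.length : ℝ) ≤ C * N ∧
          ((p.support.filter
            (fun w => decide (-(c * (Real.log N) ^ (3 / 4 : ℝ)) < η w ω))).length : ℝ) ≤
              N * Real.exp (-(c * Real.sqrt (Real.log N)))} ≤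
        ENNReal.ofReal (Real.exp (-(c * Real.sqrt (Real.log N)))) := by
  classical
  obtain ⟨c, hc, hpi⟩ := pi_bound
  refine ⟨12, c, by norm_num, hc, ?_⟩
  intro α β hα hαβ hβ
  obtain ⟨N1, hN1⟩ := hpi α β hα hαβ hβ
  obtain ⟨N2, hN2⟩ := params α β hα hαβ hβ
  refine ⟨max N1 N2, ?_⟩
  intro N hN Ω _ P η hη
  obtain ⟨n, Γ, W, ev, hn, hev, hΓ, hsum, hbound⟩ := hN1 N (le_trans (le_max_left _ _) hN)
  obtain ⟨hnlev, hdel0, hdel8, hq, hdd, -, -, -, -, hlen, habsc, hbox, hin1, hin2⟩ :=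
    hN2 N (le_trans (le_max_right _ _) hN)
  set y : ℝ := c * (Real.log N) ^ (3 / 4 : ℝ) with hy
  set E : ℝ := (N : ℝ) * Real.exp (-(c * Real.sqrt (Real.log N))) with hE
  -- the set of good truth values
  let GB : Set (↥(box N) → Bool) := {t | ∃ (u v : ℤ × ℤ) (p : grid.Walk u v),
          u ∈ innerBdry ⌊α * (N : ℝ)⌋₊ ∧ v ∈ innerBdry ⌊β * (N : ℝ)⌋₊ ∧
          (∀ w ∈ p.support, w ∈ box N) ∧ (p.support.length : ℝ) ≤ 12 * N ∧
          ((p.support.filter (fun w => t (ev w))).length : ℝ) ≤ E}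
  let T : EuclideanSpace ℝ ↥(box N) → (↥(box N) → Bool) := fun x v => decide (-y < x v)
  have hT : Measurable T := by
    refine measurable_pi_iff.2 fun v => ?_
    refine measurable_to_bool ?_
    have : ((fun x : EuclideanSpace ℝ ↥(box N) => T x v) ⁻¹' {true}) = {x | -y < x v} := by
      ext x
      simp [T]
    rw [this]
    exact measurableSet_lt measurable_const (by fun_prop)
  have hGm : MeasurableSet (T ⁻¹' GB) := hT (Set.toFinite GB).measurableSet
  -- the law of the field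
  set S : Matrix ↥(box N) ↥(box N) ℝ :=
    Matrix.of fun x y : ↥(box N) => (1 / 4) * green (box N \ innerBdry N) x y with hSdef
  have hS : S.PosSemidef := by
    rw [← hsum]
    exact Matrix.posSemidef_sum Finset.univ (fun j _ => hΓ j)
  obtain ⟨hX, hlaw⟩ := law_of_cov P (fun v : ↥(box N) => η v) hη.gaussian
    (fun i => hη.mean_zero i i.2) S hS (fun i j => hη.cov i i.2 j j.2)
  have hlaw2 := law_sum Γ hΓ
  rw [hsum, ← hlaw] at hlaw2
  have step1 : P {ω | ¬ ∃ (u v : ℤ × ℤ) (p : grid.Walk u v),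
          u ∈ innerBdry ⌊α * (N : ℝ)⌋₊ ∧ v ∈ innerBdry ⌊β * (N : ℝ)⌋₊ ∧
          (∀ w ∈ p.support, w ∈ box N) ∧ (p.support.length : ℝ) ≤ 12 * N ∧
          ((p.support.filter
            (fun w => decide (-y < η w ω))).length : ℝ) ≤ E} ≤
      P ((fun ω => (WithLp.toLp 2 (fun i : ↥(box N) => η i ω) : EuclideanSpace ℝ ↥(box N))) ⁻¹' (T ⁻¹' GB)ᶜ) := by
    refine measure_mono ?_
    intro ω hω hcon
    apply hω
    obtain ⟨u, v, p, h1, h2, h3, h4, h5⟩ := hcon
    refine ⟨u, v, p, h1, h2, h3, h4, ?_⟩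
    have : p.support.filter (fun w => decide (-y < η w ω)) = p.support.filter (fun w =>
        T (WithLp.toLp 2 (fun i : ↥(box N) => η i ω)) (ev w)) := by
      refine List.filter_congr fun w hw => ?_
      have h6 := hev ⟨w, h3 w hw⟩
      simp only at h6
      simp only [T]
      rw [h6]
    rw [this]
    exact h5
  have step2 : P ((fun ω => (WithLp.toLp 2 (fun i : ↥(box N) => η i ω) : EuclideanSpace ℝ ↥(box N))) ⁻¹' (T ⁻¹' GB)ᶜ) =
      (Measure.pi (fun j => multivariateGaussian (0 : EuclideanSpace ℝ ↥(box N)) (Γ j)))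
        ((fun x => ∑ j, x j) ⁻¹' (T ⁻¹' GB)ᶜ) := by
    rw [← Measure.map_apply_of_aemeasurable hX hGm.compl, ← hlaw2,
      Measure.map_apply (by fun_prop) hGm.compl]
  refine (step1.trans step2.le).trans (le_trans (measure_mono ?_) hbound)
  intro ω hω
  by_contra hcon
  simp only [Set.mem_ofPred_eq, not_le] at hcon
  apply hω
  -- the walk
  have hprod : ∏ i ∈ Finset.range n, (Real.sqrt (1 + 4 * (fun _ : ℕ => del N) (0 + i) ^ 2) / 64) = rat N ^ n := by
    simp [rat, div_pow]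
  have hnorm : ‖((len0 α β N : ℕ) : ℂ)‖ = len0 α β N := by simp
  have hs : ‖((len0 α β N : ℕ) : ℂ)‖ *
      ∏ i ∈ Finset.range n, (Real.sqrt (1 + 4 * (fun _ : ℕ => del N) (0 + i) ^ 2) / 64) ≤ qf α β N := by
    rw [hprod, hnorm, hn]
    exact Nat.le_ceil _
  obtain ⟨⟨p, hp⟩, hplen⟩ := exists_walk (fun _ => del N) (fun _ => hdel0.le) (fun _ => hdel8) (qf α β N) hq
    (oracle W ω) n 0 (((absc α N : ℕ) : ℂ), ((len0 α β N : ℕ) : ℂ)) hs
  have hnear := leaves_near (fun _ => del N) (fun _ => hdel0.le) (fun _ => hdel8) antitone_const (qf α β N) hq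
    (oracle W ω) n 0 (((absc α N : ℕ) : ℂ), ((len0 α β N : ℕ) : ℂ)) hs
  have hrd1 : rd ((absc α N : ℕ) : ℂ) = ((absc α N : ℤ), (0 : ℤ)) := by
    simp [rd]
  have hrd2 : rd (((absc α N : ℕ) : ℂ) + ((len0 α β N : ℕ) : ℂ)) = ((absc β N : ℤ), (0 : ℤ)) := by
    have h1 : ((absc α N : ℕ) : ℂ) + ((len0 α β N : ℕ) : ℂ) = ((absc β N : ℕ) : ℂ) := by
      rw [← Nat.cast_add]
      congr 1
      unfold len0
      omega
    rw [h1]
    simp [rd]
  have hdd0 : 96 ≤ dd α β N 0 := hdd 0 (by omega)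
  have hdd0' : dd α β N 0 = del N * (len0 α β N : ℝ) := by simp [dd]
  have hleafbox : ∀ w ∈ leaves (fun _ => del N) (qf α β N) (oracle W ω) n 0
      (((absc α N : ℕ) : ℂ), ((len0 α β N : ℕ) : ℂ)), w ∈ box N := by
    intro w hw
    obtain ⟨τ, h0, h1, h2⟩ := hnear w hw
    have h3 := hbox w τ h0 h1 (by
      refine h2.trans ?_
      simp only
      rw [hnorm, ← hdd0']
      linarith)
    exact (Finset.mem_sdiff.1 h3).1
  have hheadbox : ((absc α N : ℤ), (0 : ℤ)) ∈ box N := by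
    have h3 := hbox ((absc α N : ℤ), (0 : ℤ)) 0 le_rfl (by norm_num) (by
      have : toC ((absc α N : ℤ), (0 : ℤ)) - (((absc α N : ℕ) : ℂ) + ((0 : ℝ) : ℂ) * ((len0 α β N : ℕ) : ℂ)) = 0 := by
        apply Complex.ext <;> simp [toC]
      rw [this, norm_zero]
      linarith)
    exact (Finset.mem_sdiff.1 h3).1
  have hsupp : p.support = rd ((absc α N : ℕ) : ℂ) :: p.support.tail := by
    exact p.cons_tail_support.symm
  refine ⟨_, _, p, ?_, ?_, ?_, ?_, ?_⟩
  · simp only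
    rw [hrd1]; exact hin1
  · simp only
    rw [hrd2]; exact hin2
  · intro w hw
    rw [hsupp] at hw
    rcases List.mem_cons.1 hw with h | h
    · rw [h, hrd1]; exact hheadbox
    · exact hleafbox w (hp.subset h)
  · rw [hsupp, List.length_cons]
    have h1 := hp.length_le
    rw [hplen] at h1
    have h2 : ((p.support.tail.length : ℕ) : ℝ) ≤ ((64 ^ n * (2 * qf α β N) : ℕ) : ℝ) := by exact_mod_cast h1
    rw [hn] at h2
    push_cast at h2 ⊢
    have hN0 : (0 : ℝ) ≤ N := Nat.cast_nonneg _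
    linarith
  · rw [hsupp]
    have h1 : (List.filter (fun w => T (∑ j, ω j) (ev w)) (rd ((absc α N : ℕ) : ℂ) :: p.support.tail)).length ≤
        1 + (List.filter (fun w => T (∑ j, ω j) (ev w)) p.support.tail).length := by
      rw [List.filter_cons]
      split_ifs
      · rw [List.length_cons]; omega
      · omega
    have h2 := (hp.filter (fun w => T (∑ j, ω j) (ev w))).length_le
    have h3 : (leaves (fun _ => del N) (qf α β N) (oracle W ω) n 0
      (((absc α N : ℕ) : ℂ), ((len0 α β N : ℕ) : ℂ))).filter (fun w => T (∑ j, ω j) (ev w)) =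
      (leaves (fun _ => del N) (qf α β N) (oracle W ω) n 0
      (((absc α N : ℕ) : ℂ), ((len0 α β N : ℕ) : ℂ))).filter (fun v => decide (-y < ∑ j, ω j (ev v))) := by
      refine List.filter_congr fun w _ => ?_
      simp [T]
    rw [h3] at h2
    have h4 : ((List.filter (fun w => T (∑ j, ω j) (ev w)) (rd ((absc α N : ℕ) : ℂ) :: p.support.tail)).length : ℝ) ≤
        1 + ((List.filter (fun w => T (∑ j, ω j) (ev w)) p.support.tail).length : ℝ) := by exact_mod_cast h1
    have h5 : ((List.filter (fun w => T (∑ j, ω j) (ev w)) p.support.tail).length : ℝ) ≤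
       (((leaves (fun _ => del N) (qf α β N) (oracle W ω) n 0
      (((absc α N : ℕ) : ℂ), ((len0 α β N : ℕ) : ℂ))).filter (fun v => decide (-y < ∑ j, ω j (ev v)))).length : ℝ) := by
      exact_mod_cast h2
    refine h4.trans ?_
    linarith

end H941.F4
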